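import Pool.Agent.H85.HN.Flux

/-!
# The upper bound for the integral of the weight
-/

namespace Pool.Agent.H85.HN

open Pool.Agent.H99.HN Pool.Agent.H99.PC
open MeasureTheory Set Filter Topology Real

namespace Par

variable {p : Par}

theorem kk_meas : Measurable p.kk := by
  have e : p.kk = tri p.t0 1 (fun x => -((1 + p.q) / 2) * x ^ 3 *
    (1 - ((1 + p.q) / p.q) ^ 2 * x ^ 2)) (fun x => 1 - p.q * (1 / x - 1)) (fun _ => p.W / 100) :=
    rfl
  rw [e]
  exact tri_meas (by fun_prop) (by fun_prop) (by fun_prop)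

theorem kk_bound (h : p.Ok) : ∃ C : ℝ, ∀ x, 0 < x → |p.kk x| ≤ C := by
  have hq : (0 : ℝ) < p.q := by exact_mod_cast h.q
  refine ⟨(1 + p.q) / 2 * (1 + ((1 + p.q) / p.q) ^ 2) + (1 + p.q * (1 / p.t0 + 1))
    + |(p.W : ℝ) / 100|, fun x hx => ?_⟩
  have ht := t0_lt h
  have ht0 := t0_pos h
  have n1 : 0 ≤ (1 + (p.q : ℝ)) / 2 * (1 + ((1 + p.q) / p.q) ^ 2) := by positivity
  have n2 : 0 ≤ 1 + (p.q : ℝ) * (1 / p.t0 + 1) := by positivity
  have n3 := abs_nonneg ((p.W : ℝ) / 100)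
  unfold kk
  by_cases a1 : x < p.t0
  · rw [if_pos a1]
    have hx1 : x ≤ 1 := (a1.trans ht).le
    have e3 : x ^ 3 ≤ 1 := pow_le_one₀ hx.le hx1
    have e2 : x ^ 2 ≤ 1 := pow_le_one₀ hx.le hx1
    have e4 : |1 - ((1 + (p.q : ℝ)) / p.q) ^ 2 * x ^ 2| ≤ 1 + ((1 + (p.q : ℝ)) / p.q) ^ 2 := by
      have : 0 ≤ ((1 + (p.q : ℝ)) / p.q) ^ 2 := by positivity
      have h0 : 0 ≤ x ^ 2 := by positivity
      rw [abs_le]; constructor <;> nlinarith
    have : |-((1 + (p.q : ℝ)) / 2) * x ^ 3 * (1 - ((1 + p.q) / p.q) ^ 2 * x ^ 2)| ≤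
        (1 + (p.q : ℝ)) / 2 * (1 + ((1 + (p.q : ℝ)) / p.q) ^ 2) := by
      rw [abs_mul, abs_mul, abs_neg, abs_of_pos (by positivity : (0:ℝ) < (1 + (p.q : ℝ)) / 2),
        abs_of_pos (by positivity : (0:ℝ) < x ^ 3)]
      refine mul_le_mul ?_ e4 (abs_nonneg _) (by positivity)
      exact mul_le_of_le_one_right (by positivity) e3
    linarith
  · have a1' := not_lt.mp a1
    by_cases a2 : x < 1
    · rw [if_neg a1, if_pos a2]
      have h1 : 1 / x ≤ 1 / p.t0 := one_div_le_one_div_of_le ht0 a1'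
      have h2 : 0 < 1 / x := by positivity
      have : |1 - (p.q : ℝ) * (1 / x - 1)| ≤ 1 + (p.q : ℝ) * (1 / p.t0 + 1) := by
        rw [abs_le]; constructor <;> nlinarith
      linarith
    · rw [if_neg a1, if_neg a2]
      linarith

theorem kk_int (h : p.Ok) {ν : Measure ℝ} [IsFiniteMeasure ν] (h0 : ν (Iic 0) = 0) {r1 : ℝ}
    (hr1 : 0 < r1) : Integrable (fun t => p.kk (t / r1)) ν := by
  obtain ⟨C, hC⟩ := kk_bound h
  refine Integrable.mono' (integrable_const C)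
    (kk_meas.comp (measurable_id.div_const _)).aestronglyMeasurable ?_
  filter_upwards [ae_pos ν h0] with t ht
  exact hC _ (by positivity)

end Par

theorem feas_pos {ν : Measure ℝ} {tc κ : ℝ} (hF : Feas ν tc κ) (htc : 0 < tc) :
    0 < ∫ r, r ^ 2 ∂ν := by
  have hpos := ae_pos ν hF.supp
  have hν : ν ≠ 0 := by
    rintro rfl
    have := hF.mass
    simp at this
    linarith
  rw [integral_pos_iff_support_of_nonneg_ae]
  · rw [pos_iff_ne_zero]
    intro h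
    apply hν
    rw [← Measure.measure_univ_eq_zero]
    have : ∀ᵐ r ∂ν, False := by
      have h' : ∀ᵐ r ∂ν, r ∉ Function.support (fun r : ℝ => r ^ 2) :=
        measure_eq_zero_iff_ae_notMem.mp h
      filter_upwards [hpos, h'] with r hr hr2
      exact hr2 (by simp; positivity)
    simpa [ae_iff] using this
  · filter_upwards [hpos] with r hr
    positivity
  · exact hF.mom 2

/-- basic inequality with the weight `r ^ 3` -/
theorem base_lt (hpw : T_pw) {ν : Measure ℝ} {tc κ : ℝ} (hF : Feas ν tc κ) (hκ : 1 < κ)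
    (htc : 0 < tc) {B B1 : ℝ → ℝ}
    (hB : LFlux (fun r : ℝ => r ^ 3) (fun r : ℝ => 3 * r ^ 2) B B1) :
    Integrable (Kf (fun r : ℝ => r ^ 3) (fun r : ℝ => 3 * r ^ 2) B B1) ν ∧
    (∫ r, Kf (fun r : ℝ => r ^ 3) (fun r : ℝ => 3 * r ^ 2) B B1 r ∂ν) +
      4579 / 5000 * tc * ∫ r, r ^ 2 ∂ν < 0 := by
  have := hF.fin
  obtain ⟨hi, hle⟩ := hpw ν tc κ hF _ _ _ _ Par.mult3 hB
  refine ⟨hi, ?_⟩
  have h1 := dh_lower ν hF.supp (hF.mom 2)
  rw [hF.mass] at h1
  have h2 := feas_pos hF htc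
  have h3 : 0 < Dh (fun r => r ^ 3) ν := lt_of_lt_of_le (by positivity) h1
  nlinarith [mul_pos (sub_pos.mpr hκ) h3]

theorem Par.kf_eq (p : Par) {r1 r : ℝ} (hr1 : 0 < r1) (hr : 0 < r) :
    Kf (fun r : ℝ => r ^ 3) (fun r : ℝ => 3 * r ^ 2) (p.BB r1) (p.BB1 r1) r =
      r * (p.elx (r / r1) - p.ell (r / r1) ^ 2 - 2) - r ^ 2 := by
  unfold Kf Par.BB Par.BB1
  field_simp
  ring

theorem c2 (hpw : T_pw) {ν : Measure ℝ} {tc κ : ℝ} (hF : Feas ν tc κ) (hκ : 1 < κ)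
    (h1 : 1204 / 1000 ≤ tc) (h2 : tc ≤ 1211 / 1000) {p : Par} (ho : p.Ok) (hP : 0 ≤ p.P)
    {r1 : ℝ} (hr1 : 0 < r1) (hN : ∀ x, 0 < x → 0 ≤ p.Nf x r1) :
    ∫ t, p.kk (t / r1) ∂ν < p.P / 100 / r1 := by
  have := hF.fin
  have hL : (0 : ℝ) < p.L := by exact_mod_cast ho.L
  have hP' : (0 : ℝ) ≤ p.P := by exact_mod_cast hP
  obtain ⟨hi, hlt⟩ := base_lt hpw hF hκ (by linarith) (Par.lflux ho hr1)
  have hk := Par.kk_int ho hF.supp hr1
  have hm := feas_pos hF (by linarith)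
  -- integrate the pointwise bound
  have key : ∫ r, (r1 ^ 2 * (p.L / 10000) * p.kk (r / r1) - r1 * (p.L * p.P / 1211000)
      - 1026 / 10000 * r ^ 2 - r ^ 2) ∂ν ≤
      ∫ r, Kf (fun r : ℝ => r ^ 3) (fun r : ℝ => 3 * r ^ 2) (p.BB r1) (p.BB1 r1) r ∂ν := by
    refine integral_mono_ae ?_ hi ?_
    · exact (((hk.const_mul _).sub (integrable_const _)).sub ((hF.mom 2).const_mul _)).sub
        (hF.mom 2)
    · filter_upwards [ae_pos ν hF.supp] with r hr
      rw [p.kf_eq hr1 hr]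
      have hx : 0 < r / r1 := by positivity
      have h3 := hN _ hx
      unfold Par.Nf at h3
      have h4 := mul_nonneg hr1.le h3
      have e : r1 * (r / r1 * (p.elx (r / r1) - p.ell (r / r1) ^ 2 - 2) +
          r1 * (1026 / 10000 * (r / r1) ^ 2 - p.L / 10000 * p.kk (r / r1))
          + p.L * p.P / 1211000) = r * (p.elx (r / r1) - p.ell (r / r1) ^ 2 - 2)
          + 1026 / 10000 * r ^ 2 - r1 ^ 2 * (p.L / 10000) * p.kk (r / r1)
          + r1 * (p.L * p.P / 1211000) := by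
        field_simp
        ring
      rw [e] at h4
      linarith
  have hsplit : ∫ r, (r1 ^ 2 * (p.L / 10000) * p.kk (r / r1) - r1 * (p.L * p.P / 1211000)
      - 1026 / 10000 * r ^ 2 - r ^ 2) ∂ν = r1 ^ 2 * (p.L / 10000) * (∫ r, p.kk (r / r1) ∂ν)
      - tc * (r1 * (p.L * p.P / 1211000)) - 1026 / 10000 * (∫ r, r ^ 2 ∂ν) - ∫ r, r ^ 2 ∂ν := by
    rw [integral_sub, integral_sub, integral_sub, integral_const_mul, integral_const,
      integral_const_mul, smul_eq_mul]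
    · rw [show ν.real univ = tc from hF.mass]
    · exact hk.const_mul _
    · exact integrable_const _
    · exact (hk.const_mul _).sub (integrable_const _)
    · exact (hF.mom 2).const_mul _
    · exact ((hk.const_mul _).sub (integrable_const _)).sub ((hF.mom 2).const_mul _)
    · exact hF.mom 2
  rw [hsplit] at key
  have h5 : r1 ^ 2 * (p.L / 10000) * (∫ r, p.kk (r / r1) ∂ν) <
      tc * (r1 * (p.L * p.P / 1211000)) := by
    nlinarith [mul_le_mul_of_nonneg_right h1 hm.le]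
  have h6 : tc * (r1 * (p.L * p.P / 1211000)) ≤ r1 * (p.L / 10000) * (p.P / 100) := by
    have : 0 ≤ r1 * (p.L * p.P) := by positivity
    nlinarith
  have h7 : r1 * (p.L / 10000) * (r1 * ∫ r, p.kk (r / r1) ∂ν) <
      r1 * (p.L / 10000) * (p.P / 100) := by nlinarith
  have h8 := lt_of_mul_lt_mul_left h7 (by positivity)
  rw [lt_div_iff₀ hr1]
  linarith

end Pool.Agent.H85.HN
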