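import Pool.Agent.H85.HN.Kern
import Pool.Agent.H99.PC.Poly

/-!
# One-dimensional certificates: general part
-/

namespace Pool.Agent.H85.HN

open Pool.Agent.H99.HN Pool.Agent.H99.PC
open MeasureTheory Set Filter Topology Real

/-- derivative of a polynomial -/
def dl : List ℤ → List ℤ
  | [] => []
  | _ :: l => add l (0 :: dl l)

theorem hasDeriv_ev (l : List ℤ) (x : ℝ) : HasDerivAt (ev l) (ev (dl l) x) x := by
  induction l with
  | nil => exact hasDerivAt_const x 0
  | cons c l ih =>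
    have h := ((hasDerivAt_id x).mul ih).const_add (c : ℝ)
    have e : ev (dl (c :: l)) x = 1 * ev l x + id x * ev (dl l) x := by
      simp [dl, ev_add, ev]
    rw [e]
    exact h

/-- data of a certificate -/
structure Par where
  /-- parameter `q` -/
  q : ℤ
  /-- denominator of `ell` -/
  D : ℤ
  /-- `100 P` -/
  P : ℤ
  /-- `10000 lam` -/
  L : ℤ
  /-- `100 w` -/
  W : ℤ
  /-- polynomial of the first piece -/
  E1 : List ℤ
  /-- polynomial of the second piece -/
  E2 : List ℤ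
  /-- polynomial (in `1/ρ`) of the third piece -/
  E3 : List ℤ

namespace Par

variable (p : Par)

/-- the first breakpoint -/
noncomputable def t0 : ℝ := p.q / (1 + p.q)

/-- `ell` -/
noncomputable def ell (x : ℝ) : ℝ :=
  if x < p.t0 then ev p.E1 x / p.D else if x < 1 then ev p.E2 x / p.D else ev p.E3 (1 / x) / p.D

/-- `x ell'(x)` -/
noncomputable def elx (x : ℝ) : ℝ :=
  if x < p.t0 then x * ev (dl p.E1) x / p.D else
    if x < 1 then x * ev (dl p.E2) x / p.D else -(1 / x) * ev (dl p.E3) (1 / x) / p.D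

/-- the weight `k` -/
noncomputable def kk (x : ℝ) : ℝ :=
  if x < p.t0 then -((1 + p.q) / 2) * x ^ 3 * (1 - ((1 + p.q) / p.q) ^ 2 * x ^ 2) else
    if x < 1 then 1 - p.q * (1 / x - 1) else p.W / 100

/-- the polynomial of the first region, `r = R/20` -/
def N1 (R : ℤ) : List ℤ :=
  add (smul (2 * p.q ^ 2 * 242200000) (0 :: add (smul p.D (0 :: dl p.E1))
      (add (smul (-1) (mul p.E1 p.E1)) [-2 * p.D ^ 2])))
    (add (smul (p.D ^ 2 * 1211 * R) [0, 0, 2 * p.q ^ 2 * 1026, p.L * (1 + p.q) * p.q ^ 2, 0,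
      -(p.L * (1 + p.q) ^ 3)]) [2 * p.q ^ 2 * p.D ^ 2 * 200 * p.L * p.P])

/-- the polynomial of the second region -/
def N2 (R : ℤ) : List ℤ :=
  add (smul 242200000 (0 :: 0 :: add (smul p.D (0 :: dl p.E2))
      (add (smul (-1) (mul p.E2 p.E2)) [-2 * p.D ^ 2])))
    (add (smul (p.D ^ 2 * 1211 * R) [p.L * p.q, -(p.L * (1 + p.q)), 0, 1026])
      [0, p.D ^ 2 * 200 * p.L * p.P])

/-- the polynomial of the third region -/
def N3 (R : ℤ) : List ℤ :=
  add (smul (100 * 242200000) (0 :: add (smul (-p.D) (0 :: dl p.E3))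
      (add (smul (-1) (mul p.E3 p.E3)) [-2 * p.D ^ 2])))
    (add (smul (p.D ^ 2 * 1211 * R) [102600, 0, -(p.L * p.W)])
      [0, 0, 100 * p.D ^ 2 * 200 * p.L * p.P])

/-- the expression to be nonnegative -/
noncomputable def Nf (x r : ℝ) : ℝ :=
  x * (p.elx x - p.ell x ^ 2 - 2) + r * (1026 / 10000 * x ^ 2 - p.L / 10000 * p.kk x)
    + p.L * p.P / 1211000

/-- validity at the endpoint `R/20` -/
structure Good (R : ℤ) : Prop where
  n1 : ∀ x : ℝ, 0 ≤ x → x ≤ p.t0 → 0 ≤ ev (p.N1 R) x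
  n2 : ∀ x : ℝ, p.t0 ≤ x → x ≤ 1 → 0 ≤ ev (p.N2 R) x
  n3 : ∀ x : ℝ, 0 ≤ x → x ≤ 1 → 0 ≤ ev (p.N3 R) x

theorem nf_nonneg {R : ℤ} (hq : 0 < p.q) (hD : 0 < p.D) (h : p.Good R) {x : ℝ} (hx : 0 < x) :
    0 ≤ p.Nf x (R / 20) := by
  have hq' : (0 : ℝ) < p.q := by exact_mod_cast hq
  have hD' : (0 : ℝ) < p.D := by exact_mod_cast hD
  unfold Nf
  by_cases h1 : x < p.t0
  · have h2 := h.n1 x hx.le h1.le
    have e : ev (p.N1 R) x = (2 * p.q ^ 2 * 242200000 * p.D ^ 2) *
        (x * (x * ev (dl p.E1) x / p.D - (ev p.E1 x / p.D) ^ 2 - 2) +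
          (R / 20 : ℝ) * (1026 / 10000 * x ^ 2 - p.L / 10000 *
            (-((1 + p.q) / 2) * x ^ 3 * (1 - ((1 + p.q) / p.q) ^ 2 * x ^ 2)))
          + p.L * p.P / 1211000) := by
      simp only [N1, ev_add, ev_smul, ev_mul, ev]
      push_cast
      field_simp
      ring
    rw [e] at h2
    have h3 := nonneg_of_mul_nonneg_right h2 (by positivity)
    simp only [ell, elx, kk, if_pos h1]
    exact h3
  · have h1' := not_lt.mp h1
    by_cases h4 : x < 1
    · have h2 := h.n2 x h1' h4.le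
      have e : ev (p.N2 R) x = (242200000 * p.D ^ 2 * x) *
          (x * (x * ev (dl p.E2) x / p.D - (ev p.E2 x / p.D) ^ 2 - 2) +
            (R / 20 : ℝ) * (1026 / 10000 * x ^ 2 - p.L / 10000 * (1 - p.q * (1 / x - 1)))
            + p.L * p.P / 1211000) := by
        simp only [N2, ev_add, ev_smul, ev_mul, ev]
        push_cast
        field_simp
        ring
      rw [e] at h2
      have h3 := nonneg_of_mul_nonneg_right h2 (by positivity)
      simp only [ell, elx, kk, if_neg h1, if_pos h4]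
      exact h3
    · have h4' := not_lt.mp h4
      have hz : 0 ≤ 1 / x := by positivity
      have hz1 : 1 / x ≤ 1 := by rw [div_le_one hx]; exact h4'
      have h2 := h.n3 (1 / x) hz hz1
      have e : ev (p.N3 R) (1 / x) = (100 * 242200000 * p.D ^ 2 / x ^ 2) *
          (x * (-(1 / x) * ev (dl p.E3) (1 / x) / p.D - (ev p.E3 (1 / x) / p.D) ^ 2 - 2) +
            (R / 20 : ℝ) * (1026 / 10000 * x ^ 2 - p.L / 10000 * (p.W / 100))
            + p.L * p.P / 1211000) := by
        simp only [N3, ev_add, ev_smul, ev_mul, ev]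
        generalize ev (dl p.E3) (1 / x) = y1
        generalize ev p.E3 (1 / x) = y2
        push_cast
        field_simp
        ring
      rw [e] at h2
      have h3 := nonneg_of_mul_nonneg_right h2 (by positivity)
      simp only [ell, elx, kk, if_neg h1, if_neg h4]
      exact h3

theorem nf_range {Ra Rb : ℤ} (hq : 0 < p.q) (hD : 0 < p.D) (ha : p.Good Ra) (hb : p.Good Rb)
    {x r : ℝ} (hx : 0 < x) (h1 : (Ra : ℝ) / 20 ≤ r) (h2 : r ≤ (Rb : ℝ) / 20) :
    0 ≤ p.Nf x r := by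
  have e1 := p.nf_nonneg hq hD ha hx
  have e2 := p.nf_nonneg hq hD hb hx
  unfold Nf at e1 e2 ⊢
  rcases le_total 0 (1026 / 10000 * x ^ 2 - p.L / 10000 * p.kk x) with h | h
  · nlinarith [mul_le_mul_of_nonneg_right h1 h]
  · nlinarith [mul_le_mul_of_nonpos_right h2 h]

end Par

end Pool.Agent.H85.HN
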