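import Pool.Agent.H99.HN.Targets

/-!
# Numerical facts on the extremal function `w` used at a contact point

`S = Sf s`, `tc = Mf s`, `τ = tc - S`, `S_x = r S' = r (4π s²)`, `T = 1 - r s'/s`, `J = Jf s`.
The brackets give the true values.
-/

namespace Pool.Agent.H85.HN

open Pool.Agent.H99.HM Pool.Agent.H99.HN
open MeasureTheory Set Filter Topology Real

/-- `S_x = r S'` -/
noncomputable def Sx (s : ℝ → ℝ) (r : ℝ) : ℝ := r * (4 * π * s r ^ 2)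

/-- `4 - 2 T = 2 + 2 r s'/s` -/
noncomputable def dT (s s1 : ℝ → ℝ) (r : ℝ) : ℝ := 2 + 2 * r * s1 r / s r

/-- `D = (3/2) (S_x + (4 - 2T) τ)` -/
noncomputable def Dq (s s1 : ℝ → ℝ) (r : ℝ) : ℝ := 3 / 2 * (Sx s r + dT s s1 r * (Mf s - Sf s r))

/-- `C = (3/2) (S_x - (4 - 2T) S)` -/
noncomputable def Cq (s s1 : ℝ → ℝ) (r : ℝ) : ℝ := 3 / 2 * (Sx s r - dT s s1 r * Sf s r)

/-- (W3) on `[a, b]` with parameter `q`: lower bound for `r p(r)` -/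
def W3 (s s1 : ℝ → ℝ) (q P a b : ℝ) : Prop := ∀ r, a ≤ r → r ≤ b →
  P ≤ Dq s s1 r / (r * Jf s r) - q * (Cq s s1 r / Sf s (r * (q / (1 + q))))

/-- (W4) on `[a, b]`: the weight outside a contact point is at most `w` -/
def W4 (s : ℝ → ℝ) (w a b : ℝ) : Prop := ∀ r, a ≤ r → r ≤ b → ∀ t, r ≤ t →
  3 / 2 * Sx s r / (r ^ 2 * Sf s r) * (2 * t ^ 2 * Jf s t ^ 2 * Sf s t) ≤
    w * Jf s r * (4 * π * s t ^ 2 * (Mf s - Sf s t))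

/-- (W0) `tc` [1.2075] -/
def T_w0 : Prop := ∀ s s1, Ext 0 0 s s1 → 1204 / 1000 ≤ Mf s ∧ Mf s ≤ 1211 / 1000

/-- (W2) no contact for `r ≤ 4.8`: `S_x/S + 2T < 4` [3.972 at 4.8] -/
def T_w2 : Prop := ∀ s s1, Ext 0 0 s s1 → ∀ r, 0 < r → r ≤ 24 / 5 → Cq s s1 r < 0

/-- (W3), `q = 2` [minimal values on the intervals 7.532, 7.27, 7.07, 6.776, 6.483, 6.215, 5.94] -/
def T_w3a : Prop := ∀ s s1, Ext 0 0 s s1 →
  W3 s s1 2 (726 / 100) (24 / 5) (23 / 4) ∧ W3 s s1 2 7 (23 / 4) (33 / 5) ∧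
  W3 s s1 2 (682 / 100) (33 / 5) (37 / 5) ∧ W3 s s1 2 (653 / 100) (37 / 5) 9 ∧
  W3 s s1 2 (625 / 100) 9 (23 / 2) ∧ W3 s s1 2 (595 / 100) (23 / 2) 15 ∧
  W3 s s1 2 (57 / 10) 15 20

/-- (W3), `q = 1`, all `r ≥ 20` [8.4 at 20, increasing] -/
def T_w3b : Prop := ∀ s s1, Ext 0 0 s s1 → ∀ b, W3 s s1 1 (65 / 10) 20 b

/-- (W4) [true weights 1.199, 1.111, 1.042, 0.99] -/
def T_w4 : Prop := ∀ s s1, Ext 0 0 s s1 →
  W4 s (122 / 100) (24 / 5) (23 / 4) ∧ W4 s (113 / 100) (23 / 4) (33 / 5) ∧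
  W4 s (106 / 100) (33 / 5) (37 / 5) ∧ ∀ b, W4 s 1 (37 / 5) b

/-- (W5) `S_x ≤ 3 S` -/
def T_w5 : Prop := ∀ s s1, Ext 0 0 s s1 → ∀ r, 0 < r → Sx s r ≤ 3 * Sf s r

end Pool.Agent.H85.HN
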