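import Pool.Agent.H85.HN.Data
import Pool.Agent.H85.HN.WFacts
import Pool.Agent.H99.HM.Main

/-!
# There is no contact point
-/

namespace Pool.Agent.H85.HN

open Pool.Agent.H99.HM Pool.Agent.H99.HN
open MeasureTheory Set Filter Topology Real

/-- `f / t ^ 3` is decreasing if `t f' ≤ 3 f` -/
theorem cube_anti {f f' : ℝ → ℝ} {b : ℝ} (hd : ∀ t, 0 < t → HasDerivAt f (f' t) t)
    (h3 : ∀ t, 0 < t → t ≤ b → t * f' t ≤ 3 * f t) {t u : ℝ} (ht : 0 < t) (htu : t ≤ u)
    (hub : u ≤ b) : f u * (t / u) ^ 3 ≤ f t := by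
  have hu : 0 < u := ht.trans_le htu
  have hder : ∀ x, 0 < x → HasDerivAt (fun x => f x / x ^ 3)
      ((f' x * x ^ 3 - f x * (3 * x ^ 2)) / (x ^ 3) ^ 2) x := by
    intro x hx
    have h2 : HasDerivAt (fun x : ℝ => x ^ 3) (3 * x ^ 2) x := by
      simpa using hasDerivAt_pow 3 x
    exact (hd x hx).div h2 (by positivity)
  have hanti : AntitoneOn (fun x => f x / x ^ 3) (Icc t u) := by
    refine antitoneOn_of_deriv_nonpos (convex_Icc t u) ?_ ?_ ?_
    · intro x hx
      exact (hder x (ht.trans_le hx.1)).continuousAt.continuousWithinAt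
    · intro x hx
      rw [interior_Icc] at hx
      exact (hder x (ht.trans hx.1)).differentiableAt.differentiableWithinAt
    · intro x hx
      rw [interior_Icc] at hx
      have hx0 : 0 < x := ht.trans hx.1
      rw [(hder x hx0).deriv]
      refine div_nonpos_of_nonpos_of_nonneg ?_ (by positivity)
      have h4 := h3 x hx0 (hx.2.le.trans hub)
      nlinarith [mul_le_mul_of_nonneg_left h4 (sq_nonneg x)]
  have h5 := hanti ⟨le_rfl, htu⟩ ⟨htu, le_rfl⟩ htu
  simp only at h5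
  rw [div_le_div_iff₀ (by positivity) (by positivity)] at h5
  rw [div_pow, ← mul_div_assoc, div_le_iff₀ (by positivity)]
  exact h5

variable {s s1 : ℝ → ℝ}

theorem lam_ii (hF : ExtFacts 0 0 s s1) {t r : ℝ} (ht : 0 < t) (htr : t ≤ r) :
    IntervalIntegrable (fun σ => Sf s σ / σ ^ 2) volume t r := by
  refine ContinuousOn.intervalIntegrable_of_Icc htr ?_
  refine (hF.Scont.mono fun x hx => (ht.trans_le hx.1).le).div (by fun_prop) fun x hx => ?_
  have := ht.trans_le hx.1
  positivity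

theorem lam_ge (hF : ExtFacts 0 0 s s1) {t r : ℝ} (ht : 0 < t) (htr : t ≤ r) :
    Sf s t * (1 / t - 1 / r) ≤ Lam s t r := by
  have hr : 0 < r := ht.trans_le htr
  have e : ∫ σ in t..r, Sf s t / σ ^ 2 = Sf s t * (1 / t - 1 / r) := by
    have hd : ∀ x ∈ uIcc t r, HasDerivAt (fun x => -(Sf s t) / x) (Sf s t / x ^ 2) x := by
      intro x hx
      rw [uIcc_of_le htr] at hx
      have hx0 : 0 < x := ht.trans_le hx.1
      have := (hasDerivAt_inv hx0.ne').const_mul (-(Sf s t))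
      have e2 : Sf s t / x ^ 2 = -(Sf s t) * -(x ^ 2)⁻¹ := by field_simp
      rw [e2]
      exact this
    rw [intervalIntegral.integral_eq_sub_of_hasDerivAt hd]
    · field_simp; ring
    · refine ContinuousOn.intervalIntegrable_of_Icc htr ?_
      refine continuousOn_const.div (by fun_prop) fun x hx => ?_
      have := ht.trans_le hx.1
      positivity
  rw [← e]
  refine intervalIntegral.integral_mono_on htr ?_ (lam_ii hF ht htr) ?_
  · refine ContinuousOn.intervalIntegrable_of_Icc htr ?_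
    refine continuousOn_const.div (by fun_prop) fun x hx => ?_
    have := ht.trans_le hx.1
    positivity
  · intro x hx
    refine div_le_div_of_nonneg_right ?_ (by positivity)
    exact hF.Smono.monotoneOn ht.le (ht.trans_le hx.1).le hx.1

theorem lam_ge2 (hF : ExtFacts 0 0 s s1) (h5 : ∀ r, 0 < r → Sx s r ≤ 3 * Sf s r) {t u : ℝ}
    (ht : 0 < t) (htu : t ≤ u) :
    Sf s u * ((u ^ 2 - t ^ 2) / (2 * u ^ 3)) ≤ Lam s t u := by
  have hu : 0 < u := ht.trans_le htu
  have e : ∫ σ in t..u, Sf s u / u ^ 3 * σ = Sf s u * ((u ^ 2 - t ^ 2) / (2 * u ^ 3)) := by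
    rw [intervalIntegral.integral_const_mul, integral_id]
    field_simp
  rw [← e]
  refine intervalIntegral.integral_mono_on htu ?_ (lam_ii hF ht htu) ?_
  · exact Continuous.intervalIntegrable (by fun_prop) _ _
  · intro x hx
    have hx0 : 0 < x := ht.trans_le hx.1
    have := cube_anti (f := Sf s) (f' := fun t => 4 * π * s t ^ 2) (b := u)
      (fun t ht => hF.Sder t ht) (fun t ht _ => h5 t ht) hx0 hx.2 le_rfl
    rw [le_div_iff₀ (by positivity)]
    refine le_trans (le_of_eq ?_) this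
    field_simp

theorem lam_nonneg (hF : ExtFacts 0 0 s s1) {t r : ℝ} (ht : 0 < t) (htr : t ≤ r) :
    0 ≤ Lam s t r := by
  refine le_trans ?_ (lam_ge hF ht htr)
  have h1 := hF.Spos t ht
  have h2 : 1 / r ≤ 1 / t := one_div_le_one_div_of_le ht htr
  exact mul_nonneg h1.le (by linarith)

theorem lam_add (hF : ExtFacts 0 0 s s1) {t u r : ℝ} (ht : 0 < t) (htu : t ≤ u) (hur : u ≤ r) :
    Lam s t r = Lam s t u + Lam s u r := by
  unfold Lam
  rw [intervalIntegral.integral_add_adjacent_intervals (lam_ii hF ht htu)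
    (lam_ii hF (ht.trans_le htu) hur)]

section sol

variable {ν : Measure ℝ} {h h1 A η : ℝ → ℝ}

theorem h_ge (hH : HSol s ν h h1 A η) {t : ℝ} (ht : 0 ≤ t) : 1 ≤ h t := by
  have := hH.mono (mem_Ici.mpr le_rfl) (mem_Ici.mpr ht) ht
  rw [hH.h0] at this
  exact this

theorem A_eq (hE : Ext 0 0 s s1) (hH : HSol s ν h h1 A η) {r1 : ℝ} (hr1 : 0 < r1)
    (hc : r1 * h1 r1 = 3 * h r1) : A r1 = 3 / 2 * Sx s r1 * (h r1 / r1 ^ 2) := by
  have h1e := hH.eq1 r1 hr1
  have hs := hE.pos r1 hr1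
  have hπ := Real.pi_pos
  rw [h1e] at hc
  unfold Sx
  field_simp at hc ⊢
  linarith

theorem eta_le {r1 : ℝ} (hr1 : 0 < r1)
    (he : 2 * r1 ^ 2 * η r1 ≤ 3 * (-2 - 2 * r1 * s1 r1 / s r1) * h r1) :
    η r1 ≤ -(3 / 2) * dT s s1 r1 * (h r1 / r1 ^ 2) := by
  have e : -(3 / 2) * dT s s1 r1 * (h r1 / r1 ^ 2) =
      (3 * (-2 - 2 * r1 * s1 r1 / s r1) * h r1) / (2 * r1 ^ 2) := by
    unfold dT
    field_simp
    ring
  rw [e, le_div_iff₀ (by positivity)]
  linarith

/-- weight outside the contact point -/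
theorem wt (hE : Ext 0 0 s s1) (hF : ExtFacts 0 0 s s1)
    (hJd : ∀ r, 0 < r → HasDerivAt (Jf s) (-((Mf s - Sf s r) / r ^ 2)) r)
    (hJp : ∀ r, 0 < r → 0 < Jf s r) (hH : HSol s ν h h1 A η) {r1 w : ℝ} (hr1 : 0 < r1)
    (hc : r1 * h1 r1 = 3 * h r1) (hw : 1 ≤ w)
    (hW : ∀ t, r1 ≤ t → 3 / 2 * Sx s r1 / (r1 ^ 2 * Sf s r1) * (2 * t ^ 2 * Jf s t ^ 2 * Sf s t) ≤
      w * Jf s r1 * (4 * π * s t ^ 2 * (Mf s - Sf s t))) {t : ℝ} (ht : r1 ≤ t) :
    Jf s t * h t ≤ w * Jf s r1 * h r1 := by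
  have hh : 0 < h r1 := lt_of_lt_of_le one_pos (h_ge hH hr1.le)
  have hder : ∀ x, 0 < x → HasDerivAt (fun x => w * Jf s r1 * h r1 * (Jf s x)⁻¹ - h x)
      (w * Jf s r1 * h r1 * (-(-((Mf s - Sf s x) / x ^ 2)) / (Jf s x) ^ 2) - h1 x) x := by
    intro x hx
    exact (((hJd x hx).fun_inv (hJp x hx).ne').const_mul _).sub (hH.der x hx)
  have hmono : MonotoneOn (fun x => w * Jf s r1 * h r1 * (Jf s x)⁻¹ - h x) (Ici r1) := by
    refine monotoneOn_of_deriv_nonneg (convex_Ici r1) ?_ ?_ ?_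
    · intro x hx
      exact (hder x (hr1.trans_le hx)).continuousAt.continuousWithinAt
    · intro x hx
      rw [interior_Ici] at hx
      exact (hder x (hr1.trans hx)).differentiableAt.differentiableWithinAt
    · intro x hx
      rw [interior_Ici] at hx
      have hx0 : 0 < x := hr1.trans hx
      rw [(hder x hx0).deriv]
      have hJx := hJp x hx0
      have hsx := hE.pos x hx0
      have hS1 := hF.Spos r1 hr1
      have hSx := hF.Spos x hx0
      have hπ := Real.pi_pos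
      -- bound for h1
      have ha := hH.Aanti (mem_Ioi.mpr hr1) (mem_Ioi.mpr hx0) (mem_Ioi.mp hx).le
      simp only at ha
      rw [A_eq hE hH hr1 hc, div_le_iff₀ hSx] at ha
      have h2 : h1 x ≤ 2 * (3 / 2 * Sx s r1 * (h r1 / r1 ^ 2) / Sf s r1 * Sf s x) /
          (4 * π * s x ^ 2) := by
        rw [hH.eq1 x hx0]
        exact div_le_div_of_nonneg_right (by linarith) (by positivity)
      have h3 := hW x (mem_Ioi.mp hx).le
      have h4 : 2 * (3 / 2 * Sx s r1 * (h r1 / r1 ^ 2) / Sf s r1 * Sf s x) /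
          (4 * π * s x ^ 2) ≤ w * Jf s r1 * h r1 * (-(-((Mf s - Sf s x) / x ^ 2)) / Jf s x ^ 2) := by
        have e1 : 2 * (3 / 2 * Sx s r1 * (h r1 / r1 ^ 2) / Sf s r1 * Sf s x) /
          (4 * π * s x ^ 2) = (3 / 2 * Sx s r1 / (r1 ^ 2 * Sf s r1) *
            (2 * x ^ 2 * Jf s x ^ 2 * Sf s x)) * (h r1 / (x ^ 2 * Jf s x ^ 2 * (4 * π * s x ^ 2))) := by
          field_simp
        have e2 : w * Jf s r1 * h r1 * (-(-((Mf s - Sf s x) / x ^ 2)) / Jf s x ^ 2) =
          (w * Jf s r1 * (4 * π * s x ^ 2 * (Mf s - Sf s x))) *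
            (h r1 / (x ^ 2 * Jf s x ^ 2 * (4 * π * s x ^ 2))) := by
          field_simp
        rw [e1, e2]
        exact mul_le_mul_of_nonneg_right h3 (by positivity)
      linarith
  have h6 := hmono (mem_Ici.mpr le_rfl) (mem_Ici.mpr ht) ht
  simp only at h6
  have hJ1 := hJp r1 hr1
  have hJt := hJp t (hr1.trans_le ht)
  have e3 : w * Jf s r1 * h r1 * (Jf s r1)⁻¹ = w * h r1 := by field_simp
  rw [e3] at h6
  have h7 : h t ≤ w * Jf s r1 * h r1 * (Jf s t)⁻¹ := by nlinarith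
  calc Jf s t * h t ≤ Jf s t * (w * Jf s r1 * h r1 * (Jf s t)⁻¹) :=
        mul_le_mul_of_nonneg_left h7 hJt.le
    _ = w * Jf s r1 * h r1 := by field_simp

/-- integrability of `h` and `Lam h` inside -/
theorem int_in [IsFiniteMeasure ν] (h0 : ν (Iic 0) = 0) (hinv : Integrable (fun r : ℝ => 1 / r) ν)
    (hF : ExtFacts 0 0 s s1)
    (hJd : ∀ r, 0 < r → HasDerivAt (Jf s) (-((Mf s - Sf s r) / r ^ 2)) r)
    (hJp : ∀ r, 0 < r → 0 < Jf s r)
    (hJl : ∀ t r, 0 < t → t ≤ r → Jf s t - Jf s r = Mf s * (1 / t - 1 / r) - Lam s t r)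
    (hH : HSol s ν h h1 A η) {r1 : ℝ} (hr1 : 0 < r1) :
    IntegrableOn h (Iio r1) ν ∧ IntegrableOn (fun t => Lam s t r1 * h t) (Iio r1) ν := by
  have hset : (Iio r1 : Set ℝ) =ᵐ[ν] Ioo 0 r1 := by
    filter_upwards [ae_pos ν h0] with t ht
    have : (t ∈ Iio r1) = (t ∈ Ioo 0 r1) := by simp [ht]
    exact this
  have hm1 : AEStronglyMeasurable h (ν.restrict (Ioo 0 r1)) :=
    (hH.cont.mono fun x hx => hx.1.le).aestronglyMeasurable measurableSet_Ioo
  have hJc : ContinuousOn (Jf s) (Ioi 0) := fun x hx =>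
    (hJd x hx).continuousAt.continuousWithinAt
  have hb : ∀ t ∈ Ioo 0 r1, 0 ≤ h t ∧ h t ≤ h r1 := fun t ht =>
    ⟨zero_le_one.trans (h_ge hH ht.1.le), hH.mono (mem_Ici.mpr ht.1.le) (mem_Ici.mpr hr1.le) ht.2.le⟩
  have h1r : 0 ≤ h r1 := zero_le_one.trans (h_ge hH hr1.le)
  constructor
  · rw [integrableOn_congr_set_ae hset]
    refine Integrable.mono' (integrable_const (h r1)) hm1 ?_
    rw [ae_restrict_iff' measurableSet_Ioo]
    refine Eventually.of_forall fun t ht => ?_
    rw [Real.norm_eq_abs, abs_of_nonneg (hb t ht).1]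
    exact (hb t ht).2
  · rw [integrableOn_congr_set_ae hset]
    have hLm : AEStronglyMeasurable (fun t => Lam s t r1) (ν.restrict (Ioo 0 r1)) := by
      refine ContinuousOn.aestronglyMeasurable ?_ measurableSet_Ioo
      have : ContinuousOn (fun t => Mf s * (1 / t - 1 / r1) - (Jf s t - Jf s r1)) (Ioo 0 r1) := by
        refine ContinuousOn.sub ?_ ((hJc.mono fun x hx => hx.1).sub continuousOn_const)
        refine continuousOn_const.mul (ContinuousOn.sub ?_ continuousOn_const)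
        exact continuousOn_const.div continuousOn_id fun x hx => hx.1.ne'
      refine this.congr fun t ht => ?_
      have := hJl t r1 ht.1 ht.2.le
      linarith
    refine Integrable.mono' ((hinv.const_mul (Mf s * h r1)).restrict (s := Ioo 0 r1))
      (hLm.mul hm1) ?_
    rw [ae_restrict_iff' measurableSet_Ioo]
    refine Eventually.of_forall fun t ht => ?_
    have hL0 := lam_nonneg hF ht.1 ht.2.le
    have hJt := hJl t r1 ht.1 ht.2.le
    have hJa : Jf s r1 ≤ Jf s t := by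
      have hanti : AntitoneOn (Jf s) (Ioi 0) := by
        refine antitoneOn_of_deriv_nonpos (convex_Ioi 0) hJc ?_ ?_
        · intro x hx
          rw [interior_Ioi] at hx
          exact (hJd x hx).differentiableAt.differentiableWithinAt
        · intro x hx
          rw [interior_Ioi] at hx
          rw [(hJd x hx).deriv]
          have := hF.Slt x (mem_Ioi.mp hx).le
          have hx0 := mem_Ioi.mp hx
          have : 0 ≤ (Mf s - Sf s x) / x ^ 2 := by
            refine div_nonneg (by linarith) (by positivity)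
          linarith
      exact hanti (mem_Ioi.mpr ht.1) (mem_Ioi.mpr hr1) ht.2.le
    have hM := hF.mpos
    have h2 : Lam s t r1 ≤ Mf s * (1 / t) := by
      have : 0 < 1 / r1 := by positivity
      nlinarith
    have ht0 : 0 < 1 / t := by have := ht.1; positivity
    rw [Real.norm_eq_abs, abs_of_nonneg (mul_nonneg hL0 (hb t ht).1)]
    calc Lam s t r1 * h t ≤ (Mf s * (1 / t)) * h r1 :=
          mul_le_mul h2 (hb t ht).2 (hb t ht).1 (by positivity)
      _ = Mf s * h r1 * (1 / t) := by ring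

end sol

end Pool.Agent.H85.HN
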