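import Pool.Agent.H85.HN.C2

/-!
# One-dimensional certificates: data
-/

namespace Pool.Agent.H85.HN

open Pool.Agent.H99.HN Pool.Agent.H99.PC
open MeasureTheory Set Filter Topology Real

theorem chkL_use {l : List ℤ} {w a b : ℤ} {r : List ℤ} (hw : 0 < w) (h : chkL l w (a :: r) = true)
    (e : (a :: r).getLast? = some b) (hr : r ≠ []) {x : ℝ} (h1 : (a : ℝ) / w ≤ x)
    (h2 : x ≤ (b : ℝ) / w) : 0 ≤ ev l x := by
  rcases chkL_sound hw r a b h e x h1 h2 with h3 | h3
  · exact h3
  · exact absurd h3 hr

theorem good_of {p : Par} {R : ℤ} (hq : 0 < p.q) (w : ℤ) (hw : 0 < w) (b : ℤ)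
    (hb : b * (1 + p.q) = p.q * w) (l1 l2 l3 : List ℤ)
    (h1 : chkL (p.N1 R) w (0 :: l1) = true) (e1 : (0 :: l1).getLast? = some b) (n1 : l1 ≠ [])
    (h2 : chkL (p.N2 R) w (b :: l2) = true) (e2 : (b :: l2).getLast? = some w) (n2 : l2 ≠ [])
    (h3 : chkL (p.N3 R) w (0 :: l3) = true) (e3 : (0 :: l3).getLast? = some w) (n3 : l3 ≠ []) :
    p.Good R := by
  have hw' : (0 : ℝ) < w := by exact_mod_cast hw
  have hq' : (0 : ℝ) < p.q := by exact_mod_cast hq
  have hb' : (b : ℝ) / w = p.t0 := by
    unfold Par.t0
    rw [div_eq_div_iff hw'.ne' (by positivity)]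
    exact_mod_cast hb
  have hww : (w : ℝ) / w = 1 := div_self hw'.ne'
  constructor
  · intro x hx0 hx1
    exact chkL_use hw h1 e1 n1 (by simpa using hx0) (by rw [hb']; exact hx1)
  · intro x hx0 hx1
    exact chkL_use hw h2 e2 n2 (by rw [hb']; exact hx0) (by rw [hww]; exact hx1)
  · intro x hx0 hx1
    exact chkL_use hw h3 e3 n3 (by simpa using hx0) (by rw [hww]; exact hx1)

/-- certificate on `[24/5, 23/4]` -/
def dat1 : Par where
  q := 2
  D := 9000
  P := 726
  L := 7035
  W := 122
  E1 := [-53314, 101475, -124497, 64503]
  E2 := [-22176, -45360, 94617, -38880]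
  E3 := [18144, -51606, 53640, -37008, 5031]

theorem dat1_ok : dat1.Ok where
  q := by decide
  D := by decide
  L := by decide
  c1 := by norm_num [dat1, Par.t0, ev]
  c2 := by norm_num [dat1, ev]

theorem dat1_a : dat1.Good 96 :=
  good_of (by decide) 12 (by decide) 8 (by decide)
    [8]
    [12]
    [3, 12]
    (by decide +kernel) (by decide) (by decide)
    (by decide +kernel) (by decide) (by decide)
    (by decide +kernel) (by decide) (by decide)

theorem dat1_b : dat1.Good 115 :=
  good_of (by decide) 12 (by decide) 8 (by decide)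
    [8]
    [12]
    [3, 12]
    (by decide +kernel) (by decide) (by decide)
    (by decide +kernel) (by decide) (by decide)
    (by decide +kernel) (by decide) (by decide)

/-- certificate on `[23/4, 33/5]` -/
def dat2 : Par where
  q := 2
  D := 9000
  P := 700
  L := 4186
  W := 113
  E1 := [-42577, 90180, -116496, 61632]
  E2 := [-11295, -52515, 92880, -36945]
  E3 := [21348, -62910, 80064, -62667, 16290]

theorem dat2_ok : dat2.Ok where
  q := by decide
  D := by decide
  L := by decide
  c1 := by norm_num [dat2, Par.t0, ev]
  c2 := by norm_num [dat2, ev]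

theorem dat2_a : dat2.Good 115 :=
  good_of (by decide) 12 (by decide) 8 (by decide)
    [8]
    [12]
    [3, 12]
    (by decide +kernel) (by decide) (by decide)
    (by decide +kernel) (by decide) (by decide)
    (by decide +kernel) (by decide) (by decide)

theorem dat2_b : dat2.Good 132 :=
  good_of (by decide) 12 (by decide) 8 (by decide)
    [8]
    [12]
    [3, 12]
    (by decide +kernel) (by decide) (by decide)
    (by decide +kernel) (by decide) (by decide)
    (by decide +kernel) (by decide) (by decide)

/-- certificate on `[33/5, 37/5]` -/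
def dat3 : Par where
  q := 2
  D := 27000
  P := 682
  L := 3304
  W := 106
  E1 := [-110327, 238743, -311418, 166077]
  E2 := [-18657, -172908, 284391, -110808]
  E3 := [69660, -200745, 262143, -205227, 56187]

theorem dat3_ok : dat3.Ok where
  q := by decide
  D := by decide
  L := by decide
  c1 := by norm_num [dat3, Par.t0, ev]
  c2 := by norm_num [dat3, ev]

theorem dat3_a : dat3.Good 132 :=
  good_of (by decide) 12 (by decide) 8 (by decide)
    [8]
    [12]
    [3, 12]
    (by decide +kernel) (by decide) (by decide)
    (by decide +kernel) (by decide) (by decide)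
    (by decide +kernel) (by decide) (by decide)

theorem dat3_b : dat3.Good 148 :=
  good_of (by decide) 12 (by decide) 8 (by decide)
    [8]
    [12]
    [3, 12]
    (by decide +kernel) (by decide) (by decide)
    (by decide +kernel) (by decide) (by decide)
    (by decide +kernel) (by decide) (by decide)

/-- certificate on `[37/5, 9]` -/
def dat4 : Par where
  q := 2
  D := 27000
  P := 653
  L := 2387
  W := 100
  E1 := [-94189, 220194, -297432, 162621]
  E2 := [621, -195129, 295650, -112509]
  E3 := [75033, -210141, 277236, -211005, 57510]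

theorem dat4_ok : dat4.Ok where
  q := by decide
  D := by decide
  L := by decide
  c1 := by norm_num [dat4, Par.t0, ev]
  c2 := by norm_num [dat4, ev]

theorem dat4_a : dat4.Good 148 :=
  good_of (by decide) 12 (by decide) 8 (by decide)
    [4, 8]
    [12]
    [3, 12]
    (by decide +kernel) (by decide) (by decide)
    (by decide +kernel) (by decide) (by decide)
    (by decide +kernel) (by decide) (by decide)

theorem dat4_b : dat4.Good 180 :=
  good_of (by decide) 12 (by decide) 8 (by decide)
    [4, 8]
    [12]
    [3, 12]
    (by decide +kernel) (by decide) (by decide)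
    (by decide +kernel) (by decide) (by decide)
    (by decide +kernel) (by decide) (by decide)

/-- certificate on `[9, 23/2]` -/
def dat5 : Par where
  q := 2
  D := 27000
  P := 625
  L := 1806
  W := 100
  E1 := [-78658, 190458, -257607, 141291]
  E2 := [22734, -236412, 330858, -123147]
  E3 := [78786, -195156, 229878, -157356, 37881]

theorem dat5_ok : dat5.Ok where
  q := by decide
  D := by decide
  L := by decide
  c1 := by norm_num [dat5, Par.t0, ev]
  c2 := by norm_num [dat5, ev]

theorem dat5_a : dat5.Good 180 :=
  good_of (by decide) 6 (by decide) 4 (by decide)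
    [2, 4]
    [6]
    [3, 6]
    (by decide +kernel) (by decide) (by decide)
    (by decide +kernel) (by decide) (by decide)
    (by decide +kernel) (by decide) (by decide)

theorem dat5_b : dat5.Good 230 :=
  good_of (by decide) 6 (by decide) 4 (by decide)
    [2, 4]
    [6]
    [3, 6]
    (by decide +kernel) (by decide) (by decide)
    (by decide +kernel) (by decide) (by decide)
    (by decide +kernel) (by decide) (by decide)

/-- certificate on `[23/2, 15]` -/
def dat6 : Par where
  q := 2
  D := 27000
  P := 595
  L := 1426
  W := 100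
  E1 := [-66440, 172323, -237951, 131814]
  E2 := [27378, -223020, 306207, -111537]
  E3 := [77193, -149283, 125739, -61317, 6696]

theorem dat6_ok : dat6.Ok where
  q := by decide
  D := by decide
  L := by decide
  c1 := by norm_num [dat6, Par.t0, ev]
  c2 := by norm_num [dat6, ev]

theorem dat6_a : dat6.Good 230 :=
  good_of (by decide) 6 (by decide) 4 (by decide)
    [2, 4]
    [6]
    [3, 6]
    (by decide +kernel) (by decide) (by decide)
    (by decide +kernel) (by decide) (by decide)
    (by decide +kernel) (by decide) (by decide)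

theorem dat6_b : dat6.Good 300 :=
  good_of (by decide) 6 (by decide) 4 (by decide)
    [2, 4]
    [6]
    [3, 6]
    (by decide +kernel) (by decide) (by decide)
    (by decide +kernel) (by decide) (by decide)
    (by decide +kernel) (by decide) (by decide)

/-- certificate on `[15, 20]` -/
def dat7 : Par where
  q := 2
  D := 9000
  P := 570
  L := 1230
  W := 100
  E1 := [-20068, 57963, -84618, 47916]
  E2 := [8190, -65790, 90999, -32436]
  E3 := [23382, -29574, 5076, 7803, -5724]

theorem dat7_ok : dat7.Ok where
  q := by decide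
  D := by decide
  L := by decide
  c1 := by norm_num [dat7, Par.t0, ev]
  c2 := by norm_num [dat7, ev]

theorem dat7_a : dat7.Good 300 :=
  good_of (by decide) 3 (by decide) 2 (by decide)
    [1, 2]
    [3]
    [3]
    (by decide +kernel) (by decide) (by decide)
    (by decide +kernel) (by decide) (by decide)
    (by decide +kernel) (by decide) (by decide)

theorem dat7_b : dat7.Good 400 :=
  good_of (by decide) 3 (by decide) 2 (by decide)
    [1, 2]
    [3]
    [3]
    (by decide +kernel) (by decide) (by decide)
    (by decide +kernel) (by decide) (by decide)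
    (by decide +kernel) (by decide) (by decide)

/-- certificate on `[20, 50]` -/
def dat8 : Par where
  q := 1
  D := 8000
  P := 650
  L := 863
  W := 100
  E1 := [-17953, 63280, -106600, 70240]
  E2 := [-10544, 5512, 19544, -10248]
  E3 := [28208, -53176, 60240, -42864, 11856]

theorem dat8_ok : dat8.Ok where
  q := by decide
  D := by decide
  L := by decide
  c1 := by norm_num [dat8, Par.t0, ev]
  c2 := by norm_num [dat8, ev]

theorem dat8_a : dat8.Good 400 :=
  good_of (by decide) 4 (by decide) 2 (by decide)
    [1, 2]
    [4]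
    [4]
    (by decide +kernel) (by decide) (by decide)
    (by decide +kernel) (by decide) (by decide)
    (by decide +kernel) (by decide) (by decide)

theorem dat8_b : dat8.Good 1000 :=
  good_of (by decide) 4 (by decide) 2 (by decide)
    [1, 2]
    [4]
    [4]
    (by decide +kernel) (by decide) (by decide)
    (by decide +kernel) (by decide) (by decide)
    (by decide +kernel) (by decide) (by decide)

/-- data for `r ≥ 50` -/
def dat9 : Par where
  q := 1
  D := 1
  P := 650
  L := 400
  W := 100
  E1 := []
  E2 := []
  E3 := []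

theorem dat9_ok : dat9.Ok where
  q := by decide
  D := by decide
  L := by decide
  c1 := by norm_num [dat9, Par.t0, ev]
  c2 := by norm_num [dat9, ev]

theorem dat9_nf {r : ℝ} (hr : 50 ≤ r) {x : ℝ} (hx : 0 < x) : 0 ≤ dat9.Nf x r := by
  have e0 : dat9.t0 = 1 / 2 := by norm_num [dat9, Par.t0]
  unfold Par.Nf
  by_cases h1 : x < dat9.t0
  · simp only [Par.elx, Par.ell, Par.kk, if_pos h1]
    rw [e0] at h1
    simp only [dat9, dl, ev]
    push_cast
    have h2 : 0 ≤ x ^ 3 * (1 - 4 * x ^ 2) := by
      have : 0 ≤ 1 - 4 * x ^ 2 := by nlinarith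
      positivity
    nlinarith [sq_nonneg (x - 39 / 200), mul_nonneg (sub_nonneg.mpr hr) h2,
      mul_nonneg (sub_nonneg.mpr hr) (sq_nonneg x)]
  · have h1' := not_lt.mp h1
    rw [e0] at h1'
    by_cases h4 : x < 1
    · simp only [Par.elx, Par.ell, Par.kk, if_neg h1, if_pos h4]
      simp only [dat9, dl, ev]
      push_cast
      have h5 : 0 ≤ x * (1026 / 10000 * x ^ 2 - 400 / 10000 * (1 - 1 * (1 / x - 1))) := by
        have : x * (1026 / 10000 * x ^ 2 - 400 / 10000 * (1 - 1 * (1 / x - 1))) =
          1026 / 10000 * x ^ 3 - 400 / 10000 * (2 * x - 1) := by field_simp; ring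
        rw [this]
        nlinarith [sq_nonneg (x - 3 / 5), mul_nonneg hx.le (sq_nonneg (x - 3 / 5))]
      have h6 : 0 ≤ 1026 / 10000 * x ^ 2 - 400 / 10000 * (1 - 1 * (1 / x - 1)) :=
        nonneg_of_mul_nonneg_right h5 hx
      have h7 := mul_le_mul_of_nonneg_right hr h6
      refine le_trans ?_ (add_le_add (add_le_add le_rfl h7) le_rfl)
      have h8 : 0 ≤ x * (x * (x * 0 / 1 - (0 / 1) ^ 2 - 2) +
          50 * (1026 / 10000 * x ^ 2 - 400 / 10000 * (1 - 1 * (1 / x - 1))) +
          400 * 650 / 1211000) := by
        have : x * (x * (x * 0 / 1 - (0 / 1) ^ 2 - 2) +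
          50 * (1026 / 10000 * x ^ 2 - 400 / 10000 * (1 - 1 * (1 / x - 1))) +
          400 * 650 / 1211000) = -2 * x ^ 2 + 50 * (1026 / 10000 * x ^ 3 - 400 / 10000 * (2 * x - 1))
            + 400 * 650 / 1211000 * x := by field_simp; ring
        rw [this]
        nlinarith [sq_nonneg (x - 13 / 20), mul_nonneg hx.le (sq_nonneg (x - 13 / 20))]
      have h9 := nonneg_of_mul_nonneg_right h8 hx
      convert h9 using 1
    · have h4' := not_lt.mp h4
      simp only [Par.elx, Par.ell, Par.kk, if_neg h1, if_neg h4]
      simp only [dat9, dl, ev]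
      push_cast
      have : 0 ≤ 1026 / 10000 * x ^ 2 - 400 / 10000 := by nlinarith
      nlinarith [mul_le_mul_of_nonneg_right hr this]

end Pool.Agent.H85.HN
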