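import Pool.Agent.H85.HN.Wa

/-!
# Facts on the extremal function: (W1), (W3), (W4)
-/

namespace Pool.Agent.H85.HN.WF

open Pool.Agent.H99.HM Pool.Agent.H99.HN Pool.Agent.H99.PC Pool.Agent.H99.HN.Enc
open MeasureTheory Set Filter Topology Real

variable {s s1 : ℝ → ℝ} {r : ℝ}

/-- structural facts for `r ≥ 20` -/
structure Far (s s1 : ℝ → ℝ) (r : ℝ) : Prop where
  L : 18030 / 10 ^ 4 ≤ Lw s s1 r
  ch : chw s r ≤ 902 / 10 ^ 4
  sg : 2 * Lw s s1 r - 1 / 2 ≤ sgw s r
  om : sgw s r + 1 + 1 / 3 ≤ omw s r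

theorem far (hT : ET) (hC : EC) (hS : ES) (hO : EO) (hE : Ext 0 0 s s1) (h : 20 ≤ r) :
    Far s s1 r := by
  have h4 := enc4 hT hC hS hO hE (r := 20) (by norm_num) le_rfl
  obtain ⟨b1, b2⟩ := at20
  have hY6 := Y6 hE
  have hmono := L_mono hE (a := 6) (by norm_num) hY6
  have hL : ∀ r, 20 ≤ r → 18030 / 10 ^ 4 ≤ Lw s s1 r := by
    intro r hr
    have h1 := hmono (a := 20) (b := r) (by simp; norm_num) (by simp; linarith) hr
    exact (b1.trans h4.la).trans h1
  have hsg : ∀ r, 20 ≤ r → 2 * Lw s s1 r - 1 / 2 ≤ sgw s r := by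
    intro r hr
    refine sg_ge hE (a := 20) (by norm_num) (fun r hr => ⟨?_, ?_⟩) hr
    · have := hL r hr
      norm_num at this ⊢
      linarith
    · exact Lx_ge hE (a := 6) (by norm_num) hY6 (by linarith)
  have hom : ∀ r, 20 ≤ r → sgw s r + 1 + 1 / 3 ≤ omw s r := by
    intro r hr
    refine om_ge hE (a := 20) (by norm_num) (by norm_num) (fun r hr => ?_) hr
    have h1 := hL r hr
    have h2 := hsg r hr
    have h3 : 3 ≤ sgw s r := by norm_num at h1; linarith
    nlinarith
  have hch : AntitoneOn (chw s) (Ici 20) := by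
    refine anti_of_der (fun r hr => dch hE (by linarith)) fun r hr => ?_
    have hr0 : 0 < r := by linarith
    have hc := chw_pos hE hr0
    have h1 := hL r hr
    refine div_nonpos_of_nonpos_of_nonneg (mul_nonpos_of_nonneg_of_nonpos hc.le ?_) hr0.le
    norm_num at h1
    linarith
  refine ⟨hL r h, ?_, hsg r h, hom r h⟩
  have h5 := hch (mem_Ici.mpr le_rfl) (mem_Ici.mpr h) h
  exact h5.trans (h4.cb.trans b2)

theorem B_dec (hT : ET) (hC : EC) (hS : ES) (hO : EO) (hE : Ext 0 0 s s1) :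
    AntitoneOn (Bw s) (Ici (23 / 4)) := by
  refine B_anti hE (by norm_num) fun r hr => ?_
  rcases le_or_gt r 20 with h | h
  · have h4 := enc4 hT hC hS hO hE (r := r) (by linarith) h
    have h5 := k8_num hr h
    linarith [h4.lb, h4.cb, h4.sb, h4.oa]
  · have hf := far hT hC hS hO hE h.le
    have h1 := hf.L
    have h2 := hf.ch
    have h3 := hf.sg
    have h4 := hf.om
    norm_num at h2
    linarith

/-- bound for `B` on `[5/2, 23/4]` -/
theorem B_mid (hT : ET) (hC : EC) (hS : ES) (hO : EO) (hM : EM) (hE : Ext 0 0 s s1)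
    (h1 : 5 / 2 ≤ r) (h2 : r ≤ 23 / 4) : Bw s r ≤ 9135 / 10 ^ 4 := by
  have hr : 0 < r := by linarith
  have h4 := enc4 hT hC hS hO hE (r := r) h1 (by linarith)
  have h5 := b_num h1 h2
  have hc := chw_pos hE hr
  have hs := sgw_pos hE hr
  have ho := om_pos hE hr
  have p1 := cLo_pos h1 (by linarith : r ≤ 20)
  have p2 := sLo_pos h1 (by linarith : r ≤ 20)
  have p3 := oLo_pos h1 (by linarith : r ≤ 20)
  have hm := (hM s s1 hE).2
  unfold Bw
  rw [div_le_iff₀ (by positivity)]
  have e1 : (cf r - 16 / 10 ^ 4) + (sf r - ES' r) ≤ chw s r + sgw s r := add_le_add h4.ca h4.sa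
  have e2 : (of r - EO' r) ^ 2 ≤ omw s r ^ 2 := pow_le_pow_left₀ p3.le h4.oa 2
  have e3 : ((cf r - 16 / 10 ^ 4) + (sf r - ES' r)) * (of r - EO' r) ^ 2 ≤
      (chw s r + sgw s r) * omw s r ^ 2 := mul_le_mul e1 e2 (by positivity) (by positivity)
  have e4 : 2 * r * Mf s ≤ 2 * r * (1209 / 1000) := by gcongr
  have e5 := mul_le_mul_of_nonneg_left e3 (by norm_num : (0 : ℝ) ≤ 9135 / 10 ^ 4)
  linarith

theorem B_all (hT : ET) (hC : EC) (hS : ES) (hO : EO) (hM : EM) (hE : Ext 0 0 s s1)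
    (h1 : 5 / 2 ≤ r) : Bw s r ≤ 9135 / 10 ^ 4 := by
  rcases le_or_gt r (23 / 4) with h | h
  · exact B_mid hT hC hS hO hM hE h1 h
  · have h2 := B_dec hT hC hS hO hE (mem_Ici.mpr le_rfl) (mem_Ici.mpr h.le) h.le
    exact h2.trans (B_mid hT hC hS hO hM hE (by norm_num) le_rfl)

theorem w1 (hT : ET) (hC : EC) (hS : ES) (hO : EO) (hM : EM) : T_w1 := by
  intro s s1 hE
  refine ⟨9135 / 10 ^ 4, by norm_num, by norm_num, fun r hr => ?_⟩
  have e : r * (r * (4 * π * s r ^ 2)) * (Mf s - Sf s r) = r * Xw s r * tw s r := rfl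
  rw [e]
  have hX := Xw_pos hE hr
  have ht := tw_pos hE hr.le
  rcases le_or_gt r (5 / 2) with h | h
  · have h1 := k_small hC hM hE hr h
    have h2 := tau52 hT hC hS hO hM hE
    have hF := Main.facts 0 0 s s1 hE
    have h3 : tw s (5 / 2) ≤ tw s r := by
      unfold tw
      have := hF.Smono.monotoneOn (mem_Ici.mpr hr.le) (mem_Ici.mpr (by norm_num)) h
      linarith
    have hS' := Sf_pos hE hr
    have hc := chw_pos hE hr
    have h4 : 2 * (r ^ 2 * Jf s r) ^ 2 * Sf s r ≤ 8505 / 10 ^ 4 * (r * chw s r) * Sf s r :=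
      mul_le_mul_of_nonneg_right h1 hS'.le
    have h5 : 8505 / 10 ^ 4 * (r * chw s r) * Sf s r = 8505 / 10 ^ 4 * (r * Xw s r) := by
      rw [X_ch hE hr]
      ring
    rw [h5] at h4
    have h6 : 0 < r * Xw s r := by positivity
    have h7 : 943 / 1000 ≤ tw s r := h2.trans h3
    nlinarith [mul_le_mul_of_nonneg_left h7 h6.le]
  · have h1 := B_all hT hC hS hO hM hE h.le
    rw [B_eq hE hr]
    exact mul_le_mul_of_nonneg_right h1 (by positivity)

/-- lower bound of `ω B` on `[24/5, 23/4]` -/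
theorem oB_low (hT : ET) (hC : EC) (hS : ES) (hO : EO) (hM : EM) (hE : Ext 0 0 s s1)
    (h1 : 24 / 5 ≤ r) (h2 : r ≤ 23 / 4) :
    9135 / 10 ^ 4 ≤ 122 / 100 / 3 * (omw s r * Bw s r) := by
  have hr : 0 < r := by linarith
  have h4 := enc4 hT hC hS hO hE (r := r) (by linarith) (by linarith)
  have h5 := k7_num h1 h2
  have hc := chw_pos hE hr
  have hs := sgw_pos hE hr
  have ho := om_pos hE hr
  have hm := (hM s s1 hE).1
  have e : omw s r * Bw s r = 2 * r * Mf s / ((chw s r + sgw s r) * omw s r) := by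
    unfold Bw
    field_simp
  rw [e, ← mul_div_assoc, le_div_iff₀ (by positivity)]
  have e1 : chw s r + sgw s r ≤ (cf r + 16 / 10 ^ 4) + (sf r + ES' r) := add_le_add h4.cb h4.sb
  have e3 : (chw s r + sgw s r) * omw s r ≤
      ((cf r + 16 / 10 ^ 4) + (sf r + ES' r)) * (of r + EO' r) :=
    mul_le_mul e1 h4.ob ho.le (by linarith)
  have e4 : 2 * r * (1206 / 1000) ≤ 2 * r * Mf s := by gcongr
  have e5 := mul_le_mul_of_nonneg_left e3 (by norm_num : (0 : ℝ) ≤ 9135 / 10 ^ 4)
  have e6 := mul_le_mul_of_nonneg_left e4 (by norm_num : (0 : ℝ) ≤ 122 / 100 / 3)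
  linarith

theorem w4 (hT : ET) (hC : EC) (hS : ES) (hO : EO) (hM : EM) : T_w4 := by
  intro s s1 hE
  have hdec := B_dec hT hC hS hO hE
  -- for r ≥ 23/4
  have key : ∀ w r t, 23 / 4 ≤ r → r ≤ t → 3 ≤ w * omw s r → 0 < w →
      3 / 2 * Sx s r / (r ^ 2 * Sf s r) * (2 * t ^ 2 * Jf s t ^ 2 * Sf s t) ≤
      w * Jf s r * (4 * π * s t ^ 2 * (Mf s - Sf s t)) := by
    intro w r t hr hrt hw hw0
    have hr0 : 0 < r := by linarith
    have ht0 : 0 < t := by linarith
    refine w4_of hE hr0 ht0 ?_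
    have h1 := hdec (mem_Ici.mpr hr) (mem_Ici.mpr (hr.trans hrt)) hrt
    have hB := B_pos hE hr0
    nlinarith
  refine ⟨?_, ?_, ?_, ?_⟩
  · intro r h1 h2 t ht
    refine w4_of hE (by linarith) (by linarith) ?_
    exact (B_all hT hC hS hO hM hE (by linarith)).trans (oB_low hT hC hS hO hM hE h1 h2)
  · intro r h1 h2 t ht
    have h4 := enc4 hT hC hS hO hE (r := r) (by linarith) (by linarith)
    have h5 := k9a h1 h2
    refine key _ r t h1 ht ?_ (by norm_num)
    have := h5.trans h4.oa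
    norm_num at this ⊢
    linarith
  · intro r h1 h2 t ht
    have h4 := enc4 hT hC hS hO hE (r := r) (by linarith) (by linarith)
    have h5 := k9b h1 h2
    refine key _ r t (by linarith) ht ?_ (by norm_num)
    have := h5.trans h4.oa
    norm_num at this ⊢
    linarith
  · intro b r h1 _ t ht
    refine key 1 r t (by linarith) ht ?_ one_pos
    rcases le_or_gt r 20 with h | h
    · have h4 := enc4 hT hC hS hO hE (r := r) (by linarith) h
      have h5 := k9c h1 h
      rw [one_mul]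
      exact h5.trans h4.oa
    · have hf := far hT hC hS hO hE h.le
      have h1 := hf.L
      have h3 := hf.sg
      have h4 := hf.om
      norm_num at h1
      linarith

/-- (W3) at one point, `q = 2` -/
theorem w3_pt (hT : ET) (hC : EC) (hS : ES) (hO : EO) (hE : Ext 0 0 s s1) {P : ℤ} (hP : P ≤ 726)
    (h1 : 24 / 5 ≤ r) (h2 : r ≤ 20) (hk : 0 ≤ (kW3 P).ev r) :
    (P : ℝ) / 100 ≤ Dq s s1 r / (r * Jf s r) - 2 * (Cq s s1 r / Sf s (r * (2 / (1 + 2)))) := by
  have hr : 0 < r := by linarith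
  have h4 := enc4 hT hC hS hO hE (r := r) (by linarith) h2
  have hρ1 : 5 / 2 ≤ 2 / 3 * r := by linarith
  have hρ2 : 2 / 3 * r ≤ 20 := by linarith
  have h5 := enc4 hT hC hS hO hE hρ1 hρ2
  have hnum := w3_num hk
  have hoh := oh_num h1 h2
  have p1 := cLo_pos (by linarith : 5 / 2 ≤ r) h2
  have p3 := oLo_pos (by linarith : 5 / 2 ≤ r) h2
  have p4 := hLo_pos (by linarith : 5 / 2 ≤ r) h2
  have p5 := sLo_pos hρ1 hρ2
  have hs := sgw_pos hE hr
  have hP' : (P : ℝ) / 100 ≤ 726 / 100 := by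
    have : (P : ℝ) ≤ 726 := by exact_mod_cast hP
    linarith
  have e : r * (2 / (1 + 2)) = 2 / 3 * r := by ring
  obtain ⟨r1, r2⟩ := ratio_le hE hr (by linarith : 0 < 2 / 3 * r) h4.sb p1 h4.ca p5 h5.sa h5.cb
  have h6 := w3_real (q := 2) (om := omw s r) (H := sgw s r + 2 - 2 * Lw s s1 r)
    (c := chw s r + 2 * Lw s s1 r - 2) (by norm_num) p3 p4 h4.oa
    (by linarith [h4.sa, h4.lb]) (by linarith [h4.cb, h4.lb]) r1
    (by linarith [h4.sb] : 0 < (sf r + ES' r) + (cf r - 16 / 10 ^ 4)) p5 r2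
    (hP'.trans hoh) hnum
  rw [DqJ_eq hE hr, Cq_eq hE hr, e]
  refine h6.trans (le_of_eq ?_)
  ring

theorem w3a (hT : ET) (hC : EC) (hS : ES) (hO : EO) : T_w3a := by
  intro s s1 hE
  refine ⟨?_, ?_, ?_, ?_, ?_, ?_, ?_⟩
  · intro r h1 h2
    have hk := pchkL_sound (by norm_num) _ _ _ 115 ckW31 rfl r (by push_cast; linarith)
      (by push_cast; linarith)
    have := w3_pt hT hC hS hO hE (r := r) (P := 726) le_rfl (by linarith) (by linarith) hk
    push_cast at this
    exact this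
  · intro r h1 h2
    have hk := pchkL_sound (by norm_num) _ _ _ 132 ckW32 rfl r (by push_cast; linarith)
      (by push_cast; linarith)
    have := w3_pt hT hC hS hO hE (r := r) (P := 700) (by norm_num) (by linarith) (by linarith) hk
    push_cast at this
    norm_num at this ⊢
    exact this
  · intro r h1 h2
    have hk := pchkL_sound (by norm_num) _ _ _ 148 ckW33 rfl r (by push_cast; linarith)
      (by push_cast; linarith)
    have := w3_pt hT hC hS hO hE (r := r) (P := 682) (by norm_num) (by linarith) (by linarith) hk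
    push_cast at this
    exact this
  · intro r h1 h2
    have hk := pchkL_sound (by norm_num) _ _ _ 180 ckW34 rfl r (by push_cast; linarith)
      (by push_cast; linarith)
    have := w3_pt hT hC hS hO hE (r := r) (P := 653) (by norm_num) (by linarith) (by linarith) hk
    push_cast at this
    exact this
  · intro r h1 h2
    have hk := pchkL_sound (by norm_num) _ _ _ 230 ckW35 rfl r (by push_cast; linarith)
      (by push_cast; linarith)
    have := w3_pt hT hC hS hO hE (r := r) (P := 625) (by norm_num) (by linarith) (by linarith) hk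
    push_cast at this
    exact this
  · intro r h1 h2
    have hk := pchkL_sound (by norm_num) _ _ _ 300 ckW36 rfl r (by push_cast; linarith)
      (by push_cast; linarith)
    have := w3_pt hT hC hS hO hE (r := r) (P := 595) (by norm_num) (by linarith) (by linarith) hk
    push_cast at this
    exact this
  · intro r h1 h2
    have hk := pchkL_sound (by norm_num) _ _ _ 400 ckW37 rfl r (by push_cast; linarith)
      (by push_cast; linarith)
    have := w3_pt hT hC hS hO hE (r := r) (P := 570) (by norm_num) (by linarith) (by linarith) hk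
    push_cast at this
    norm_num at this ⊢
    exact this

theorem w3b (hT : ET) (hC : EC) (hS : ES) (hO : EO) : T_w3b := by
  intro s s1 hE b r h1 _
  have hr : 0 < r := by linarith
  have hf := far hT hC hS hO hE h1
  have h10 := enc4 hT hC hS hO hE (r := 10) (by norm_num) (by norm_num)
  obtain ⟨b1, b2⟩ := at10
  have hF := Main.facts 0 0 s s1 hE
  have hM := Mf_pos hE
  -- ratio
  have hS10 := Sf_pos hE (r := 10) (by norm_num)
  have hSr := Sf_pos hE hr
  have hρ : 0 < r * (1 / (1 + 1)) := by positivity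
  have hSρ := Sf_pos hE hρ
  have hR : Sf s r / Sf s (r * (1 / (1 + 1))) ≤ 1194 / 1000 := by
    have a1 : Sf s r ≤ Mf s := (hF.Slt r hr.le).le
    have a2 : Sf s 10 ≤ Sf s (r * (1 / (1 + 1))) :=
      hF.Smono.monotoneOn (mem_Ici.mpr (by norm_num)) (mem_Ici.mpr hρ.le) (by linarith)
    have a3 : Mf s ≤ 1194 / 1000 * Sf s 10 := by
      rw [Sf_eq hE (by norm_num : (0 : ℝ) < 10)]
      have hc := chw_pos hE (r := 10) (by norm_num)
      have hs := sgw_pos hE (r := 10) (by norm_num)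
      have hc1 : chw s 10 ≤ 3904 / 10 ^ 4 := h10.cb.trans b1
      have hs1 : 20195 / 10 ^ 4 ≤ sgw s 10 := b2.trans h10.sa
      have a4 : 1 ≤ 1194 / 1000 * (sgw s 10 / (chw s 10 + sgw s 10)) := by
        rw [← mul_div_assoc, one_le_div (by positivity)]
        norm_num at hc1 hs1 ⊢
        linarith
      nlinarith
    rw [div_le_iff₀ hSρ]
    nlinarith
  rw [DqJ_eq hE hr, Cq_eq hE hr]
  set R : ℝ := Sf s r / Sf s (r * (1 / (1 + 1))) with hRdef
  have hR0 : 0 < R := by positivity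
  have e : 3 / 2 * Sf s r * (chw s r + 2 * Lw s s1 r - 2) / Sf s (r * (1 / (1 + 1))) =
      3 / 2 * R * (chw s r + 2 * Lw s s1 r - 2) := by
    rw [hRdef]
    ring
  rw [e]
  have h2 := hf.L
  have h3 := hf.ch
  have h4 := hf.sg
  have h5 := hf.om
  have hch := chw_pos hE hr
  norm_num at h2 h3
  set L := Lw s s1 r with hLdef
  have h6 : 3 / 2 * (2 * L + 5 / 6) * (3 / 2) ≤
      3 / 2 * omw s r * (sgw s r + 2 - 2 * L) := by
    have : 2 * L + 5 / 6 ≤ omw s r := by linarith
    have : 3 / 2 ≤ sgw s r + 2 - 2 * L := by linarith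
    have ho := om_pos hE hr
    nlinarith
  have h7 : R * (chw s r + 2 * L - 2) ≤ 1194 / 1000 * (451 / 5000 + 2 * L - 2) :=
    mul_le_mul hR (by linarith) (by linarith) (by norm_num)
  nlinarith

end Pool.Agent.H85.HN.WF
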