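import Pool.Agent.H85.HN.Final
import Pool.Agent.H85.HN.Wb
import Pool.Agent.H99.HN.EncS
import Pool.Agent.H99.HN.Main

/-!
# No contact point and `sup a J < 1`, without hypotheses on the extremal function
-/

namespace Pool.Agent.H85.HN

open Pool.Agent.H99.HN Pool.Agent.H99.HN.Enc

theorem em' : EM := WF.em et ec es eo

theorem w1' : T_w1 := WF.w1 et ec es eo em'

theorem contact' (hpw : T_pw) (hJ : T_ja) : T_contact :=
  contact hpw hJ (WF.w0 em') (WF.w2 et ec es eo) (WF.w3a et ec es eo) (WF.w3b et ec es eo)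
    (WF.w4 et ec es eo em') WF.w5

theorem theta' (hJ : T_ja) : T_theta := theta hJ w1'

theorem full' : T_full :=
  Pool.Agent.H99.HN.Main.full (WF.w0 em') w1' (WF.w2 et ec es eo) (WF.w3a et ec es eo)
    (WF.w3b et ec es eo) (WF.w4 et ec es eo em') WF.w5

end Pool.Agent.H85.HN
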