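import Pool.Agent.H85.HN.Contact

/-!
# There is no contact point: conclusion
-/

namespace Pool.Agent.H85.HN

open Pool.Agent.H99.HM Pool.Agent.H99.HN
open MeasureTheory Set Filter Topology Real

variable {s s1 : ℝ → ℝ} {ν : Measure ℝ} {κ : ℝ} {h h1 A η : ℝ → ℝ}

/-- the kernel inequality: a lower bound for the integral of the weight -/
theorem core_lower (hE : Ext 0 0 s s1) (hF : ExtFacts 0 0 s s1)
    (hJd : ∀ r, 0 < r → HasDerivAt (Jf s) (-((Mf s - Sf s r) / r ^ 2)) r)
    (hJp : ∀ r, 0 < r → 0 < Jf s r)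
    (hJl : ∀ t r, 0 < t → t ≤ r → Jf s t - Jf s r = Mf s * (1 / t - 1 / r) - Lam s t r)
    (h5 : ∀ r, 0 < r → Sx s r ≤ 3 * Sf s r)
    (hFe : Feas ν (Mf s) κ) (hH : HSol s ν h h1 A η) {r1 : ℝ} (hr1 : 0 < r1)
    (hc : r1 * h1 r1 = 3 * h r1) (hle : ∀ r, 0 < r → r ≤ r1 → r * h1 r ≤ 3 * h r)
    (he : 2 * r1 ^ 2 * η r1 ≤ 3 * (-2 - 2 * r1 * s1 r1 / s r1) * h r1) {p : Par} (ho : p.Ok)
    (hw : 1 ≤ (p.W : ℝ) / 100)
    (hW3 : (p.P : ℝ) / 100 ≤ Dq s s1 r1 / (r1 * Jf s r1) - p.q * (Cq s s1 r1 / Sf s (r1 * p.t0)))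
    (hW4 : ∀ t, r1 ≤ t → 3 / 2 * Sx s r1 / (r1 ^ 2 * Sf s r1) * (2 * t ^ 2 * Jf s t ^ 2 * Sf s t) ≤
      (p.W : ℝ) / 100 * Jf s r1 * (4 * π * s t ^ 2 * (Mf s - Sf s t))) :
    (p.P : ℝ) / 100 / r1 ≤ ∫ t, p.kk (t / r1) ∂ν := by
  have hfin := hFe.fin
  have hq : (0 : ℝ) < p.q := by exact_mod_cast ho.q
  have ht0 := Par.t0_pos ho
  have ht1 := Par.t0_lt ho
  have hJ1 := hJp r1 hr1
  have hh1 : 0 < h r1 := lt_of_lt_of_le one_pos (h_ge hH hr1.le)
  set u : ℝ := r1 * p.t0 with hu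
  have hu0 : 0 < u := by positivity
  have hur : u < r1 := by rw [hu]; nlinarith
  have hS0 := hF.Spos u hu0
  set a : ℝ := h r1 / r1 ^ 2 with ha
  have ha0 : 0 < a := by positivity
  set c : ℝ := p.q * r1 / Sf s u with hcdef
  have hc0 : 0 < c := by positivity
  -- the two identities
  have hA := A_eq hE hH hr1 hc
  have hη := eta_le hr1 he
  have hτ : 0 < Mf s - Sf s r1 := by have := hF.Slt r1 hr1.le; linarith
  have hS1 := hF.Spos r1 hr1
  have hP1 : ∫ t in Iio r1, Lam s t r1 * h t ∂ν ≤ Cq s s1 r1 * a := by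
    rw [hH.P1 r1 hr1, hA]
    have := mul_le_mul_of_nonneg_right hη hS1.le
    unfold Cq
    rw [← ha] at this ⊢
    linarith
  have hP2 : Dq s s1 r1 * a ≤ Jf s r1 * (∫ t in Iio r1, h t ∂ν) + ∫ t in Ici r1, Jf s t * h t ∂ν := by
    rw [hH.P2 r1 hr1, hA]
    have := mul_le_mul_of_nonneg_left hη hτ.le
    unfold Dq
    rw [← ha] at this ⊢
    linarith
  obtain ⟨i1, i2⟩ := int_in hFe.supp hFe.inv hF hJd hJp hJl hH hr1
  have hk := Par.kk_int ho hFe.supp hr1
  -- inner part
  have hin : ∫ t in Iio r1, (h t - c * (Lam s t r1 * h t)) ∂ν ≤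
      ∫ t in Iio r1, h r1 * p.kk (t / r1) ∂ν := by
    refine setIntegral_mono_on_ae (i1.sub (i2.const_mul c)) (hk.const_mul _).integrableOn
      measurableSet_Iio ?_
    filter_upwards [ae_pos ν hFe.supp] with t ht htr
    have htr' : t < r1 := htr
    have hht : 0 ≤ h t := zero_le_one.trans (h_ge hH ht.le)
    have hx1 : t / r1 < 1 := by rw [div_lt_one hr1]; exact htr'
    have hxe : t / r1 < p.t0 ↔ t < u := by rw [div_lt_iff₀ hr1, hu, mul_comm]
    unfold Par.kk
    by_cases hcase : t < u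
    · rw [if_pos (hxe.mpr hcase)]
      have l1 := lam_ge hF hu0 hur.le
      have l2 := lam_ge2 hF h5 ht hcase.le
      have l3 := lam_add hF ht hcase.le hur.le
      have l4 : 1 + (1 + (p.q : ℝ)) / 2 * (1 - ((1 + p.q) / p.q) ^ 2 * (t / r1) ^ 2) ≤
          c * Lam s t r1 := by
        rw [l3]
        have e1 : 1 + (1 + (p.q : ℝ)) / 2 * (1 - ((1 + p.q) / p.q) ^ 2 * (t / r1) ^ 2) =
            c * (Sf s u * ((u ^ 2 - t ^ 2) / (2 * u ^ 3)) + Sf s u * (1 / u - 1 / r1)) := by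
          rw [hcdef]
          have hS0' : Sf s u ≠ 0 := hS0.ne'
          generalize Sf s u = S0 at hS0'
          rw [hu]
          unfold Par.t0
          have : (1 + (p.q : ℝ)) ≠ 0 := by positivity
          field_simp
          ring
        rw [e1]
        exact mul_le_mul_of_nonneg_left (add_le_add l2 l1) hc0.le
      have l5 := cube_anti (f := h) (f' := h1) (b := r1) (fun t ht => hH.der t ht)
        (fun t ht htr => hle t ht htr) ht htr'.le le_rfl
      have l6 : 0 ≤ (1 + (p.q : ℝ)) / 2 * (1 - ((1 + p.q) / p.q) ^ 2 * (t / r1) ^ 2) := by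
        have : ((1 + (p.q : ℝ)) / p.q) ^ 2 * (t / r1) ^ 2 ≤ 1 := by
          rw [← mul_pow]
          refine pow_le_one₀ (by positivity) ?_
          have h7 := (hxe.mpr hcase).le
          unfold Par.t0 at h7
          rw [div_mul_eq_mul_div, div_le_one hq]
          rw [le_div_iff₀ (by positivity)] at h7
          linarith
        have : 0 ≤ 1 - ((1 + (p.q : ℝ)) / p.q) ^ 2 * (t / r1) ^ 2 := by linarith
        positivity
      calc h t - c * (Lam s t r1 * h t) = (1 - c * Lam s t r1) * h t := by ring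
        _ ≤ (-((1 + (p.q : ℝ)) / 2 * (1 - ((1 + p.q) / p.q) ^ 2 * (t / r1) ^ 2))) * h t :=
            mul_le_mul_of_nonneg_right (by linarith) hht
        _ ≤ (-((1 + (p.q : ℝ)) / 2 * (1 - ((1 + p.q) / p.q) ^ 2 * (t / r1) ^ 2))) *
            (h r1 * (t / r1) ^ 3) := mul_le_mul_of_nonpos_left l5 (by linarith)
        _ = h r1 * (-((1 + p.q) / 2) * (t / r1) ^ 3 *
            (1 - ((1 + p.q) / p.q) ^ 2 * (t / r1) ^ 2)) := by ring
    · rw [if_neg (fun hh => hcase (hxe.mp hh)), if_pos hx1]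
      have hcase' := not_lt.mp hcase
      have l1 := lam_ge hF ht htr'.le
      have lS : Sf s u ≤ Sf s t := hF.Smono.monotoneOn hu0.le ht.le hcase'
      have l2 : (0 : ℝ) ≤ 1 / t - 1 / r1 := by
        have := one_div_le_one_div_of_le ht htr'.le
        linarith
      have l3 : p.q * (1 / (t / r1) - 1) ≤ c * Lam s t r1 := by
        have e1 : p.q * (1 / (t / r1) - 1) = c * (Sf s u * (1 / t - 1 / r1)) := by
          rw [hcdef]
          field_simp
        rw [e1]
        exact mul_le_mul_of_nonneg_left ((mul_le_mul_of_nonneg_right lS l2).trans l1) hc0.le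
      have l4 : 0 ≤ 1 - p.q * (1 / (t / r1) - 1) := by
        have h7 : p.t0 ≤ t / r1 := not_lt.mp fun hh => hcase (hxe.mp hh)
        have h8 : 1 / (t / r1) ≤ 1 / p.t0 := one_div_le_one_div_of_le ht0 h7
        have h9 : (p.q : ℝ) * (1 / p.t0 - 1) = 1 := by
          unfold Par.t0
          field_simp
          ring
        nlinarith
      have l5 : h t ≤ h r1 := hH.mono (mem_Ici.mpr ht.le) (mem_Ici.mpr hr1.le) htr'.le
      calc h t - c * (Lam s t r1 * h t) = (1 - c * Lam s t r1) * h t := by ring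
        _ ≤ (1 - p.q * (1 / (t / r1) - 1)) * h t := mul_le_mul_of_nonneg_right (by linarith) hht
        _ ≤ (1 - p.q * (1 / (t / r1) - 1)) * h r1 := mul_le_mul_of_nonneg_left l5 l4
        _ = h r1 * (1 - p.q * (1 / (t / r1) - 1)) := by ring
  -- outer part
  have hout : ∫ t in Ici r1, Jf s t * h t ∂ν ≤
      ∫ t in Ici r1, Jf s r1 * (h r1 * p.kk (t / r1)) ∂ν := by
    refine setIntegral_mono_on hH.intJ.integrableOn ((hk.const_mul _).const_mul _).integrableOn
      measurableSet_Ici ?_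
    intro t ht
    have ht' : r1 ≤ t := ht
    have h7 := wt hE hF hJd hJp hH hr1 hc hw hW4 ht'
    have hx : ¬ t / r1 < 1 := by rw [div_lt_one hr1]; exact not_lt.mpr ht'
    have hx2 : ¬ t / r1 < p.t0 := fun hh => hx (hh.trans ht1)
    unfold Par.kk
    rw [if_neg hx2, if_neg hx]
    linarith
  -- combine
  have hin' : (∫ t in Iio r1, h t ∂ν) - c * ∫ t in Iio r1, Lam s t r1 * h t ∂ν ≤
      h r1 * ∫ t in Iio r1, p.kk (t / r1) ∂ν := by
    rw [integral_sub i1 (i2.const_mul c), integral_const_mul, integral_const_mul] at hin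
    exact hin
  have hout' : ∫ t in Ici r1, Jf s t * h t ∂ν ≤
      Jf s r1 * (h r1 * ∫ t in Ici r1, p.kk (t / r1) ∂ν) := by
    rw [integral_const_mul, integral_const_mul] at hout
    exact hout
  have hsum : (∫ t in Iio r1, p.kk (t / r1) ∂ν) + ∫ t in Ici r1, p.kk (t / r1) ∂ν =
      ∫ t, p.kk (t / r1) ∂ν := by
    have := integral_add_compl (μ := ν) (s := Iio r1) measurableSet_Iio hk
    rw [compl_Iio] at this
    exact this
  have hfinal : a * r1 * Jf s r1 * (p.P / 100) ≤ Jf s r1 * (h r1 * ∫ t, p.kk (t / r1) ∂ν) := by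
    have e1 : a * r1 * Jf s r1 *
        (Dq s s1 r1 / (r1 * Jf s r1) - p.q * (Cq s s1 r1 / Sf s u)) =
        Dq s s1 r1 * a - Jf s r1 * (c * (Cq s s1 r1 * a)) := by
      rw [hcdef]
      field_simp
    have e2 : a * r1 * Jf s r1 * (p.P / 100) ≤ a * r1 * Jf s r1 *
        (Dq s s1 r1 / (r1 * Jf s r1) - p.q * (Cq s s1 r1 / Sf s u)) :=
      mul_le_mul_of_nonneg_left hW3 (by positivity)
    rw [e1] at e2
    have e3 := mul_le_mul_of_nonneg_left hin' hJ1.le
    have e4 : Jf s r1 * (c * ∫ t in Iio r1, Lam s t r1 * h t ∂ν) ≤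
        Jf s r1 * (c * (Cq s s1 r1 * a)) :=
      mul_le_mul_of_nonneg_left (mul_le_mul_of_nonneg_left hP1 hc0.le) hJ1.le
    rw [← hsum]
    nlinarith [e2, e3, e4, hP2, hout']
  have h8 : (Jf s r1 * h r1) * ((p.P : ℝ) / 100 / r1) ≤
      (Jf s r1 * h r1) * ∫ t, p.kk (t / r1) ∂ν := by
    have e : (Jf s r1 * h r1) * ((p.P : ℝ) / 100 / r1) = a * r1 * Jf s r1 * (p.P / 100) := by
      rw [ha]; field_simp
    rw [e]
    linarith
  exact le_of_mul_le_mul_left h8 (by positivity)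

/-- no contact at a radius covered by a certificate -/
theorem core (hpw : T_pw) (hJ : T_ja) (w0 : T_w0) (w5 : T_w5) (hE : Ext 0 0 s s1) (hκ : 1 < κ)
    (hFe : Feas ν (Mf s) κ) (hH : HSol s ν h h1 A η) {r1 : ℝ} (hr1 : 0 < r1)
    (hc : r1 * h1 r1 = 3 * h r1) (hle : ∀ r, 0 < r → r ≤ r1 → r * h1 r ≤ 3 * h r)
    (he : 2 * r1 ^ 2 * η r1 ≤ 3 * (-2 - 2 * r1 * s1 r1 / s r1) * h r1) {p : Par} (ho : p.Ok)
    (hP : 0 ≤ p.P) (hN : ∀ x, 0 < x → 0 ≤ p.Nf x r1) {w P q a b : ℝ} (hw1 : 1 ≤ w)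
    (hwe : w = (p.W : ℝ) / 100) (hPe : P = (p.P : ℝ) / 100) (hqe : q = (p.q : ℝ))
    (h3 : W3 s s1 q P a b) (h4 : W4 s w a b) (har : a ≤ r1) (hrb : r1 ≤ b) : False := by
  have hF := Main.facts 0 0 s s1 hE
  obtain ⟨-, hJd, hJb, -, -, -, -, hJl⟩ := hJ s s1 hE
  obtain ⟨hm1, hm2⟩ := w0 s s1 hE
  subst hwe hPe hqe
  have h3' := h3 r1 har hrb
  have h4' := h4 r1 har hrb
  have e : r1 * ((p.q : ℝ) / (1 + p.q)) = r1 * p.t0 := rfl
  rw [e] at h3'
  have hl := core_lower hE hF hJd (fun r hr => (hJb r hr).1) hJl (w5 s s1 hE) hFe hH hr1 hc hle he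
    ho hw1 h3' h4'
  have hu := c2 hpw hFe hκ hm1 hm2 ho hP hr1 hN
  linarith

theorem contact (hpw : T_pw) (hJ : T_ja) (w0 : T_w0) (w2 : T_w2) (w3a : T_w3a) (w3b : T_w3b)
    (w4 : T_w4) (w5 : T_w5) : T_contact := by
  intro s s1 hE ν κ h h1 A η hκ hFe hH r1 hr1 hc hle he
  have hF := Main.facts 0 0 s s1 hE
  rcases le_or_gt r1 (24 / 5) with hA | hA
  · -- small radii
    have hP1 := hH.P1 r1 hr1
    have hAe := A_eq hE hH hr1 hc
    have hη := eta_le hr1 he
    have hS1 := hF.Spos r1 hr1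
    have hh1 : 0 < h r1 := lt_of_lt_of_le one_pos (h_ge hH hr1.le)
    have hC := w2 s s1 hE r1 hr1 hA
    have ha0 : 0 < h r1 / r1 ^ 2 := by positivity
    have h1' := mul_le_mul_of_nonneg_right hη hS1.le
    have h2' : 0 ≤ ∫ t in Iio r1, Lam s t r1 * h t ∂ν := by
      have : ∀ᵐ t ∂ν, t ∈ Iio r1 → 0 ≤ Lam s t r1 * h t := by
        filter_upwards [ae_pos ν hFe.supp] with t ht htr
        exact mul_nonneg (lam_nonneg hF ht (le_of_lt htr))
          (zero_le_one.trans (h_ge hH ht.le))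
      exact setIntegral_nonneg_ae measurableSet_Iio this
    rw [hP1, hAe] at h2'
    have h3' : Cq s s1 r1 * (h r1 / r1 ^ 2) < 0 := mul_neg_of_neg_of_pos hC ha0
    unfold Cq at h3'
    linarith
  · obtain ⟨a1, a2, a3, a4, a5, a6, a7⟩ := w3a s s1 hE
    obtain ⟨b1, b2, b3, b4⟩ := w4 s s1 hE
    rcases le_or_gt r1 (23 / 4) with hB | hB
    · exact core hpw hJ w0 w5 hE hκ hFe hH hr1 hc hle he dat1_ok (by decide)
        (fun x hx => dat1.nf_range (by decide) (by decide) dat1_a dat1_b hx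
          (by norm_num; linarith) (by norm_num; linarith)) (by norm_num)
        (by norm_num [dat1]) (by norm_num [dat1]) (by norm_num [dat1]) a1 b1 hA.le hB
    rcases le_or_gt r1 (33 / 5) with hB2 | hB2
    · exact core hpw hJ w0 w5 hE hκ hFe hH hr1 hc hle he dat2_ok (by decide)
        (fun x hx => dat2.nf_range (by decide) (by decide) dat2_a dat2_b hx
          (by norm_num; linarith) (by norm_num; linarith)) (by norm_num)
        (by norm_num [dat2]) (by norm_num [dat2]) (by norm_num [dat2]) a2 b2 hB.le hB2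
    rcases le_or_gt r1 (37 / 5) with hB3 | hB3
    · exact core hpw hJ w0 w5 hE hκ hFe hH hr1 hc hle he dat3_ok (by decide)
        (fun x hx => dat3.nf_range (by decide) (by decide) dat3_a dat3_b hx
          (by norm_num; linarith) (by norm_num; linarith)) (by norm_num)
        (by norm_num [dat3]) (by norm_num [dat3]) (by norm_num [dat3]) a3 b3 hB2.le hB3
    rcases le_or_gt r1 9 with hB4 | hB4
    · exact core hpw hJ w0 w5 hE hκ hFe hH hr1 hc hle he dat4_ok (by decide)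
        (fun x hx => dat4.nf_range (by decide) (by decide) dat4_a dat4_b hx
          (by norm_num; linarith) (by norm_num; linarith)) le_rfl
        (by norm_num [dat4]) (by norm_num [dat4]) (by norm_num [dat4]) a4 (b4 9) hB3.le hB4
    rcases le_or_gt r1 (23 / 2) with hB5 | hB5
    · exact core hpw hJ w0 w5 hE hκ hFe hH hr1 hc hle he dat5_ok (by decide)
        (fun x hx => dat5.nf_range (by decide) (by decide) dat5_a dat5_b hx
          (by norm_num; linarith) (by norm_num; linarith)) le_rfl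
        (by norm_num [dat5]) (by norm_num [dat5]) (by norm_num [dat5]) a5
        (fun r h1 h2 => b4 (23 / 2) r (by linarith) h2) hB4.le hB5
    rcases le_or_gt r1 15 with hB6 | hB6
    · exact core hpw hJ w0 w5 hE hκ hFe hH hr1 hc hle he dat6_ok (by decide)
        (fun x hx => dat6.nf_range (by decide) (by decide) dat6_a dat6_b hx
          (by norm_num; linarith) (by norm_num; linarith)) le_rfl
        (by norm_num [dat6]) (by norm_num [dat6]) (by norm_num [dat6]) a6
        (fun r h1 h2 => b4 15 r (by linarith) h2) hB5.le hB6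
    rcases le_or_gt r1 20 with hB7 | hB7
    · exact core hpw hJ w0 w5 hE hκ hFe hH hr1 hc hle he dat7_ok (by decide)
        (fun x hx => dat7.nf_range (by decide) (by decide) dat7_a dat7_b hx
          (by norm_num; linarith) (by norm_num; linarith)) le_rfl
        (by norm_num [dat7]) (by norm_num [dat7]) (by norm_num [dat7]) a7
        (fun r h1 h2 => b4 20 r (by linarith) h2) hB6.le hB7
    rcases le_or_gt r1 50 with hB8 | hB8
    · exact core hpw hJ w0 w5 hE hκ hFe hH hr1 hc hle he dat8_ok (by decide)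
        (fun x hx => dat8.nf_range (by decide) (by decide) dat8_a dat8_b hx
          (by norm_num; linarith) (by norm_num; linarith)) le_rfl
        (by norm_num [dat8]) (by norm_num [dat8]) (by norm_num [dat8]) (w3b s s1 hE r1)
        (fun r h1 h2 => b4 r1 r (by linarith) h2) hB7.le le_rfl
    · exact core hpw hJ w0 w5 hE hκ hFe hH hr1 hc hle he dat9_ok (by decide)
        (fun x hx => dat9_nf hB8.le hx) le_rfl
        (by norm_num [dat9]) (by norm_num [dat9]) (by norm_num [dat9]) (w3b s s1 hE r1)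
        (fun r h1 h2 => b4 r1 r (by linarith) h2) (by linarith) le_rfl

end Pool.Agent.H85.HN
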