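import Pool.Agent.H85.HN.Cert

/-!
# One-dimensional certificates: the flux
-/

namespace Pool.Agent.H85.HN

open Pool.Agent.H99.HN Pool.Agent.H99.PC
open MeasureTheory Set Filter Topology Real

/-- three-piece function -/
noncomputable def tri (a b : ℝ) (f g h : ℝ → ℝ) (x : ℝ) : ℝ :=
  if x < a then f x else if x < b then g x else h x

theorem tri_right {a b : ℝ} (hab : a < b) {f g h f' g' h' : ℝ → ℝ} {x : ℝ}
    (hf : x < a → HasDerivAt f (f' x) x) (hg : a ≤ x → x < b → HasDerivAt g (g' x) x)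
    (hh : b ≤ x → HasDerivAt h (h' x) x) :
    HasDerivWithinAt (tri a b f g h) (tri a b f' g' h' x) (Ici x) x := by
  unfold tri
  by_cases h1 : x < a
  · rw [if_pos h1]
    refine ((hf h1).congr_of_eventuallyEq ?_).hasDerivWithinAt
    filter_upwards [Iio_mem_nhds h1] with y hy
    rw [if_pos (mem_Iio.mp hy)]
  · have h1' := not_lt.mp h1
    rw [if_neg h1]
    by_cases h2 : x < b
    · rw [if_pos h2]
      refine ((hg h1' h2).hasDerivWithinAt (s := Ici x)).congr_of_eventuallyEq ?_ ?_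
      · filter_upwards [self_mem_nhdsWithin, mem_nhdsWithin_of_mem_nhds (Iio_mem_nhds h2)]
          with y hy hy2
        rw [if_neg (not_lt.mpr (h1'.trans (mem_Ici.mp hy))), if_pos (mem_Iio.mp hy2)]
      · rw [if_neg h1, if_pos h2]
    · have h2' := not_lt.mp h2
      rw [if_neg h2]
      refine ((hh h2').hasDerivWithinAt (s := Ici x)).congr_of_eventuallyEq ?_ ?_
      · filter_upwards [self_mem_nhdsWithin] with y hy
        rw [if_neg (not_lt.mpr (h1'.trans (mem_Ici.mp hy))), if_neg (not_lt.mpr (h2'.trans (mem_Ici.mp hy)))]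
      · rw [if_neg h1, if_neg h2]

theorem tri_two {a b : ℝ} (hab : a < b) {f g h f' g' h' : ℝ → ℝ} {x : ℝ} (hxa : x ≠ a)
    (hxb : x ≠ b)
    (hf : x < a → HasDerivAt f (f' x) x) (hg : a ≤ x → x < b → HasDerivAt g (g' x) x)
    (hh : b ≤ x → HasDerivAt h (h' x) x) :
    HasDerivAt (tri a b f g h) (tri a b f' g' h' x) x := by
  unfold tri
  by_cases h1 : x < a
  · rw [if_pos h1]
    refine (hf h1).congr_of_eventuallyEq ?_
    filter_upwards [Iio_mem_nhds h1] with y hy
    rw [if_pos (mem_Iio.mp hy)]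
  · have h1' : a < x := lt_of_le_of_ne (not_lt.mp h1) hxa.symm
    rw [if_neg h1]
    by_cases h2 : x < b
    · rw [if_pos h2]
      refine (hg h1'.le h2).congr_of_eventuallyEq ?_
      filter_upwards [Ioi_mem_nhds h1', Iio_mem_nhds h2] with y hy hy2
      rw [if_neg (not_lt.mpr (le_of_lt (mem_Ioi.mp hy))), if_pos (mem_Iio.mp hy2)]
    · have h2' : b < x := lt_of_le_of_ne (not_lt.mp h2) hxb.symm
      rw [if_neg h2]
      refine (hh h2'.le).congr_of_eventuallyEq ?_
      filter_upwards [Ioi_mem_nhds h1', Ioi_mem_nhds h2'] with y hy hy2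
      rw [if_neg (not_lt.mpr (le_of_lt (mem_Ioi.mp hy))), if_neg (not_lt.mpr (le_of_lt (mem_Ioi.mp hy2)))]

theorem tri_cont {a b : ℝ} (hab : a < b) {f g h : ℝ → ℝ} {x : ℝ}
    (hf : x ≤ a → ContinuousAt f x) (hg : a ≤ x → x ≤ b → ContinuousAt g x)
    (hh : b ≤ x → ContinuousAt h x) (e1 : f a = g a) (e2 : g b = h b) :
    ContinuousAt (tri a b f g h) x := by
  rcases lt_trichotomy x a with h1 | h1 | h1
  · refine (hf h1.le).congr ?_
    filter_upwards [Iio_mem_nhds h1] with y hy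
    unfold tri
    rw [if_pos (mem_Iio.mp hy)]
  · subst h1
    have ef : tri x b f g h x = f x := by
      unfold tri; rw [if_neg (lt_irrefl x), if_pos hab, e1]
    rw [continuousAt_iff_continuous_left_right]
    constructor
    · refine (hf le_rfl).continuousWithinAt.congr ?_ ef
      intro y hy
      unfold tri
      rcases lt_or_eq_of_le (mem_Iic.mp hy) with h3 | h3
      · rw [if_pos h3]
      · subst h3; rw [if_neg (lt_irrefl y), if_pos hab, e1]
    · have hgx : tri x b f g h x = g x := by rw [ef, e1]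
      refine ((hg le_rfl hab.le).continuousWithinAt (s := Ici x)).congr_of_eventuallyEq ?_ hgx
      filter_upwards [self_mem_nhdsWithin, mem_nhdsWithin_of_mem_nhds (Iio_mem_nhds hab)]
        with y hy hy2
      unfold tri
      rw [if_neg (not_lt.mpr (mem_Ici.mp hy)), if_pos (mem_Iio.mp hy2)]
  · rcases lt_trichotomy x b with h2 | h2 | h2
    · refine (hg h1.le h2.le).congr ?_
      filter_upwards [Ioi_mem_nhds h1, Iio_mem_nhds h2] with y hy hy2
      unfold tri
      rw [if_neg (not_lt.mpr (le_of_lt (mem_Ioi.mp hy))), if_pos (mem_Iio.mp hy2)]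
    · subst h2
      have ef : tri a x f g h x = h x := by
        unfold tri; rw [if_neg (not_lt.mpr h1.le), if_neg (lt_irrefl x)]
      rw [continuousAt_iff_continuous_left_right]
      constructor
      · have hgx : tri a x f g h x = g x := by rw [ef, e2]
        refine ((hg h1.le le_rfl).continuousWithinAt (s := Iic x)).congr_of_eventuallyEq ?_ hgx
        filter_upwards [self_mem_nhdsWithin, mem_nhdsWithin_of_mem_nhds (Ioi_mem_nhds h1)]
          with y hy hy2
        unfold tri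
        rcases lt_or_eq_of_le (mem_Iic.mp hy) with h3 | h3
        · rw [if_neg (not_lt.mpr (le_of_lt (mem_Ioi.mp hy2))), if_pos h3]
        · subst h3; rw [if_neg (not_lt.mpr (le_of_lt (mem_Ioi.mp hy2))), if_neg (lt_irrefl y), e2]
      · refine (hh le_rfl).continuousWithinAt.congr ?_ ef
        intro y hy
        unfold tri
        rw [if_neg (not_lt.mpr (h1.le.trans (mem_Ici.mp hy))), if_neg (not_lt.mpr (mem_Ici.mp hy))]
    · refine (hh h2.le).congr ?_
      filter_upwards [Ioi_mem_nhds h1, Ioi_mem_nhds h2] with y hy hy2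
      unfold tri
      rw [if_neg (not_lt.mpr (le_of_lt (mem_Ioi.mp hy))), if_neg (not_lt.mpr (le_of_lt (mem_Ioi.mp hy2)))]

theorem tri_meas {a b : ℝ} {f g h : ℝ → ℝ} (hf : Measurable f) (hg : Measurable g)
    (hh : Measurable h) : Measurable (tri a b f g h) :=
  Measurable.ite measurableSet_Iio hf (Measurable.ite measurableSet_Iio hg hh)

theorem ev_bound (l : List ℤ) : ∃ C : ℝ, 0 ≤ C ∧ ∀ x : ℝ, 0 ≤ x → x ≤ 1 → |ev l x| ≤ C := by
  obtain ⟨C, hC⟩ := (isCompact_Icc (a := (0 : ℝ)) (b := 1)).exists_bound_of_continuousOn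
    (continuous_ev l).continuousOn
  exact ⟨C, (norm_nonneg _).trans (hC 0 ⟨le_rfl, zero_le_one⟩),
    fun x h0 h1 => hC x ⟨h0, h1⟩⟩

namespace Par

variable (p : Par)

/-- conditions on the data -/
structure Ok : Prop where
  q : 0 < p.q
  D : 0 < p.D
  L : 0 < p.L
  c1 : ev p.E1 p.t0 = ev p.E2 p.t0
  c2 : ev p.E2 1 = ev p.E3 1

variable {p}

theorem t0_pos (h : p.Ok) : 0 < p.t0 := by
  have : (0 : ℝ) < p.q := by exact_mod_cast h.q
  unfold t0; positivity

theorem t0_lt (h : p.Ok) : p.t0 < 1 := by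
  have : (0 : ℝ) < p.q := by exact_mod_cast h.q
  unfold t0
  rw [div_lt_one (by positivity)]
  linarith

theorem ell_tri : p.ell = tri p.t0 1 (fun x => ev p.E1 x / p.D) (fun x => ev p.E2 x / p.D)
    (fun x => ev p.E3 (1 / x) / p.D) := rfl

theorem elx_tri : p.elx = tri p.t0 1 (fun x => x * ev (dl p.E1) x / p.D)
    (fun x => x * ev (dl p.E2) x / p.D) (fun x => -(1 / x) * ev (dl p.E3) (1 / x) / p.D) := rfl

theorem ell_bound (h : p.Ok) : ∃ C : ℝ, 0 ≤ C ∧ ∀ x, 0 < x → |p.ell x| ≤ C ∧ |p.elx x| ≤ C := by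
  obtain ⟨C1, n1, h1⟩ := ev_bound p.E1
  obtain ⟨C2, n2, h2⟩ := ev_bound p.E2
  obtain ⟨C3, n3, h3⟩ := ev_bound p.E3
  obtain ⟨C4, n4, h4⟩ := ev_bound (dl p.E1)
  obtain ⟨C5, n5, h5⟩ := ev_bound (dl p.E2)
  obtain ⟨C6, n6, h6⟩ := ev_bound (dl p.E3)
  have hD : (1 : ℝ) ≤ p.D := by exact_mod_cast h.D
  have hD0 : (0 : ℝ) < p.D := by linarith
  refine ⟨C1 + C2 + C3 + C4 + C5 + C6, by positivity, fun x hx => ?_⟩
  have key : ∀ y C : ℝ, |y| ≤ C → |y / p.D| ≤ C := by
    intro y C hy
    rw [abs_div, abs_of_pos hD0, div_le_iff₀ hD0]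
    nlinarith [abs_nonneg y]
  have keyx : ∀ z y C : ℝ, 0 ≤ z → z ≤ 1 → |y| ≤ C → |z * y / p.D| ≤ C := by
    intro z y C hz hz1 hy
    refine key _ _ ?_
    rw [abs_mul, abs_of_nonneg hz]
    nlinarith [abs_nonneg y]
  have ht := t0_lt h
  unfold ell elx
  by_cases a1 : x < p.t0
  · simp only [if_pos a1]
    have hx1 : x ≤ 1 := a1.le.trans ht.le
    exact ⟨(key _ _ (h1 x hx.le hx1)).trans (by linarith),
      (keyx x _ _ hx.le hx1 (h4 x hx.le hx1)).trans (by linarith)⟩
  · by_cases a2 : x < 1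
    · simp only [if_neg a1, if_pos a2]
      exact ⟨(key _ _ (h2 x hx.le a2.le)).trans (by linarith),
        (keyx x _ _ hx.le a2.le (h5 x hx.le a2.le)).trans (by linarith)⟩
    · simp only [if_neg a1, if_neg a2]
      have hz : 0 ≤ 1 / x := by positivity
      have hz1 : 1 / x ≤ 1 := by rw [div_le_one hx]; exact not_lt.mp a2
      refine ⟨(key _ _ (h3 _ hz hz1)).trans (by linarith), ?_⟩
      have := keyx _ _ _ hz hz1 (h6 _ hz hz1)
      rw [neg_mul, neg_div, abs_neg]
      exact this.trans (by linarith)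

theorem ell_cont (h : p.Ok) {x : ℝ} (hx : 0 < x) : ContinuousAt p.ell x := by
  rw [ell_tri]
  refine tri_cont (t0_lt h) (fun _ => ?_) (fun _ _ => ?_) (fun _ => ?_) ?_ ?_
  · exact ((continuous_ev _).div_const _).continuousAt
  · exact ((continuous_ev _).div_const _).continuousAt
  · refine ContinuousAt.div_const ?_ _
    exact (continuous_ev p.E3).continuousAt.comp (continuousAt_const.div continuousAt_id hx.ne')
  · simp only [h.c1]
  · simp only [h.c2]; norm_num

theorem ell_d1 (x : ℝ) (l : List ℤ) (hx : 0 < x) :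
    HasDerivAt (fun x => ev l x / p.D) ((x * ev (dl l) x / p.D) / x) x := by
  have e : (x * ev (dl l) x / p.D) / x = ev (dl l) x / p.D := by field_simp
  rw [e]
  exact (hasDeriv_ev l x).div_const _

theorem ell_d3 (x : ℝ) (l : List ℤ) (hx : 0 < x) :
    HasDerivAt (fun x => ev l (1 / x) / p.D) ((-(1 / x) * ev (dl l) (1 / x) / p.D) / x) x := by
  have h1 : HasDerivAt (fun x : ℝ => 1 / x) (-(1 / x ^ 2)) x := by
    have := hasDerivAt_inv hx.ne'
    simpa [one_div] using this
  have h2 := (HasDerivAt.comp x (hasDeriv_ev l (1 / x)) h1).div_const (p.D : ℝ)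
  have e : (-(1 / x) * ev (dl l) (1 / x) / p.D) / x = ev (dl l) (1 / x) * -(1 / x ^ 2) / p.D := by
    field_simp
  rw [e]
  exact h2

theorem ell_right (h : p.Ok) {x : ℝ} (hx : 0 < x) :
    HasDerivWithinAt p.ell (p.elx x / x) (Ici x) x := by
  have := tri_right (t0_lt h) (f := fun x => ev p.E1 x / p.D) (g := fun x => ev p.E2 x / p.D)
    (h := fun x => ev p.E3 (1 / x) / p.D) (f' := fun x => (x * ev (dl p.E1) x / p.D) / x)
    (g' := fun x => (x * ev (dl p.E2) x / p.D) / x)
    (h' := fun x => (-(1 / x) * ev (dl p.E3) (1 / x) / p.D) / x) (x := x)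
    (fun _ => ell_d1 x _ hx) (fun _ _ => ell_d1 x _ hx) (fun _ => ell_d3 x _ hx)
  rw [ell_tri]
  convert this using 1
  rw [elx_tri]
  unfold tri
  split_ifs <;> rfl

theorem ell_two (h : p.Ok) {x : ℝ} (hx : 0 < x) (h1 : x ≠ p.t0) (h2 : x ≠ 1) :
    HasDerivAt p.ell (p.elx x / x) x := by
  have := tri_two (t0_lt h) (f := fun x => ev p.E1 x / p.D) (g := fun x => ev p.E2 x / p.D)
    (h := fun x => ev p.E3 (1 / x) / p.D) (f' := fun x => (x * ev (dl p.E1) x / p.D) / x)
    (g' := fun x => (x * ev (dl p.E2) x / p.D) / x)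
    (h' := fun x => (-(1 / x) * ev (dl p.E3) (1 / x) / p.D) / x) (x := x) h1 h2
    (fun _ => ell_d1 x _ hx) (fun _ _ => ell_d1 x _ hx) (fun _ => ell_d3 x _ hx)
  rw [ell_tri]
  convert this using 1
  rw [elx_tri]
  unfold tri
  split_ifs <;> rfl

/-- the flux -/
noncomputable def BB (p : Par) (r1 r : ℝ) : ℝ := r ^ 2 * (1 / 2 + p.ell (r / r1))

/-- its derivative -/
noncomputable def BB1 (p : Par) (r1 r : ℝ) : ℝ :=
  r * (1 + 2 * p.ell (r / r1) + p.elx (r / r1))

theorem BB_deriv_aux {r1 r : ℝ} (hr1 : 0 < r1) (hr : 0 < r) :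
    2 * r * (1 / 2 + p.ell (r / r1)) + r ^ 2 * (p.elx (r / r1) / (r / r1) * (1 / r1)) =
      p.BB1 r1 r := by
  unfold BB1
  field_simp

theorem BB_right (h : p.Ok) {r1 r : ℝ} (hr1 : 0 < r1) (hr : 0 < r) :
    HasDerivWithinAt (p.BB r1) (p.BB1 r1 r) (Ici r) r := by
  have hx : 0 < r / r1 := by positivity
  have h1 : HasDerivWithinAt (fun r : ℝ => r / r1) (1 / r1) (Ici r) r :=
    ((hasDerivAt_id r).div_const r1).hasDerivWithinAt
  have h2 : HasDerivWithinAt (fun r => p.ell (r / r1)) (p.elx (r / r1) / (r / r1) * (1 / r1))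
      (Ici r) r := by
    refine HasDerivWithinAt.comp (s' := Ici (r / r1)) r (ell_right h hx) h1 ?_
    intro y hy
    exact div_le_div_of_nonneg_right hy hr1.le
  have h3 : HasDerivWithinAt (fun r : ℝ => r ^ 2) (2 * r) (Ici r) r := by
    have := (hasDerivAt_pow 2 r).hasDerivWithinAt (s := Ici r)
    simpa using this
  have h4 := h3.mul (h2.const_add (1 / 2))
  rw [← BB_deriv_aux hr1 hr]
  exact h4

theorem BB_two (h : p.Ok) {r1 r : ℝ} (hr1 : 0 < r1) (hr : 0 < r) (e1 : r ≠ p.t0 * r1)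
    (e2 : r ≠ r1) : HasDerivAt (p.BB r1) (p.BB1 r1 r) r := by
  have hx : 0 < r / r1 := by positivity
  have h1 : HasDerivAt (fun r : ℝ => r / r1) (1 / r1) r := (hasDerivAt_id r).div_const r1
  have h2 : HasDerivAt (fun r => p.ell (r / r1)) (p.elx (r / r1) / (r / r1) * (1 / r1)) r := by
    refine HasDerivAt.comp r (ell_two h hx ?_ ?_) h1
    · intro hh; rw [div_eq_iff hr1.ne'] at hh; exact e1 hh
    · intro hh; rw [div_eq_iff hr1.ne', one_mul] at hh; exact e2 hh
  have h3 : HasDerivAt (fun r : ℝ => r ^ 2) (2 * r) r := by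
    have := hasDerivAt_pow 2 r
    simpa using this
  have h4 := h3.mul (h2.const_add (1 / 2))
  rw [← BB_deriv_aux hr1 hr]
  exact h4

theorem BB_cont (h : p.Ok) {r1 r : ℝ} (hr1 : 0 < r1) (hr : 0 < r) :
    ContinuousAt (p.BB r1) r := by
  have hx : 0 < r / r1 := by positivity
  unfold BB
  refine (continuousAt_id.pow 2).mul (continuousAt_const.add ?_)
  exact (ell_cont h hx).comp (f := fun r => r / r1) (continuousAt_id.div_const r1)

theorem elx_meas : Measurable p.elx := by
  rw [elx_tri]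
  have m := fun l => (continuous_ev l).measurable
  have hi : Measurable (fun x : ℝ => 1 / x) := measurable_const.div measurable_id
  refine tri_meas ((measurable_id.mul (m _)).div_const _) ((measurable_id.mul (m _)).div_const _) ?_
  exact ((hi.neg).mul ((m _).comp hi)).div_const _

theorem ell_meas : Measurable p.ell := by
  rw [ell_tri]
  have m := fun l => (continuous_ev l).measurable
  have hi : Measurable (fun x : ℝ => 1 / x) := measurable_const.div measurable_id
  exact tri_meas ((m _).div_const _) ((m _).div_const _) (((m _).comp hi).div_const _)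

theorem mult3 : Mult (fun r : ℝ => r ^ 3) (fun r : ℝ => 3 * r ^ 2) where
  pos r hr := by positivity
  nn := by norm_num
  cont := by fun_prop
  cont1 := by fun_prop
  der r hr := by simpa using hasDerivAt_pow 3 r
  zero := by norm_num
  b3 r hr := by
    rw [abs_of_pos (by positivity)]
    exact le_of_eq (by ring)

theorem lflux (h : p.Ok) {r1 : ℝ} (hr1 : 0 < r1) :
    LFlux (fun r : ℝ => r ^ 3) (fun r : ℝ => 3 * r ^ 2) (p.BB r1) (p.BB1 r1) := by
  obtain ⟨C, hC, hb⟩ := ell_bound h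
  have hb1 : ∀ r, 0 < r → |p.ell (r / r1)| ≤ C := fun r hr => (hb _ (by positivity)).1
  have hb2 : ∀ r, 0 < r → |p.elx (r / r1)| ≤ C := fun r hr => (hb _ (by positivity)).2
  have hB1 : ∀ r, 0 < r → |p.BB1 r1 r| ≤ r * (1 + 3 * C) := by
    intro r hr
    unfold BB1
    rw [abs_mul, abs_of_pos hr]
    refine mul_le_mul_of_nonneg_left ?_ hr.le
    have a1 := abs_le.mp (hb1 r hr)
    have a2 := abs_le.mp (hb2 r hr)
    rw [abs_le]
    constructor <;> linarith [a1.1, a1.2, a2.1, a2.2]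
  refine ⟨⟨{p.t0 * r1, r1}, fun r hr hK => ?_⟩, ?_, ⟨2 * (1 + 3 * C), 1, fun a b ha hab hb2a => ?_⟩,
    ⟨1 / 2 + C, 2, fun r hr => ?_⟩, ⟨(C + 2) ^ 2, 1, fun r hr => ?_⟩⟩
  · simp only [Finset.mem_insert, Finset.mem_singleton, not_or] at hK
    exact BB_two h hr1 hr hK.1 hK.2
  · unfold BB1
    have m1 : Measurable (fun r : ℝ => r / r1) := measurable_id.div_const _
    exact measurable_id.mul (((measurable_const).add
      ((ell_meas.comp m1).const_mul 2)).add (elx_meas.comp m1))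
  · have hcont : ContinuousOn (p.BB r1) (Icc a b) := fun y hy =>
      (BB_cont h hr1 (ha.trans_le hy.1)).continuousWithinAt
    have := norm_image_sub_le_of_norm_deriv_right_le_segment hcont
      (fun y hy => BB_right h hr1 (ha.trans_le hy.1))
      (C := b * (1 + 3 * C)) (fun y hy => by
        rw [Real.norm_eq_abs]
        refine (hB1 y (ha.trans_le hy.1)).trans ?_
        exact mul_le_mul_of_nonneg_right hy.2.le (by positivity)) b ⟨hab, le_rfl⟩
    rw [Real.norm_eq_abs] at this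
    refine this.trans ?_
    refine mul_le_mul_of_nonneg_right ?_ (by linarith)
    have : 0 ≤ 1 / a := by positivity
    rw [pow_one]
    nlinarith [mul_nonneg (by positivity : (0:ℝ) ≤ 1 + 3 * C) this,
      mul_nonneg (by positivity : (0:ℝ) ≤ 1 + 3 * C) (sub_nonneg.mpr hb2a)]
  · unfold BB
    rw [abs_mul, abs_of_pos (by positivity : (0:ℝ) < r ^ 2)]
    have a1 := abs_le.mp (hb1 r hr)
    have a2 : |1 / 2 + p.ell (r / r1)| ≤ 1 / 2 + C := by
      rw [abs_le]; constructor <;> linarith [a1.1, a1.2]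
    nlinarith [sq_nonneg r, abs_nonneg (1 / 2 + p.ell (r / r1))]
  · have e : (p.BB r1 r + 3 * r ^ 2 / 2) ^ 2 / r ^ 3 = r * (p.ell (r / r1) + 2) ^ 2 := by
      unfold BB
      field_simp
      ring
    have a1 := abs_le.mp (hb1 r hr)
    have a2 : (p.ell (r / r1) + 2) ^ 2 ≤ (C + 2) ^ 2 := by
      refine sq_le_sq' ?_ ?_ <;> linarith [a1.1, a1.2]
    simp only
    rw [e, abs_of_nonneg (by positivity), pow_one]
    have : 0 ≤ 1 / r := by positivity
    nlinarith [mul_nonneg hr.le (sub_nonneg.mpr a2), mul_nonneg (sq_nonneg (C + 2)) this]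

end Par

end Pool.Agent.H85.HN
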