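import Pool.Agent.H85.HN.Psd
import Pool.Agent.H99.HN.Targets

/-!
# The kernel inequality: `Dh (r^3) ≥ g₁ tc ∫ r²`
-/

namespace Pool.Agent.H85.HN

open Pool.Agent.H99.HN
open MeasureTheory Set Filter Topology Real

theorem cub_end (A C h x : ℝ) (hx : 0 ≤ x) (hxh : x ≤ h) (hC : 3 * h ≤ 2 * C)
    (hp : 0 ≤ A - C * h ^ 2 + h ^ 3) : 0 ≤ A - C * x ^ 2 + x ^ 3 := by
  have e : A - C * x ^ 2 + x ^ 3 = (A - C * h ^ 2 + h ^ 3) +
      (h - x) * (C * (x + h) - (x ^ 2 + x * h + h ^ 2)) := by ring
  have h1 : 0 ≤ C * (x + h) - (x ^ 2 + x * h + h ^ 2) := by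
    nlinarith [mul_nonneg hx (sub_nonneg.mpr hxh), mul_nonneg (hx.trans hxh) (sub_nonneg.mpr hxh),
      mul_nonneg (add_nonneg hx (hx.trans hxh)) (sub_nonneg.mpr hC)]
  rw [e]
  exact add_nonneg hp (mul_nonneg (sub_nonneg.mpr hxh) h1)

theorem cub_int (A C x0 x : ℝ) (hx : 0 ≤ x) (h0 : 0 ≤ x0) (hC : 2 * C ≤ 3 * x0)
    (hp : 0 ≤ A - x0 ^ 3 / 2) : 0 ≤ A - C * x ^ 2 + x ^ 3 := by
  have e : A - C * x ^ 2 + x ^ 3 = (A - x0 ^ 3 / 2) + (x - x0) ^ 2 * (x + x0 / 2)
      + (3 * x0 / 2 - C) * x ^ 2 := by ring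
  have h1 : 0 ≤ (x - x0) ^ 2 * (x + x0 / 2) := by positivity
  have h2 : 0 ≤ (3 * x0 / 2 - C) * x ^ 2 := mul_nonneg (by linarith) (sq_nonneg x)
  rw [e]
  exact add_nonneg (add_nonneg hp h1) h2

/-- scaling factors -/
noncomputable def cc : Fin 6 → ℝ := ![1, 10/13, 100/169, 1000/2197, 10000/28561, 100000/371293]

/-- weights -/
noncomputable def gg : Fin 6 → ℝ := ![1149/2000, -2699/2500, -261/5000, 1177/2500, 2609/2500, -9571/10000]

theorem cc0 : cc 0 = 1 := rfl
theorem cc1 : cc 1 = 10/13 := rfl
theorem cc2 : cc 2 = 100/169 := rfl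
theorem cc3 : cc 3 = 1000/2197 := rfl
theorem cc4 : cc 4 = 10000/28561 := rfl
theorem cc5 : cc 5 = 100000/371293 := rfl
theorem gg0 : gg 0 = 1149/2000 := rfl
theorem gg1 : gg 1 = -2699/2500 := rfl
theorem gg2 : gg 2 = -261/5000 := rfl
theorem gg3 : gg 3 = 1177/2500 := rfl
theorem gg4 : gg 4 = 2609/2500 := rfl
theorem gg5 : gg 5 = -9571/10000 := rfl

theorem cc_nn : ∀ i, 0 ≤ cc i := by
  intro i
  fin_cases i <;> simp [cc] <;> norm_num

/-- the double sum for `r = x t`, `0 ≤ x ≤ 1`, `0 ≤ t` -/
theorem dsum (x t : ℝ) (hx : 0 ≤ x) (hx1 : x ≤ 1) (ht : 0 ≤ t) :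
    ∑ i, ∑ j, gg i * gg j * min (x * t * cc i) (t * cc j) ^ 2 =
      t ^ 2 * ((2535000655173977/3262922884000000) * x ^ 2 + (-2513035421421831/4078653605000000) * min x (10/13) ^ 2 + (-21391038468681/48268090000000) * min x (100/169) ^ 2 + (-54080506067/142805000000) * min x (1000/2197) ^ 2 + (1023260809/845000000) * min x (10000/28561) ^ 2 + (-10997079/20000000) * min x (100000/371293) ^ 2) := by
  have hxt : 0 ≤ x * t := mul_nonneg hx ht
  have hxt1 : x * t ≤ t := by nlinarith
  have e00 : min (x * t * 1) (t * 1) = t * ((1) * x) := by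
    rw [min_eq_left (by linarith)]; ring
  have e01 : min (x * t * 1) (t * (10/13)) = t * ((1) * min x (10/13)) := by
    rw [mul_min_of_nonneg _ _ (by norm_num : (0:ℝ) ≤ (1)), mul_min_of_nonneg _ _ ht]
    congr 1 <;> ring
  have e02 : min (x * t * 1) (t * (100/169)) = t * ((1) * min x (100/169)) := by
    rw [mul_min_of_nonneg _ _ (by norm_num : (0:ℝ) ≤ (1)), mul_min_of_nonneg _ _ ht]
    congr 1 <;> ring
  have e03 : min (x * t * 1) (t * (1000/2197)) = t * ((1) * min x (1000/2197)) := by
    rw [mul_min_of_nonneg _ _ (by norm_num : (0:ℝ) ≤ (1)), mul_min_of_nonneg _ _ ht]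
    congr 1 <;> ring
  have e04 : min (x * t * 1) (t * (10000/28561)) = t * ((1) * min x (10000/28561)) := by
    rw [mul_min_of_nonneg _ _ (by norm_num : (0:ℝ) ≤ (1)), mul_min_of_nonneg _ _ ht]
    congr 1 <;> ring
  have e05 : min (x * t * 1) (t * (100000/371293)) = t * ((1) * min x (100000/371293)) := by
    rw [mul_min_of_nonneg _ _ (by norm_num : (0:ℝ) ≤ (1)), mul_min_of_nonneg _ _ ht]
    congr 1 <;> ring
  have e10 : min (x * t * (10/13)) (t * 1) = t * ((10/13) * x) := by
    rw [min_eq_left (by linarith)]; ring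
  have e11 : min (x * t * (10/13)) (t * (10/13)) = t * ((10/13) * x) := by
    rw [min_eq_left (by linarith)]; ring
  have e12 : min (x * t * (10/13)) (t * (100/169)) = t * ((10/13) * min x (10/13)) := by
    rw [mul_min_of_nonneg _ _ (by norm_num : (0:ℝ) ≤ (10/13)), mul_min_of_nonneg _ _ ht]
    congr 1 <;> ring
  have e13 : min (x * t * (10/13)) (t * (1000/2197)) = t * ((10/13) * min x (100/169)) := by
    rw [mul_min_of_nonneg _ _ (by norm_num : (0:ℝ) ≤ (10/13)), mul_min_of_nonneg _ _ ht]
    congr 1 <;> ring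
  have e14 : min (x * t * (10/13)) (t * (10000/28561)) = t * ((10/13) * min x (1000/2197)) := by
    rw [mul_min_of_nonneg _ _ (by norm_num : (0:ℝ) ≤ (10/13)), mul_min_of_nonneg _ _ ht]
    congr 1 <;> ring
  have e15 : min (x * t * (10/13)) (t * (100000/371293)) = t * ((10/13) * min x (10000/28561)) := by
    rw [mul_min_of_nonneg _ _ (by norm_num : (0:ℝ) ≤ (10/13)), mul_min_of_nonneg _ _ ht]
    congr 1 <;> ring
  have e20 : min (x * t * (100/169)) (t * 1) = t * ((100/169) * x) := by
    rw [min_eq_left (by linarith)]; ring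
  have e21 : min (x * t * (100/169)) (t * (10/13)) = t * ((100/169) * x) := by
    rw [min_eq_left (by linarith)]; ring
  have e22 : min (x * t * (100/169)) (t * (100/169)) = t * ((100/169) * x) := by
    rw [min_eq_left (by linarith)]; ring
  have e23 : min (x * t * (100/169)) (t * (1000/2197)) = t * ((100/169) * min x (10/13)) := by
    rw [mul_min_of_nonneg _ _ (by norm_num : (0:ℝ) ≤ (100/169)), mul_min_of_nonneg _ _ ht]
    congr 1 <;> ring
  have e24 : min (x * t * (100/169)) (t * (10000/28561)) = t * ((100/169) * min x (100/169)) := by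
    rw [mul_min_of_nonneg _ _ (by norm_num : (0:ℝ) ≤ (100/169)), mul_min_of_nonneg _ _ ht]
    congr 1 <;> ring
  have e25 : min (x * t * (100/169)) (t * (100000/371293)) = t * ((100/169) * min x (1000/2197)) := by
    rw [mul_min_of_nonneg _ _ (by norm_num : (0:ℝ) ≤ (100/169)), mul_min_of_nonneg _ _ ht]
    congr 1 <;> ring
  have e30 : min (x * t * (1000/2197)) (t * 1) = t * ((1000/2197) * x) := by
    rw [min_eq_left (by linarith)]; ring
  have e31 : min (x * t * (1000/2197)) (t * (10/13)) = t * ((1000/2197) * x) := by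
    rw [min_eq_left (by linarith)]; ring
  have e32 : min (x * t * (1000/2197)) (t * (100/169)) = t * ((1000/2197) * x) := by
    rw [min_eq_left (by linarith)]; ring
  have e33 : min (x * t * (1000/2197)) (t * (1000/2197)) = t * ((1000/2197) * x) := by
    rw [min_eq_left (by linarith)]; ring
  have e34 : min (x * t * (1000/2197)) (t * (10000/28561)) = t * ((1000/2197) * min x (10/13)) := by
    rw [mul_min_of_nonneg _ _ (by norm_num : (0:ℝ) ≤ (1000/2197)), mul_min_of_nonneg _ _ ht]
    congr 1 <;> ring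
  have e35 : min (x * t * (1000/2197)) (t * (100000/371293)) = t * ((1000/2197) * min x (100/169)) := by
    rw [mul_min_of_nonneg _ _ (by norm_num : (0:ℝ) ≤ (1000/2197)), mul_min_of_nonneg _ _ ht]
    congr 1 <;> ring
  have e40 : min (x * t * (10000/28561)) (t * 1) = t * ((10000/28561) * x) := by
    rw [min_eq_left (by linarith)]; ring
  have e41 : min (x * t * (10000/28561)) (t * (10/13)) = t * ((10000/28561) * x) := by
    rw [min_eq_left (by linarith)]; ring
  have e42 : min (x * t * (10000/28561)) (t * (100/169)) = t * ((10000/28561) * x) := by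
    rw [min_eq_left (by linarith)]; ring
  have e43 : min (x * t * (10000/28561)) (t * (1000/2197)) = t * ((10000/28561) * x) := by
    rw [min_eq_left (by linarith)]; ring
  have e44 : min (x * t * (10000/28561)) (t * (10000/28561)) = t * ((10000/28561) * x) := by
    rw [min_eq_left (by linarith)]; ring
  have e45 : min (x * t * (10000/28561)) (t * (100000/371293)) = t * ((10000/28561) * min x (10/13)) := by
    rw [mul_min_of_nonneg _ _ (by norm_num : (0:ℝ) ≤ (10000/28561)), mul_min_of_nonneg _ _ ht]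
    congr 1 <;> ring
  have e50 : min (x * t * (100000/371293)) (t * 1) = t * ((100000/371293) * x) := by
    rw [min_eq_left (by linarith)]; ring
  have e51 : min (x * t * (100000/371293)) (t * (10/13)) = t * ((100000/371293) * x) := by
    rw [min_eq_left (by linarith)]; ring
  have e52 : min (x * t * (100000/371293)) (t * (100/169)) = t * ((100000/371293) * x) := by
    rw [min_eq_left (by linarith)]; ring
  have e53 : min (x * t * (100000/371293)) (t * (1000/2197)) = t * ((100000/371293) * x) := by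
    rw [min_eq_left (by linarith)]; ring
  have e54 : min (x * t * (100000/371293)) (t * (10000/28561)) = t * ((100000/371293) * x) := by
    rw [min_eq_left (by linarith)]; ring
  have e55 : min (x * t * (100000/371293)) (t * (100000/371293)) = t * ((100000/371293) * x) := by
    rw [min_eq_left (by linarith)]; ring
  simp only [Fin.sum_univ_six, cc0, cc1, cc2, cc3, cc4, cc5, gg0, gg1, gg2, gg3, gg4, gg5,
    e00, e01, e02, e03, e04, e05, e10, e11, e12, e13, e14, e15, e20, e21, e22, e23, e24, e25, e30, e31, e32, e33, e34, e35, e40, e41, e42, e43, e44, e45, e50, e51, e52, e53, e54, e55]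
  ring

theorem poly_ineq (x : ℝ) (hx : 0 < x) (hx1 : x ≤ 1) :
    4579 / 5000 * (1 + x ^ 2) + 1 / 2 * ((2535000655173977/3262922884000000) * x ^ 2 + (-2513035421421831/4078653605000000) * min x (10/13) ^ 2 + (-21391038468681/48268090000000) * min x (100/169) ^ 2 + (-54080506067/142805000000) * min x (1000/2197) ^ 2 + (1023260809/845000000) * min x (10000/28561) ^ 2 + (-10997079/20000000) * min x (100000/371293) ^ 2) ≤ 1 + x ^ 3 := by
  rcases le_total (10/13) x with h1 | h1
  · rw [min_eq_right (show (10/13) ≤ x by linarith)]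
    rw [min_eq_right (show (100/169) ≤ x by linarith)]
    rw [min_eq_right (show (1000/2197) ≤ x by linarith)]
    rw [min_eq_right (show (10000/28561) ≤ x by linarith)]
    rw [min_eq_right (show (100000/371293) ≤ x by linarith)]
    have := cub_int (4535827072894461/13785849184900000) (8511370209508377/6525845768000000) (86951/100000) x hx.le (by norm_num) (by norm_num) (by norm_num)
    linarith
  rcases le_total (100/169) x with h2 | h2
  · rw [min_eq_left (show x ≤ (10/13) by linarith)]
    rw [min_eq_right (show (100/169) ≤ x by linarith)]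
    rw [min_eq_right (show (1000/2197) ≤ x by linarith)]
    rw [min_eq_right (show (10000/28561) ≤ x by linarith)]
    rw [min_eq_right (show (100000/371293) ≤ x by linarith)]
    have := cub_int (202279165147263/1378584918490000) (192335558354169/193072360000000) (66413/100000) x hx.le (by norm_num) (by norm_num) (by norm_num)
    linarith
  rcases le_total (1000/2197) x with h3 | h3
  · rw [min_eq_left (show x ≤ (10/13) by linarith)]
    rw [min_eq_left (show x ≤ (100/169) by linarith)]
    rw [min_eq_right (show (1000/2197) ≤ x by linarith)]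
    rw [min_eq_right (show (10000/28561) ≤ x by linarith)]
    rw [min_eq_right (show (100000/371293) ≤ x by linarith)]
    have := cub_int (47661986401929/689292459245000) (884931842703/1142440000000) (1291/2500) x hx.le (by norm_num) (by norm_num) (by norm_num)
    linarith
  rcases le_total (10000/28561) x with h4 | h4
  · rw [min_eq_left (show x ≤ (10/13) by linarith)]
    rw [min_eq_left (show x ≤ (100/169) by linarith)]
    rw [min_eq_left (show x ≤ (1000/2197) by linarith)]
    rw [min_eq_right (show (10000/28561) ≤ x by linarith)]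
    rw [min_eq_right (show (100000/371293) ≤ x by linarith)]
    have := cub_int (20621733368429/689292459245000) (791254223/1352000000) (39017/100000) x hx.le (by norm_num) (by norm_num) (by norm_num)
    linarith
  rcases le_total (100000/371293) x with h5 | h5
  · rw [min_eq_left (show x ≤ (10/13) by linarith)]
    rw [min_eq_left (show x ≤ (100/169) by linarith)]
    rw [min_eq_left (show x ≤ (1000/2197) by linarith)]
    rw [min_eq_left (show x ≤ (10000/28561) by linarith)]
    rw [min_eq_right (show (100000/371293) ≤ x by linarith)]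
    have := cub_end (71784773818429/689292459245000) (47629079/40000000) (10000/28561) x hx.le (by linarith) (by norm_num) (by norm_num)
    linarith
  rw [min_eq_left (show x ≤ (10/13) by linarith)]
  rw [min_eq_left (show x ≤ (100/169) by linarith)]
  rw [min_eq_left (show x ≤ (1000/2197) by linarith)]
  rw [min_eq_left (show x ≤ (10000/28561) by linarith)]
  rw [min_eq_left (show x ≤ (100000/371293) by linarith)]
  have := cub_end (1516812354498383/18014398509481984) (4579/5000) (100000/371293) x hx.le (by linarith) (by norm_num) (by norm_num)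
  linarith

/-- pointwise kernel inequality -/
theorem kernel_pt (r t : ℝ) (hr : 0 < r) (ht : 0 < t) :
    4579 / 5000 * (r ^ 2 + t ^ 2) + 1 / 2 * ∑ i, ∑ j, gg i * gg j * min (r * cc i) (t * cc j) ^ 2
      ≤ (r ^ 3 + t ^ 3) / max r t := by
  have key : ∀ r t : ℝ, 0 < r → 0 < t → r ≤ t →
      4579 / 5000 * (r ^ 2 + t ^ 2) + 1 / 2 *
        ∑ i, ∑ j, gg i * gg j * min (r * cc i) (t * cc j) ^ 2 ≤ (r ^ 3 + t ^ 3) / t := by
    intro r t hr ht hrt
    have hx : 0 < r / t := by positivity
    have hx1 : r / t ≤ 1 := by rw [div_le_one ht]; exact hrt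
    have hr' : r = r / t * t := by field_simp
    have h1 := poly_ineq (r / t) hx hx1
    have h2 := dsum (r / t) t hx.le hx1 ht.le
    generalize r / t = x at hx hx1 hr' h1 h2
    subst hr'
    rw [h2]
    have e1 : ((x * t) ^ 3 + t ^ 3) / t = t ^ 2 * (1 + x ^ 3) := by field_simp; ring
    rw [e1]
    have := mul_le_mul_of_nonneg_left h1 (sq_nonneg t)
    refine le_trans (le_of_eq ?_) this
    ring
  rcases le_total r t with h | h
  · rw [max_eq_right h]
    exact key r t hr ht h
  · rw [max_eq_left h]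
    have h3 := key t r ht hr h
    have e : ∑ i, ∑ j, gg i * gg j * min (r * cc i) (t * cc j) ^ 2 =
        ∑ i, ∑ j, gg i * gg j * min (t * cc i) (r * cc j) ^ 2 := by
      rw [Finset.sum_comm]
      refine Finset.sum_congr rfl fun i _ => Finset.sum_congr rfl fun j _ => ?_
      rw [min_comm, mul_comm (gg j)]
    rw [e, add_comm (r ^ 2), add_comm (r ^ 3)]
    exact h3

theorem dh_lower (ν : Measure ℝ) [IsFiniteMeasure ν] (h0 : ν (Iic 0) = 0)
    (h2 : Integrable (fun r : ℝ => r ^ 2) ν) :
    4579 / 5000 * ((ν univ).toReal * ∫ r, r ^ 2 ∂ν) ≤ Dh (fun r => r ^ 3) ν := by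
  set f : ℝ × ℝ → ℝ := fun p => p.1 ^ 3 / max p.1 p.2 with hf
  have hfm : Measurable f := by fun_prop
  have i1 : Integrable (fun p : ℝ × ℝ => p.1 ^ 2) (ν.prod ν) := h2.comp_fst ν
  have i2 : Integrable (fun p : ℝ × ℝ => p.2 ^ 2) (ν.prod ν) := h2.comp_snd ν
  have hfi : Integrable f (ν.prod ν) := by
    refine i1.mono' hfm.aestronglyMeasurable ?_
    filter_upwards [ae_pos2 ν h0] with p hp
    have hm : 0 < max p.1 p.2 := lt_max_of_lt_left hp.1
    have hn : 0 ≤ f p := div_nonneg (pow_nonneg hp.1.le 3) hm.le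
    rw [Real.norm_eq_abs, abs_of_nonneg hn]
    simp only [hf]
    rw [div_le_iff₀ hm]
    have : p.1 ≤ max p.1 p.2 := le_max_left _ _
    nlinarith [sq_nonneg p.1]
  have hD : Dh (fun r => r ^ 3) ν = ∫ p, f p ∂(ν.prod ν) := by
    rw [integral_prod _ hfi]
    rfl
  have hs : ∫ p, f p.swap ∂(ν.prod ν) = ∫ p, f p ∂(ν.prod ν) := integral_prod_swap f
  have hfs : Integrable (fun p => f p.swap) (ν.prod ν) := hfi.swap
  obtain ⟨hKi, hK⟩ := psd ν h0 h2 cc gg cc_nn
  have i3 : Integrable (fun p : ℝ × ℝ => 4579 / 5000 * (p.1 ^ 2 + p.2 ^ 2)) (ν.prod ν) :=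
    (i1.add i2).const_mul _
  have hle : ∫ p, (4579 / 5000 * (p.1 ^ 2 + p.2 ^ 2) +
      1 / 2 * ∑ i, ∑ j, gg i * gg j * min (p.1 * cc i) (p.2 * cc j) ^ 2) ∂(ν.prod ν) ≤
      ∫ p, (f p + f p.swap) ∂(ν.prod ν) := by
    refine integral_mono_ae (i3.add (hKi.const_mul _)) (hfi.add hfs) ?_
    filter_upwards [ae_pos2 ν h0] with p hp
    have := kernel_pt p.1 p.2 hp.1 hp.2
    refine this.trans (le_of_eq ?_)
    simp only [hf, Prod.fst_swap, Prod.snd_swap, max_comm p.2 p.1]
    ring
  rw [integral_add i3 (hKi.const_mul _), integral_add hfi hfs, hs, integral_const_mul,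
    integral_const_mul, integral_add i1 i2] at hle
  have e1 : ∫ p : ℝ × ℝ, p.1 ^ 2 ∂(ν.prod ν) = (ν univ).toReal * ∫ r, r ^ 2 ∂ν := by
    rw [integral_prod _ i1]
    simp only [integral_const, smul_eq_mul]
    rw [integral_const_mul]
    rfl
  have e2 : ∫ p : ℝ × ℝ, p.2 ^ 2 ∂(ν.prod ν) = (ν univ).toReal * ∫ r, r ^ 2 ∂ν := by
    rw [integral_prod _ i2]
    simp only [integral_const, smul_eq_mul]
    rfl
  rw [e1, e2, ← hD] at hle
  linarith

end Pool.Agent.H85.HN
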