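import Pool.Agent.H99.HN.Enc
import Pool.Agent.H99.HN.Theta
import Pool.Agent.H85.HN.WFacts

/-!
# Central polynomials for the extremal function on `[5/2, 20]`
-/

namespace Pool.Agent.H85.HN.WF

open Pool.Agent.H99.HM Pool.Agent.H99.HN Pool.Agent.H99.PC Pool.Agent.H99.HN.Enc
open Pool.Agent.H97.TR (zf p nl n1 ny sl DD Lin Sin Ain phin)
open MeasureTheory Set Filter Topology Real

/-- numerator of `r S'` -/
def xl : List ℤ := smul (2498261861 * 42875 * 360360) (mul (mul [0, 0, 0, 1] [1, -2, 1]) p)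

/-- numerator of `M - S` -/
def ml : List ℤ := add [1207494866 * 10 ^ 8 * 64 * 360360] (smul (-1) sl)

/-- numerator of `r J` -/
def gd : List ℤ := add [1207494866 * 10 ^ 8 * 64 * 360360 * 360360,
  -(4467500806 * 10 ^ 8 * 64 * 360360 * 360360)] gl

section

variable {r : ℝ}

theorem z_v (hr : 0 < r) : r = 35 * zf r / (4 * (1 - zf r)) := by
  have h1 := Pool.Agent.H97.TR.r_eq hr
  have h2 := Pool.Agent.H97.TR.zf_lt_one hr
  have h3 : 0 < 1 - zf r := by linarith
  rw [eq_div_iff (by positivity)]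
  linarith

theorem DDr : (DD : ℝ) = 10 ^ 17 * 64 * 360360 := by
  unfold DD
  push_cast
  ring

theorem rAin_eq (hr : 0 < r) : r * Ain r = ev xl (zf r) / DD := by
  have e := Pool.Agent.H97.TR.r_eq hr
  have e3 : r ^ 3 * (1 - zf r) ^ 3 = (35 / 4 * zf r) ^ 3 := by rw [← e]; ring
  have e5 : r * Ain r = 2498261861 / 10 ^ 17 * (r ^ 3 * (1 - zf r) ^ 3) * (1 - zf r) ^ 2 *
      ev p (zf r) := by
    unfold Ain
    ring
  rw [e5, e3, DDr, xl, ev_smul, ev_mul, ev_mul]
  simp only [ev]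
  push_cast
  ring

theorem Sin_eq : Sin r = ev sl (zf r) / DD := rfl

theorem ml_eq : Mh - Sin r = ev ml (zf r) / DD := by
  rw [Sin_eq, ml, ev_add, ev_smul, DDr]
  unfold Mh
  simp only [ev]
  push_cast
  ring

theorem chh_eq (hr : 0 < r) : chh r = ev xl (zf r) / ev sl (zf r) := by
  unfold chh
  rw [rAin_eq hr, Sin_eq]
  have hD : (DD : ℝ) ≠ 0 := by rw [DDr]; positivity
  rw [div_div_div_cancel_right₀ hD]

theorem sgh_eq (hr : 0 < r) : sgh r = ev xl (zf r) / ev ml (zf r) := by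
  unfold sgh
  rw [rAin_eq hr, ml_eq]
  have hD : (DD : ℝ) ≠ 0 := by rw [DDr]; positivity
  rw [div_div_div_cancel_right₀ hD]

theorem rJh_eq (hr : 0 < r) : r * Jh r = ev gd (zf r) / (360360 * DD * (1 - zf r)) := by
  have hz := Pool.Agent.H97.TR.zf_pos hr
  have hz1 := Pool.Agent.H97.TR.zf_lt_one hr
  have hu : (1 - zf r) ≠ 0 := by linarith
  have hru := z_v hr
  unfold Jh
  rw [gd, ev_add, DDr]
  unfold Mh Pool.Agent.H99.HN.Enc.C1
  generalize zf r = z at *
  generalize ev gl z = g at *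
  simp only [ev]
  push_cast
  rw [hru]
  field_simp
  ring

theorem omh_eq (hr : 0 < r) : omh r = 360360 * (ev ml (zf r) * (1 - zf r)) / ev gd (zf r) := by
  have hz1 := Pool.Agent.H97.TR.zf_lt_one hr
  have hu : (1 - zf r) ≠ 0 := by linarith
  have hD : (DD : ℝ) ≠ 0 := by rw [DDr]; positivity
  unfold omh
  rw [ml_eq, rJh_eq hr]
  by_cases hg : ev gd (zf r) = 0
  · rw [hg]; simp
  · field_simp

end

/-- substitution `r = 35 z / (4 (1 - z))` -/
def rc : List ℤ → List ℤ × List ℤ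
  | [] => ([], [1])
  | c :: l =>
    let t := rc l
    let D := mulL 4 (-4) t.2
    (add (smul c D) (mulL 0 35 t.1), D)

theorem ev_rc {r z : ℝ} (h : r * (1 - z) = 35 / 4 * z) (l : List ℤ) :
    ev (rc l).2 z = (4 * (1 - z)) ^ l.length ∧
    ev (rc l).1 z = (4 * (1 - z)) ^ l.length * ev l r := by
  induction l with
  | nil => simp [rc, ev]
  | cons c l ih =>
    obtain ⟨h1, h2⟩ := ih
    simp only [rc, ev_add, ev_smul, ev_mulL, List.length_cons, pow_succ, ev, h1, h2]
    push_cast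
    constructor
    · ring
    · linear_combination (-4 * (4 * (1 - z)) ^ l.length * ev l r) * h

/-- check of an upper bound for `N / D - l / B` -/
def cP (N D : PE) (l : List ℤ) (B E : ℤ) : PE :=
  .add (.sub (.mul (.C (B * E)) (.mul N (.L (rc l).2))) (.mul (.C E) (.mul D (.L (rc l).1))))
    (.mul (.C B) (.mul D (.L (rc l).2)))

/-- check of a lower bound -/
def cM (N D : PE) (l : List ℤ) (B E : ℤ) : PE :=
  .add (.sub (.mul (.C E) (.mul D (.L (rc l).1))) (.mul (.C (B * E)) (.mul N (.L (rc l).2))))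
    (.mul (.C B) (.mul D (.L (rc l).2)))

theorem cen_of {N D : PE} {l : List ℤ} {B E : ℤ} (hB : 0 < B) (hE : 0 < E) {r z : ℝ}
    (hz : z < 1) (hr : r * (1 - z) = 35 / 4 * z) (hD : 0 < D.ev z)
    (h1 : 0 ≤ (cP N D l B E).ev z) (h2 : 0 ≤ (cM N D l B E).ev z) :
    |N.ev z / D.ev z - ev l r / B| ≤ 1 / E := by
  have hB' : (0 : ℝ) < B := by exact_mod_cast hB
  have hE' : (0 : ℝ) < E := by exact_mod_cast hE
  have hW : 0 < (4 * (1 - z)) ^ l.length := by
    have : 0 < 1 - z := by linarith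
    positivity
  obtain ⟨e1, e2⟩ := ev_rc hr l
  simp only [cP, cM, PE.ev, e1, e2] at h1 h2
  push_cast at h1 h2
  generalize (4 * (1 - z)) ^ l.length = W at *
  generalize N.ev z = n at *
  generalize D.ev z = d at *
  generalize ev l r = v at *
  have k1 : n / d - v / B = ((B : ℝ) * n - v * d) / (B * d) := by field_simp
  have k2 : (1 : ℝ) / E = (B * d) / (E * (B * d)) := by field_simp
  rw [abs_le]
  have hpos : 0 < (B : ℝ) * d := by positivity
  constructor
  · rw [k1, k2, ← neg_div, div_le_div_iff₀ (by positivity) hpos]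
    have h3 : 0 ≤ W * (E * ((B : ℝ) * n - v * d) + B * d) := by nlinarith
    have h4 := nonneg_of_mul_nonneg_right h3 hW
    nlinarith
  · rw [k1, k2, div_le_div_iff₀ hpos (by positivity)]
    have h3 : 0 ≤ W * (B * d - E * ((B : ℝ) * n - v * d)) := by nlinarith
    have h4 := nonneg_of_mul_nonneg_right h3 hW
    nlinarith

def Lc : List ℤ := [302180045428458657662, -79256144740687535594, 12486626154308932911, -1433330455322504666, 122494908148724179, -7665546504112261, 340428669086914, -10209421042441, 189511532545, -1815058079, 5151857]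

def Ls : List ℤ := [-7789595357107057984, 4311915879949812845, 13235967059883077654, -3801381871869142916, 621053159202002730, -66527339884616114, 4819963578266222, -234251279571205, 7318286931434, -132806750880, 1063838737]

def Lo : List ℤ := [93998250044151510318, 42786971608193429634, -1764246612523595221, -361899435062175957, 102874361765168538, -13182840565306282, 1042028721128489, -53259070673518, 1718426776861, -31882227587, 259492485]

def Ll : List ℤ := [-101849901783964402155, 53581749017749797867, -7286013645390963530, 767448130996851252, -56296188931581914, 2638434816706769, -57729115493461, -1105569566340, 113861739386, -3053423117, 30118508]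

/-- numerator of `ω` -/
def oN : PE := .mul (.C 360360) (.mul (.L ml) (.L [1, -1]))
/-- denominator of `L` -/
def lD : PE := .mul (.C 2) (.L p)

theorem ckc1 : pchkL (cP (.L xl) (.L sl) Lc (10 ^ 20) (10 ^ 4)) 500 207 [46, 144] = true := by
  decide +kernel
theorem ckc2 : pchkL (cM (.L xl) (.L sl) Lc (10 ^ 20) (10 ^ 4)) 500 207 [46, 144] = true := by
  decide +kernel
theorem cks1 : pchkL (cP (.L xl) (.L ml) Ls (10 ^ 20) (10 ^ 4)) 500 207 [46, 95, 144] = true := by
  decide +kernel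
theorem cks2 : pchkL (cM (.L xl) (.L ml) Ls (10 ^ 20) (10 ^ 4)) 500 207 [46, 95, 144] = true := by
  decide +kernel
theorem cko1 : pchkL (cP oN (.L gd) Lo (10 ^ 20) (10 ^ 4)) 500 207 [46, 144] = true := by
  decide +kernel
theorem cko2 : pchkL (cM oN (.L gd) Lo (10 ^ 20) (10 ^ 4)) 500 207 [46, 144] = true := by
  decide +kernel
theorem ckl1 : pchkL (cP (.L nl) lD Ll (10 ^ 20) (10 ^ 4)) 500 207 [46, 144] = true := by
  decide +kernel
theorem ckl2 : pchkL (cM (.L nl) lD Ll (10 ^ 20) (10 ^ 4)) 500 207 [46, 144] = true := by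
  decide +kernel

theorem psl : pchkL (.sub (.L sl) (.C 1)) 300 207 [46, 144] = true := by decide +kernel
theorem pml : pchkL (.sub (.L ml) (.C 1)) 300 207 [0, 46, 144] = true := by decide +kernel
theorem pgd : pchkL (.sub (.L gd) (.C 1)) 300 207 [46, 144] = true := by decide +kernel

noncomputable def cf (r : ℝ) : ℝ := ev Lc r / 10 ^ 20
noncomputable def sf (r : ℝ) : ℝ := ev Ls r / 10 ^ 20
noncomputable def of (r : ℝ) : ℝ := ev Lo r / 10 ^ 20
noncomputable def lf (r : ℝ) : ℝ := ev Ll r / 10 ^ 20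

noncomputable def ES' (r : ℝ) : ℝ :=
  (7 + 33 / 10 * r + 3 / 50 * r ^ 2 + 28 / 10 ^ 7 * r ^ 5) / 10 ^ 4
noncomputable def EO' (r : ℝ) : ℝ :=
  (9 + 4 * r + 7 / 50 * r ^ 2 + 92 / 10 ^ 7 * r ^ 5) / 10 ^ 4
noncomputable def EL' (r : ℝ) : ℝ := (8 + r + r ^ 2 / 50) / 10 ^ 4

/-- all enclosures on `[5/2, 20]` -/
structure Enc4 (s s1 : ℝ → ℝ) (r : ℝ) : Prop where
  ca : cf r - 16 / 10 ^ 4 ≤ chw s r
  cb : chw s r ≤ cf r + 16 / 10 ^ 4
  sa : sf r - ES' r ≤ sgw s r
  sb : sgw s r ≤ sf r + ES' r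
  oa : of r - EO' r ≤ omw s r
  ob : omw s r ≤ of r + EO' r
  la : lf r - EL' r ≤ Lw s s1 r
  lb : Lw s s1 r ≤ lf r + EL' r

theorem zrange {r : ℝ} (h1 : 5 / 2 ≤ r) (h2 : r ≤ 20) :
    ((46 : ℕ) : ℝ) / (207 : ℕ) ≤ zf r ∧ zf r ≤ ((144 : ℕ) : ℝ) / (207 : ℕ) := by
  have hr : 0 < r := by linarith
  unfold zf
  push_cast
  constructor
  · rw [div_le_div_iff₀ (by norm_num) (by positivity)]
    linarith
  · rw [div_le_div_iff₀ (by positivity) (by norm_num)]
    linarith

theorem enc4 (hT : ET) (hC : EC) (hS : ES) (hO : EO) {s s1 : ℝ → ℝ} (hE : Ext 0 0 s s1) {r : ℝ}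
    (h1 : 5 / 2 ≤ r) (h2 : r ≤ 20) : Enc4 s s1 r := by
  have hr : 0 < r := by linarith
  have h48 : r ≤ 48 := by linarith
  obtain ⟨z1, z2⟩ := zrange h1 h2
  have hz := Pool.Agent.H97.TR.zf_lt_one hr
  have hre := Pool.Agent.H97.TR.r_eq hr
  have hp := Pool.Agent.H97.TR.p_pos (Pool.Agent.H97.TR.zf_pos hr).le
    (Pool.Agent.H97.TR.zf_le48 hr h48)
  have psl' := pchkL_sound (by norm_num) _ _ _ 144 psl rfl (zf r) z1 z2
  have pml' := pchkL_sound (by norm_num) _ _ _ 144 pml rfl (zf r)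
    (by push_cast; simpa using (Pool.Agent.H97.TR.zf_pos hr).le) z2
  have pgd' := pchkL_sound (by norm_num) _ _ _ 144 pgd rfl (zf r) z1 z2
  simp only [PE.ev] at psl' pml' pgd'
  push_cast at psl' pml' pgd'
  have kc := cen_of (N := .L xl) (D := .L sl) (l := Lc) (B := 10 ^ 20) (E := 10 ^ 4)
    (by norm_num) (by norm_num) hz hre (by simp only [PE.ev]; linarith)
    (pchkL_sound (by norm_num) _ _ _ 144 ckc1 rfl (zf r) z1 z2)
    (pchkL_sound (by norm_num) _ _ _ 144 ckc2 rfl (zf r) z1 z2)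
  have ks := cen_of (N := .L xl) (D := .L ml) (l := Ls) (B := 10 ^ 20) (E := 10 ^ 4)
    (by norm_num) (by norm_num) hz hre (by simp only [PE.ev]; linarith)
    (pchkL_sound (by norm_num) _ _ _ 144 cks1 rfl (zf r) z1 z2)
    (pchkL_sound (by norm_num) _ _ _ 144 cks2 rfl (zf r) z1 z2)
  have ko := cen_of (N := oN) (D := .L gd) (l := Lo) (B := 10 ^ 20) (E := 10 ^ 4)
    (by norm_num) (by norm_num) hz hre (by simp only [PE.ev]; linarith)
    (pchkL_sound (by norm_num) _ _ _ 144 cko1 rfl (zf r) z1 z2)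
    (pchkL_sound (by norm_num) _ _ _ 144 cko2 rfl (zf r) z1 z2)
  have kl := cen_of (N := .L nl) (D := lD) (l := Ll) (B := 10 ^ 20) (E := 10 ^ 4)
    (by norm_num) (by norm_num) hz hre (by simp only [lD, PE.ev]; push_cast; linarith)
    (pchkL_sound (by norm_num) _ _ _ 144 ckl1 rfl (zf r) z1 z2)
    (pchkL_sound (by norm_num) _ _ _ 144 ckl2 rfl (zf r) z1 z2)
  simp only [oN, lD, PE.ev] at kc ks ko kl
  have hone : ev [1, -1] (zf r) = 1 - zf r := by simp only [ev]; push_cast; ring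
  rw [hone] at ko
  push_cast at kc ks ko kl
  rw [← chh_eq hr] at kc
  rw [← sgh_eq hr] at ks
  rw [← omh_eq hr] at ko
  have hl : Lin r = ev nl (zf r) / (2 * ev p (zf r)) := rfl
  rw [← hl] at kl
  have tc := (hC s s1 hE).2 r h1 h48
  have ts := hS s s1 hE r h1 h48
  have tom := hO s s1 hE r h1 h48
  have tl := (hT s s1 hE).2 r h1 h48
  unfold eCb at tc
  unfold eS at ts
  unfold eO at tom
  unfold eTb at tl
  rw [abs_le] at kc ks ko kl tc ts tom tl
  constructor
  · unfold cf; linarith [kc.1, tc.1]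
  · unfold cf; linarith [kc.2, tc.2]
  · unfold sf ES'; linarith [ks.1, ts.1]
  · unfold sf ES'; linarith [ks.2, ts.2]
  · unfold of EO'; linarith [ko.1, tom.1]
  · unfold of EO'; linarith [ko.2, tom.2]
  · unfold lf EL'; linarith [kl.1, tl.1]
  · unfold lf EL'; linarith [kl.2, tl.2]

end Pool.Agent.H85.HN.WF
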