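import Mathlib

/-!
# Positivity of kernels built from `min (r c_i) (t c_j) ^ 2`
-/

namespace Pool.Agent.H85.HN

open MeasureTheory Set Filter Topology Real

theorem ae_pos (ν : Measure ℝ) (h0 : ν (Iic 0) = 0) : ∀ᵐ r ∂ν, 0 < r := by
  rw [ae_iff]
  have : {a : ℝ | ¬ 0 < a} = Iic 0 := by ext x; simp
  rw [this]
  exact h0

theorem ae_pos2 (ν : Measure ℝ) [IsFiniteMeasure ν] (h0 : ν (Iic 0) = 0) :
    ∀ᵐ p ∂(ν.prod ν), 0 < p.1 ∧ 0 < p.2 := by
  have hpos := ae_pos ν h0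
  have h1 : ∀ᵐ p ∂(ν.prod ν), 0 < p.1 :=
    (Measure.quasiMeasurePreserving_fst (μ := ν) (ν := ν)).ae hpos
  have h2 : ∀ᵐ p ∂(ν.prod ν), 0 < p.2 :=
    (Measure.quasiMeasurePreserving_snd (μ := ν) (ν := ν)).ae hpos
  filter_upwards [h1, h2] with p hp1 hp2
  exact ⟨hp1, hp2⟩

/-- layer cake formula for `min (r a) (t b) ^ 2` -/
theorem layer (ν : Measure ℝ) [IsFiniteMeasure ν] (h0 : ν (Iic 0) = 0) (a b : ℝ)
    (ha : 0 ≤ a) (hb : 0 ≤ b) :
    ∫⁻ p : ℝ × ℝ, ENNReal.ofReal (min (p.1 * a) (p.2 * b) ^ 2) ∂(ν.prod ν) =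
      ENNReal.ofReal 2 * ∫⁻ s in Ioi (0 : ℝ),
        (ν {r | s < r * a} * ν {r | s < r * b}) * ENNReal.ofReal s := by
  have hnn : ∀ᵐ p ∂(ν.prod ν), 0 ≤ min (p.1 * a) (p.2 * b) := by
    filter_upwards [ae_pos2 ν h0] with p hp
    exact le_min (mul_nonneg hp.1.le ha) (mul_nonneg hp.2.le hb)
  have hm : AEMeasurable (fun p : ℝ × ℝ => min (p.1 * a) (p.2 * b)) (ν.prod ν) := by
    fun_prop
  have := lintegral_rpow_eq_lintegral_meas_lt_mul (ν.prod ν) hnn hm (p := 2) (by norm_num)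
  simp only [Real.rpow_two] at this
  rw [this]
  congr 1
  refine setLIntegral_congr_fun measurableSet_Ioi fun s hs => ?_
  have hset : {p : ℝ × ℝ | s < min (p.1 * a) (p.2 * b)} = {r | s < r * a} ×ˢ {r | s < r * b} := by
    ext p
    simp
  have he : s ^ ((2 : ℝ) - 1) = s := by norm_num
  simp only [hset, Measure.prod_prod, he]

theorem int_min (ν : Measure ℝ) [IsFiniteMeasure ν] (h0 : ν (Iic 0) = 0)
    (h2 : Integrable (fun r : ℝ => r ^ 2) ν) (a b : ℝ) (ha : 0 ≤ a) (hb : 0 ≤ b) :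
    Integrable (fun p : ℝ × ℝ => min (p.1 * a) (p.2 * b) ^ 2) (ν.prod ν) := by
  have h3 : Integrable (fun p : ℝ × ℝ => p.1 ^ 2 * a ^ 2) (ν.prod ν) := by
    have := h2.comp_fst ν
    exact this.mul_const _
  refine h3.mono' (by fun_prop) ?_
  filter_upwards [ae_pos2 ν h0] with p hp
  have h4 : 0 ≤ min (p.1 * a) (p.2 * b) :=
    le_min (mul_nonneg hp.1.le ha) (mul_nonneg hp.2.le hb)
  rw [Real.norm_eq_abs, abs_of_nonneg (sq_nonneg _)]
  calc min (p.1 * a) (p.2 * b) ^ 2 ≤ (p.1 * a) ^ 2 := by gcongr; exact min_le_left _ _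
    _ = p.1 ^ 2 * a ^ 2 := by ring

theorem meas_anti (ν : Measure ℝ) [IsFiniteMeasure ν] (a : ℝ) :
    Measurable (fun s : ℝ => (ν {r | s < r * a}).toReal) := by
  refine Antitone.measurable ?_
  intro s t hst
  refine ENNReal.toReal_mono (measure_ne_top _ _) (measure_mono ?_)
  intro r hr
  exact lt_of_le_of_lt hst hr

theorem layer2 (ν : Measure ℝ) [IsFiniteMeasure ν] (h0 : ν (Iic 0) = 0)
    (h2 : Integrable (fun r : ℝ => r ^ 2) ν) (a b : ℝ) (ha : 0 ≤ a) (hb : 0 ≤ b) :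
    IntegrableOn (fun s : ℝ => (ν {r | s < r * a}).toReal * (ν {r | s < r * b}).toReal * s)
      (Ioi 0) ∧
    ∫ p : ℝ × ℝ, min (p.1 * a) (p.2 * b) ^ 2 ∂(ν.prod ν) =
      2 * ∫ s in Ioi (0 : ℝ), (ν {r | s < r * a}).toReal * (ν {r | s < r * b}).toReal * s := by
  have hl := layer ν h0 a b ha hb
  have hi := int_min ν h0 h2 a b ha hb
  have hfin : ∫⁻ p : ℝ × ℝ, ENNReal.ofReal (min (p.1 * a) (p.2 * b) ^ 2) ∂(ν.prod ν) ≠ ⊤ := by
    have := hi.lintegral_lt_top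
    exact this.ne
  have hcongr : ∫⁻ s in Ioi (0 : ℝ), (ν {r | s < r * a} * ν {r | s < r * b}) * ENNReal.ofReal s =
      ∫⁻ s in Ioi (0 : ℝ), ENNReal.ofReal
        ((ν {r | s < r * a}).toReal * (ν {r | s < r * b}).toReal * s) := by
    refine setLIntegral_congr_fun measurableSet_Ioi fun s hs => ?_
    have hs' : (0 : ℝ) < s := hs
    rw [ENNReal.ofReal_mul (by positivity), ENNReal.ofReal_mul (by positivity),
      ENNReal.ofReal_toReal (measure_ne_top _ _), ENNReal.ofReal_toReal (measure_ne_top _ _)]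
  rw [hcongr] at hl
  have hmeas : Measurable (fun s : ℝ =>
      (ν {r | s < r * a}).toReal * (ν {r | s < r * b}).toReal * s) :=
    ((meas_anti ν a).mul (meas_anti ν b)).mul measurable_id
  have hnn : 0 ≤ᵐ[volume.restrict (Ioi 0)] (fun s : ℝ =>
      (ν {r | s < r * a}).toReal * (ν {r | s < r * b}).toReal * s) := by
    filter_upwards [ae_restrict_mem measurableSet_Ioi] with s hs
    have hs' : (0 : ℝ) < s := hs
    simp only [Pi.zero_apply]
    positivity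
  have hfin2 : ∫⁻ s in Ioi (0 : ℝ), ENNReal.ofReal
      ((ν {r | s < r * a}).toReal * (ν {r | s < r * b}).toReal * s) ≠ ⊤ := by
    intro h
    rw [h] at hl
    rw [hl] at hfin
    exact hfin (by simp)
  refine ⟨⟨hmeas.aestronglyMeasurable, ?_⟩, ?_⟩
  · rw [hasFiniteIntegral_iff_ofReal hnn]
    exact lt_top_iff_ne_top.mpr hfin2
  · rw [integral_eq_lintegral_of_nonneg_ae (Eventually.of_forall fun p => sq_nonneg _)
      hi.aestronglyMeasurable, integral_eq_lintegral_of_nonneg_ae hnn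
      hmeas.aestronglyMeasurable, hl, ENNReal.toReal_mul]
    norm_num

/-- positivity -/
theorem psd {ι : Type*} [Fintype ι] (ν : Measure ℝ) [IsFiniteMeasure ν] (h0 : ν (Iic 0) = 0)
    (h2 : Integrable (fun r : ℝ => r ^ 2) ν) (c γ : ι → ℝ) (hc : ∀ i, 0 ≤ c i) :
    Integrable (fun p : ℝ × ℝ => ∑ i, ∑ j, γ i * γ j * min (p.1 * c i) (p.2 * c j) ^ 2)
      (ν.prod ν) ∧
    0 ≤ ∫ p : ℝ × ℝ, ∑ i, ∑ j, γ i * γ j * min (p.1 * c i) (p.2 * c j) ^ 2 ∂(ν.prod ν) := by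
  have hi : ∀ i j, Integrable (fun p : ℝ × ℝ => γ i * γ j * min (p.1 * c i) (p.2 * c j) ^ 2)
      (ν.prod ν) := fun i j => (int_min ν h0 h2 _ _ (hc i) (hc j)).const_mul _
  refine ⟨integrable_finsetSum _ fun i _ => integrable_finsetSum _ fun j _ => hi i j, ?_⟩
  rw [integral_finsetSum _ fun i _ => integrable_finsetSum _ fun j _ => hi i j]
  simp_rw [integral_finsetSum _ fun j _ => hi _ j, integral_const_mul]
  have hl := fun i j => layer2 ν h0 h2 (c i) (c j) (hc i) (hc j)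
  simp_rw [fun i j => (hl i j).2]
  have : ∑ i, ∑ j, γ i * γ j * (2 * ∫ s in Ioi (0 : ℝ),
      (ν {r | s < r * c i}).toReal * (ν {r | s < r * c j}).toReal * s) =
      ∫ s in Ioi (0 : ℝ), 2 * s * (∑ i, γ i * (ν {r | s < r * c i}).toReal) ^ 2 := by
    have e1 : ∀ s : ℝ, 2 * s * (∑ i, γ i * (ν {r | s < r * c i}).toReal) ^ 2 =
        ∑ i, ∑ j, γ i * γ j * (2 * ((ν {r | s < r * c i}).toReal *
          (ν {r | s < r * c j}).toReal * s)) := by
      intro s
      rw [sq, Finset.sum_mul_sum, Finset.mul_sum]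
      refine Finset.sum_congr rfl fun i _ => ?_
      rw [Finset.mul_sum]
      refine Finset.sum_congr rfl fun j _ => ?_
      ring
    simp_rw [e1]
    rw [integral_finsetSum _ fun i _ => integrable_finsetSum _ fun j _ =>
      (((hl i j).1.const_mul 2).const_mul (γ i * γ j))]
    refine Finset.sum_congr rfl fun i _ => ?_
    rw [integral_finsetSum _ fun j _ => (((hl i j).1.const_mul 2).const_mul (γ i * γ j))]
    refine Finset.sum_congr rfl fun j _ => ?_
    rw [integral_const_mul, integral_const_mul]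
  rw [this]
  refine setIntegral_nonneg measurableSet_Ioi fun s hs => ?_
  have hs' : (0 : ℝ) < s := hs
  positivity

end Pool.Agent.H85.HN
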