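import Pool.Agent.H85.HN.Wn

/-!
# Facts on the extremal function: `EM`, (W0), (W2), (W5) and the range `(0, 5/2]`
-/

namespace Pool.Agent.H85.HN.WF

open Pool.Agent.H99.HM Pool.Agent.H99.HN Pool.Agent.H99.PC Pool.Agent.H99.HN.Enc
open Pool.Agent.H97.TR (zf p nl n1 ny sl DD Lin Sin Ain phin)
open MeasureTheory Set Filter Topology Real

variable {s s1 : ℝ → ℝ} {r : ℝ}

/-! ### (W5) -/

theorem L_ge (hE : Ext 0 0 s s1) (hr : 0 < r) : -1 ≤ Lw s s1 r := by
  rcases lt_or_ge 0 (Yw s r) with hY | hY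
  · have := L_pos hE hr hY le_rfl
    linarith
  · -- `φ ≥ 0` on `(0, r]`
    have hF := Main.facts 0 0 s s1 hE
    have hd : ∀ t, 0 < t → HasDerivAt (fun t => Yw s t / t) (Vw s t / t ^ 2) t := by
      intro t ht
      refine ((dY hE ht).fun_div (hasDerivAt_id' t) ht.ne').congr_deriv ?_
      field_simp
      ring
    have hmono : MonotoneOn (fun t => Yw s t / t) (Ioi 0) := by
      refine monotoneOn_of_deriv_nonneg (convex_Ioi 0)
        (fun t ht => (hd t ht).continuousAt.continuousWithinAt) ?_ ?_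
      · intro t ht
        rw [interior_Ioi] at ht
        exact (hd t ht).differentiableAt.differentiableWithinAt
      · intro t ht
        rw [interior_Ioi] at ht
        have ht0 : 0 < t := ht
        rw [(hd t ht0).deriv]
        have := Vw_nonneg hE ht0
        positivity
    have hphi : ∀ t, 0 < t → t ≤ r → 0 ≤ phi 0 s t := by
      intro t ht htr
      have h1 := hmono (mem_Ioi.mpr ht) (mem_Ioi.mpr hr) htr
      simp only at h1
      have h2 : Yw s r / r ≤ 0 := div_nonpos_of_nonpos_of_nonneg hY hr.le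
      have h3 : Yw s t / t ≤ 0 := h1.trans h2
      have h4 : Yw s t / t = -(t * phi 0 s t) := by
        unfold Yw
        field_simp
      rw [h4] at h3
      have h5 : 0 ≤ t * phi 0 s t := by linarith
      exact nonneg_of_mul_nonneg_right h5 ht
    have hanti : AntitoneOn s1 (Icc 0 r) := by
      refine antitoneOn_of_deriv_nonpos (convex_Icc 0 r) (hE.cont1.mono fun t ht => ht.1) ?_ ?_
      · intro t ht
        rw [interior_Icc] at ht
        exact (hE.der1 t ht.1).differentiableAt.differentiableWithinAt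
      · intro t ht
        rw [interior_Icc] at ht
        rw [(hE.der1 t ht.1).deriv]
        have h1 := hphi t ht.1 ht.2.le
        have h2 := hE.pos t ht.1
        have : 0 ≤ phi 0 s t * s t := mul_nonneg h1 h2.le
        linarith
    obtain ⟨c, hc, hcs⟩ := exists_hasDerivAt_eq_slope s s1 hr
      (hF.contS.mono fun t ht => ht.1) (fun t ht => hE.der t ht.1)
    rw [hE.zero, sub_zero, sub_zero] at hcs
    have h6 := hanti ⟨hc.1.le, hc.2.le⟩ ⟨hr.le, le_rfl⟩ hc.2.le
    rw [hcs, le_div_iff₀ hr] at h6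
    have hs := hE.pos r hr
    unfold Lw
    have : r * s1 r / s r ≤ 1 := by
      rw [div_le_one hs]
      linarith
    linarith

theorem w5 : T_w5 := by
  intro s s1 hE r hr
  have hF := Main.facts 0 0 s s1 hE
  have hmono : MonotoneOn (fun t => 3 * Sf s t - t * (4 * π * s t ^ 2)) (Ici 0) := by
    have hd : ∀ t, 0 < t → HasDerivAt (fun t => 3 * Sf s t - t * (4 * π * s t ^ 2))
        (3 * (Xw s t / t) - (1 - 2 * Lw s s1 t) * Xw s t / t) t := fun t ht =>
      ((dS hE ht).const_mul 3).fun_sub (dX hE ht)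
    refine monotoneOn_of_deriv_nonneg (convex_Ici 0) ?_ ?_ ?_
    · refine (continuousOn_const.mul hF.Scont).sub (continuousOn_id.mul ?_)
      exact continuousOn_const.mul (hF.contS.pow 2)
    · intro t ht
      rw [interior_Ici] at ht
      exact (hd t ht).differentiableAt.differentiableWithinAt
    · intro t ht
      rw [interior_Ici] at ht
      have ht0 : 0 < t := ht
      rw [(hd t ht0).deriv]
      have h1 := L_ge hE ht0
      have h2 := Xw_pos hE ht0
      have h3 : 3 * (Xw s t / t) - (1 - 2 * Lw s s1 t) * Xw s t / t =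
          (2 + 2 * Lw s s1 t) * (Xw s t / t) := by ring
      rw [h3]
      exact mul_nonneg (by linarith) (by positivity)
  have h := hmono (mem_Ici.mpr le_rfl) (mem_Ici.mpr hr.le) hr.le
  simp only [hF.S0] at h
  unfold Sx
  linarith

/-! ### `EM` -/

theorem k16 : pchk (.sub (.mul (.C 10000) (.L ny)) (.mul (.C (4 * 30828)) (.mul (.L p) (.L p))))
      400 64 64 99 = true ∧
    pchk (.sub (.mul (.C (4 * 30829)) (.mul (.L p) (.L p))) (.mul (.C 10000) (.L ny)))
      400 64 64 99 = true := by decide +kernel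

theorem Yh16 : 30828 / 10 ^ 4 ≤ Yh 16 ∧ Yh 16 ≤ 30829 / 10 ^ 4 := by
  obtain ⟨a1, a2⟩ := k16
  have hz : zf 16 = 64 / 99 := by unfold Pool.Agent.H97.TR.zf; norm_num
  have hp := Pool.Agent.H97.TR.p_pos (z := 64 / 99) (by norm_num) (by norm_num)
  have b1 := pchk_sound (by norm_num) a1 (x := 64 / 99) (by norm_num) (by norm_num)
  have b2 := pchk_sound (by norm_num) a2 (x := 64 / 99) (by norm_num) (by norm_num)
  simp only [PE.ev] at b1 b2
  push_cast at b1 b2
  rw [Yh_eq (by norm_num), hz]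
  constructor
  · rw [div_le_div_iff₀ (by norm_num) (by positivity)]
    nlinarith
  · rw [div_le_div_iff₀ (by positivity) (by norm_num)]
    nlinarith

/-- identity for the mass -/
theorem M_id (hE : Ext 0 0 s s1) (hr : 0 < r) :
    Mf s * (1 - chw s r / ((chw s r + sgw s r) * omw s r)) = 1 + Yw s r / r := by
  have hc := chw_pos hE hr
  have hs := sgw_pos hE hr
  have ho := om_pos hE hr
  have h1 := kap_eq hE hr
  have h2 : r ^ 2 * Jf s r = r * (Mf s * (chw s r / ((chw s r + sgw s r) * omw s r))) := by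
    have : r ^ 2 * Jf s r = r * (r * Jf s r) := by ring
    rw [this, rJ_eq hE hr, tw_eq hE hr]
    field_simp
  rw [h2] at h1
  have h3 : Yw s r / r = Mf s - 1 - Mf s * (chw s r / ((chw s r + sgw s r) * omw s r)) := by
    rw [div_eq_iff hr.ne']
    linarith
  rw [h3]
  ring

theorem em (hT : ET) (hC : EC) (hS : ES) (hO : EO) : EM := by
  intro s s1 hE
  have h := enc4 hT hC hS hO hE (r := 16) (by norm_num) (by norm_num)
  obtain ⟨b1, b2, b3, b4, b5, b6⟩ := at16
  have hM := M_id hE (r := 16) (by norm_num)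
  have hY := abs_le.mp (EY hE (r := 16) (by norm_num) (by norm_num)).2
  obtain ⟨y1, y2⟩ := Yh16
  unfold eY at hY
  have hc1 : 1524 / 10 ^ 4 ≤ chw s 16 := b1.trans h.ca
  have hc2 : chw s 16 ≤ 1558 / 10 ^ 4 := h.cb.trans b2
  have hs1 : 28004 / 10 ^ 4 ≤ sgw s 16 := b3.trans h.sa
  have hs2 : sgw s 16 ≤ 28163 / 10 ^ 4 := h.sb.trans b4
  have ho1 : 42285 / 10 ^ 4 ≤ omw s 16 := b5.trans h.oa
  have ho2 : omw s 16 ≤ 42526 / 10 ^ 4 := h.ob.trans b6
  have hc0 := chw_pos hE (r := 16) (by norm_num)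
  have hs0 := sgw_pos hE (r := 16) (by norm_num)
  have ho0 := om_pos hE (r := 16) (by norm_num)
  have hMp := Mf_pos hE
  set q : ℝ := chw s 16 / ((chw s 16 + sgw s 16) * omw s 16) with hq
  have hden : 0 < (chw s 16 + sgw s 16) * omw s 16 := by positivity
  have hq1 : 1206 / 10 ^ 5 ≤ q := by
    rw [hq, le_div_iff₀ hden]
    have h1 : (chw s 16 + sgw s 16) * omw s 16 ≤ (chw s 16 + 28163 / 10 ^ 4) * (42526 / 10 ^ 4) :=
      mul_le_mul (by linarith) ho2 ho0.le (by linarith)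
    have h2 : 1206 / 10 ^ 5 * ((chw s 16 + sgw s 16) * omw s 16) ≤
      1206 / 10 ^ 5 * ((chw s 16 + 28163 / 10 ^ 4) * (42526 / 10 ^ 4)) :=
      mul_le_mul_of_nonneg_left h1 (by norm_num)
    refine h2.trans ?_
    norm_num at hc1 ⊢
    linarith
  have hq2 : q ≤ 1247 / 10 ^ 5 := by
    rw [hq, div_le_iff₀ hden]
    have h1 : (chw s 16 + 28004 / 10 ^ 4) * (42285 / 10 ^ 4) ≤ (chw s 16 + sgw s 16) * omw s 16 :=
      mul_le_mul (by linarith) ho1 (by norm_num) (by positivity)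
    have h2 : 1247 / 10 ^ 5 * ((chw s 16 + 28004 / 10 ^ 4) * (42285 / 10 ^ 4)) ≤
      1247 / 10 ^ 5 * ((chw s 16 + sgw s 16) * omw s 16) :=
      mul_le_mul_of_nonneg_left h1 (by norm_num)
    refine le_trans ?_ h2
    norm_num at hc2 ⊢
    linarith
  have hYlo : 30761 / 10 ^ 4 ≤ Yw s 16 := by norm_num at hY y1 ⊢; linarith [hY.1]
  have hYhi : Yw s 16 ≤ 30896 / 10 ^ 4 := by norm_num at hY y2 ⊢; linarith [hY.2]
  constructor
  · have h1 : Mf s * (1 - q) ≤ Mf s * (1 - 1206 / 10 ^ 5) :=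
      mul_le_mul_of_nonneg_left (by linarith) hMp.le
    norm_num at h1 hYlo ⊢
    linarith
  · have h1 : Mf s * (1 - 1247 / 10 ^ 5) ≤ Mf s * (1 - q) :=
      mul_le_mul_of_nonneg_left (by linarith) hMp.le
    norm_num at h1 hYhi ⊢
    linarith

theorem w0 (hM : EM) : T_w0 := by
  intro s s1 hE
  obtain ⟨h1, h2⟩ := hM s s1 hE
  constructor <;> linarith

/-! ### the range `(0, 5/2]` -/

def sl3 : List ℤ := sl.drop 3
def xl3 : List ℤ := xl.drop 3

theorem sl_take : sl.take 3 = [0, 0, 0] := by decide +kernel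
theorem xl_take : xl.take 3 = [0, 0, 0] := by decide +kernel

theorem ev_sl3 (z : ℝ) : ev sl z = z ^ 3 * ev sl3 z := by
  have h : sl = 0 :: 0 :: 0 :: sl3 := by
    have := List.take_append_drop 3 sl
    rw [sl_take] at this
    exact this.symm
  rw [h]
  simp only [ev]
  push_cast
  ring

theorem ev_xl3 (z : ℝ) : ev xl z = z ^ 3 * ev xl3 z := by
  have h : xl = 0 :: 0 :: 0 :: xl3 := by
    have := List.take_append_drop 3 xl
    rw [xl_take] at this
    exact this.symm
  rw [h]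
  simp only [ev]
  push_cast
  ring

def kW2a : PE := .sub (.sub (.mul (.C 1996) (.mul (.L sl3) (.L p)))
  (.mul (.C 1000) (.mul (.L xl3) (.L p)))) (.mul (.C 1000) (.mul (.L nl) (.L sl3)))

def w1P : PE := .L [4, -4]
def ppP : PE := .mul (.L p) (.L p)
def kKP : PE := .sub (.mul (.add (.mul (.C 8784300) (.mul (.L [0, 1]) w1P)) (.L [0, 0, 24500]))
  (.mul (.C 4) ppP)) (.mul (.C 1200000) (.mul (.L ny) (.mul w1P w1P)))
def kK6 : PE := .sub
  (.mul (.C (8505 * 35 * 144 * 10 ^ 10 * 16)) (.mul (.L [0, 1]) (.mul (.mul w1P (.mul w1P w1P))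
    (.mul (.mul ppP ppP) (.sub (.mul (.C (10 ^ 4)) (.L xl3)) (.mul (.C 9) (.L sl3)))))))
  (.mul (.C (2 * 10 ^ 8)) (.mul (.L sl3) (.mul kKP kKP)))

theorem ckW2a : pchkL kW2a 400 9 [0, 2] = true := by decide +kernel
theorem ckK6 : pchkL kK6 700 9 [0, 1, 2] = true := by decide +kernel
theorem ckX3 : pchkL (.sub (.sub (.mul (.C (10 ^ 4)) (.L xl3)) (.mul (.C 9) (.L sl3))) (.C 1))
  300 9 [0, 2] = true := by decide +kernel
theorem ckS3 : pchkL (.sub (.L sl3) (.C 1)) 300 9 [0, 2] = true := by decide +kernel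

theorem zsmall (hr : 0 < r) (h2 : r ≤ 5 / 2) : ((0 : ℕ) : ℝ) / (9 : ℕ) ≤ zf r ∧
    zf r ≤ ((2 : ℕ) : ℝ) / (9 : ℕ) := by
  have hz := Pool.Agent.H97.TR.zf_pos hr
  constructor
  · push_cast
    rw [zero_div]
    exact hz.le
  · have := zf_mono hr h2
    rw [zf_at (5 / 2) (b := 2 / 9) (by norm_num)] at this
    push_cast
    exact this

theorem sl3_pos (hr : 0 < r) (h2 : r ≤ 5 / 2) : 0 < ev sl3 (zf r) := by
  obtain ⟨z1, z2⟩ := zsmall hr h2
  have h := pchkL_sound (by norm_num) _ _ _ 2 ckS3 rfl (zf r) z1 z2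
  simp only [PE.ev] at h
  push_cast at h
  linarith

theorem chh_eq3 (hr : 0 < r) (h2 : r ≤ 5 / 2) : chh r = ev xl3 (zf r) / ev sl3 (zf r) := by
  have hz := Pool.Agent.H97.TR.zf_pos hr
  have hs := sl3_pos hr h2
  rw [chh_eq hr, ev_sl3, ev_xl3]
  field_simp

theorem w2_small (hT : ET) (hC : EC) (hE : Ext 0 0 s s1) (hr : 0 < r) (h2 : r ≤ 5 / 2) :
    chw s r + 2 * Lw s s1 r < 2 := by
  obtain ⟨z1, z2⟩ := zsmall hr h2
  have h := pchkL_sound (by norm_num) _ _ _ 2 ckW2a rfl (zf r) z1 z2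
  have hs := sl3_pos hr h2
  have hp := Pool.Agent.H97.TR.p_pos (Pool.Agent.H97.TR.zf_pos hr).le
    (Pool.Agent.H97.TR.zf_le48 hr (by linarith))
  simp only [kW2a, PE.ev] at h
  push_cast at h
  have hc := (abs_le.mp ((hC s s1 hE).1 r hr h2)).2
  have ht := (abs_le.mp ((hT s s1 hE).1 r hr h2)).2
  have he1 : eCf r ≤ 9 / 10 ^ 4 := by
    unfold eCf
    refine div_le_div_of_nonneg_right ?_ (by positivity)
    nlinarith
  have he2 : eTf r ≤ 9 / 10 ^ 4 := by
    unfold eTf
    refine div_le_div_of_nonneg_right ?_ (by positivity)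
    nlinarith
  have hl : Lin r = ev nl (zf r) / (2 * ev p (zf r)) := rfl
  have key : chh r + 2 * Lin r ≤ 1996 / 1000 := by
    rw [chh_eq3 hr h2, hl]
    generalize ev xl3 (zf r) = a at *
    generalize ev sl3 (zf r) = b at *
    generalize ev nl (zf r) = c at *
    generalize ev p (zf r) = d at *
    have e : a / b + 2 * (c / (2 * d)) = (a * d + c * b) / (b * d) := by field_simp
    rw [e, div_le_div_iff₀ (by positivity) (by norm_num)]
    linarith
  norm_num at he1 he2 key ⊢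
  linarith

theorem w2 (hT : ET) (hC : EC) (hS : ES) (hO : EO) : T_w2 := by
  intro s s1 hE r hr h2
  rw [Cq_eq hE hr]
  have hS0 := Sf_pos hE hr
  have key : chw s r + 2 * Lw s s1 r - 2 < 0 := by
    rcases le_or_gt r (5 / 2) with h | h
    · have := w2_small hT hC hE hr h
      linarith
    · have h4 := enc4 hT hC hS hO hE h.le (by linarith)
      have h5 := w2_num h.le h2
      linarith [h4.cb, h4.lb]
  exact mul_neg_of_pos_of_neg (by positivity) key

theorem tau52 (hT : ET) (hC : EC) (hS : ES) (hO : EO) (hM : EM) (hE : Ext 0 0 s s1) :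
    943 / 1000 ≤ tw s (5 / 2) := by
  have h := enc4 hT hC hS hO hE (r := 5 / 2) le_rfl (by norm_num)
  obtain ⟨b1, b2⟩ := at52
  have hm := (hM s s1 hE).1
  rw [tw_eq hE (by norm_num)]
  have hc : 16360 / 10 ^ 4 ≤ chw s (5 / 2) := b1.trans h.ca
  have hs : sgw s (5 / 2) ≤ 4535 / 10 ^ 4 := h.sb.trans b2
  have hc0 := chw_pos hE (r := 5 / 2) (by norm_num)
  have hs0 := sgw_pos hE (r := 5 / 2) (by norm_num)
  have h1 : 7829 / 10 ^ 4 ≤ chw s (5 / 2) / (chw s (5 / 2) + sgw s (5 / 2)) := by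
    rw [le_div_iff₀ (by positivity)]
    norm_num at hc hs ⊢
    linarith
  calc (943 : ℝ) / 1000 ≤ 1206 / 1000 * (7829 / 10 ^ 4) := by norm_num
    _ ≤ Mf s * (chw s (5 / 2) / (chw s (5 / 2) + sgw s (5 / 2))) :=
        mul_le_mul hm h1 (by norm_num) (by linarith)

theorem k_small (hC : EC) (hM : EM) (hE : Ext 0 0 s s1) (hr : 0 < r) (h2 : r ≤ 5 / 2) :
    2 * (r ^ 2 * Jf s r) ^ 2 ≤ 8505 / 10 ^ 4 * (r * chw s r) := by
  obtain ⟨z1, z2⟩ := zsmall hr h2
  have h := pchkL_sound (by norm_num) _ _ _ 2 ckK6 rfl (zf r) z1 z2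
  have hs := sl3_pos hr h2
  have h48 : r ≤ 48 := by linarith
  have hz := Pool.Agent.H97.TR.zf_pos hr
  have hz1 := Pool.Agent.H97.TR.zf_lt_one hr
  have hp := Pool.Agent.H97.TR.p_pos hz.le (Pool.Agent.H97.TR.zf_le48 hr h48)
  have hc := (abs_le.mp ((hC s s1 hE).1 r hr h2)).1
  have he1 : eCf r ≤ 9 / 10 ^ 4 := by
    unfold eCf
    refine div_le_div_of_nonneg_right ?_ (by positivity)
    nlinarith
  have hY := (abs_le.mp (EY hE hr h48).2).1
  have hm := (hM s s1 hE).2
  have hJ := Jf_pos hE hr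
  have hk0 : 0 < r ^ 2 * Jf s r := by positivity
  have hk : r ^ 2 * Jf s r ≤ 209 / 1000 * r - Yh r + eY r := by
    rw [kap_eq hE hr]
    nlinarith
  have hru := z_v hr
  set w : ℝ := 4 * (1 - zf r) with hw
  have hw0 : 0 < w := by
    have : 0 < 1 - zf r := by linarith
    positivity
  -- evaluate the check
  have e1 : ev [4, -4] (zf r) = w := by simp only [ev, hw]; push_cast; ring
  have e2 : ev [0, 1] (zf r) = zf r := by simp only [ev]; push_cast; ring
  have e3 : ev [0, 0, 24500] (zf r) = 24500 * zf r ^ 2 := by simp only [ev]; push_cast; ring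
  simp only [kK6, kKP, w1P, ppP, PE.ev, e1, e2, e3] at h
  push_cast at h
  have hrw : r = 35 * zf r / w := hru
  have hK : 209 / 1000 * r - Yh r + eY r = ((8784300 * (zf r * w) + 24500 * zf r ^ 2) *
      (4 * (ev p (zf r) * ev p (zf r))) - 1200000 * (ev ny (zf r) * (w * w))) /
      (1200000 * (4 * ev p (zf r) ^ 2 * w ^ 2)) := by
    rw [Yh_eq hr]
    unfold eY
    have hr1 : r ≠ 0 := hr.ne'
    clear_value w
    generalize ev ny (zf r) = y at *
    generalize ev p (zf r) = d at *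
    generalize zf r = z at *
    rw [hrw]
    field_simp
    ring
  set K : ℝ := (8784300 * (zf r * w) + 24500 * zf r ^ 2) *
      (4 * (ev p (zf r) * ev p (zf r))) - 1200000 * (ev ny (zf r) * (w * w)) with hKdef
  have hX : ev xl3 (zf r) / ev sl3 (zf r) - 9 / 10 ^ 4 ≤ chw s r := by
    rw [← chh_eq3 hr h2]
    linarith
  have h5 : 2 * (K / (1200000 * (4 * ev p (zf r) ^ 2 * w ^ 2))) ^ 2 ≤
      8505 / 10 ^ 4 * (r * (ev xl3 (zf r) / ev sl3 (zf r) - 9 / 10 ^ 4)) := by
    clear_value K w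
    generalize ev xl3 (zf r) = a at *
    generalize ev sl3 (zf r) = b at *
    generalize ev p (zf r) = d at *
    generalize zf r = z at *
    rw [hrw]
    have e4 : 8505 / 10 ^ 4 * (35 * z / w * (a / b - 9 / 10 ^ 4)) -
        2 * (K / (1200000 * (4 * d ^ 2 * w ^ 2))) ^ 2 =
        (8505 * 35 * 144 * 10 ^ 10 * 16 * (z * (w * (w * w) * (d * d * (d * d) *
          (10 ^ 4 * a - 9 * b)))) - 2 * 10 ^ 8 * (b * (K * K))) /
          (10 ^ 8 * b * (144 * 10 ^ 10 * 16 * (d ^ 4 * w ^ 4))) := by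
      field_simp
      ring
    have h6 : 0 ≤ (8505 * 35 * 144 * 10 ^ 10 * 16 * (z * (w * (w * w) * (d * d * (d * d) *
          (10 ^ 4 * a - 9 * b)))) - 2 * 10 ^ 8 * (b * (K * K))) /
          (10 ^ 8 * b * (144 * 10 ^ 10 * 16 * (d ^ 4 * w ^ 4))) := by
      refine div_nonneg ?_ (by positivity)
      norm_num at h ⊢
      linarith
    linarith
  have h7 : (r ^ 2 * Jf s r) ^ 2 ≤ (K / (1200000 * (4 * ev p (zf r) ^ 2 * w ^ 2))) ^ 2 := by
    rw [← hK]
    exact pow_le_pow_left₀ hk0.le hk 2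
  have h8 : 8505 / 10 ^ 4 * (r * (ev xl3 (zf r) / ev sl3 (zf r) - 9 / 10 ^ 4)) ≤
      8505 / 10 ^ 4 * (r * chw s r) := by gcongr
  linarith

end Pool.Agent.H85.HN.WF
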