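import Pool.Agent.H85.HN.Pol
import Pool.Agent.H99.HN.EncT

/-!
# Facts on the extremal function: algebra
-/

namespace Pool.Agent.H85.HN.WF

open Pool.Agent.H99.HM Pool.Agent.H99.HN Pool.Agent.H99.PC Pool.Agent.H99.HN.Enc
open MeasureTheory Set Filter Topology Real

section

variable {s s1 : ℝ → ℝ} {r : ℝ}

theorem dT_eq : dT s s1 r = 2 - 2 * Lw s s1 r := by
  unfold dT Lw
  ring

theorem X_ch (hE : Ext 0 0 s s1) (hr : 0 < r) : Xw s r = chw s r * Sf s r := by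
  unfold chw
  rw [div_mul_cancel₀ _ (Sf_pos hE hr).ne']

theorem X_sg (hE : Ext 0 0 s s1) (hr : 0 < r) : Xw s r = sgw s r * tw s r := by
  unfold sgw
  rw [div_mul_cancel₀ _ (tw_pos hE hr.le).ne']

theorem Cq_eq (hE : Ext 0 0 s s1) (hr : 0 < r) :
    Cq s s1 r = 3 / 2 * Sf s r * (chw s r + 2 * Lw s s1 r - 2) := by
  unfold Cq
  rw [dT_eq, show Sx s r = Xw s r from rfl, X_ch hE hr]
  ring

theorem Dq_eq (hE : Ext 0 0 s s1) (hr : 0 < r) :
    Dq s s1 r = 3 / 2 * tw s r * (sgw s r + 2 - 2 * Lw s s1 r) := by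
  unfold Dq
  rw [dT_eq, show Sx s r = Xw s r from rfl, X_sg hE hr, show Mf s - Sf s r = tw s r from rfl]
  ring

theorem DqJ_eq (hE : Ext 0 0 s s1) (hr : 0 < r) :
    Dq s s1 r / (r * Jf s r) = 3 / 2 * omw s r * (sgw s r + 2 - 2 * Lw s s1 r) := by
  rw [Dq_eq hE hr]
  unfold omw
  ring

theorem om_pos (hE : Ext 0 0 s s1) (hr : 0 < r) : 0 < omw s r :=
  lt_of_lt_of_le one_pos (omw_ge_one hE hr)

theorem Mf_pos (hE : Ext 0 0 s s1) : 0 < Mf s := (Main.facts 0 0 s s1 hE).mpos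

theorem tw_eq (hE : Ext 0 0 s s1) (hr : 0 < r) :
    tw s r = Mf s * (chw s r / (chw s r + sgw s r)) := by
  have h1 := X_ch hE hr
  have h2 := X_sg hE hr
  have hc := chw_pos hE hr
  have hs := sgw_pos hE hr
  have hM : Mf s = Sf s r + tw s r := by unfold tw; ring
  rw [hM]
  field_simp
  linarith

theorem Sf_eq (hE : Ext 0 0 s s1) (hr : 0 < r) :
    Sf s r = Mf s * (sgw s r / (chw s r + sgw s r)) := by
  have h1 := X_ch hE hr
  have h2 := X_sg hE hr
  have hc := chw_pos hE hr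
  have hs := sgw_pos hE hr
  have hM : Mf s = Sf s r + tw s r := by unfold tw; ring
  rw [hM]
  field_simp
  linarith

theorem rJ_eq (hE : Ext 0 0 s s1) (hr : 0 < r) : r * Jf s r = tw s r / omw s r := by
  have hJ := Jf_pos hE hr
  have ht := tw_pos hE hr.le
  unfold omw
  field_simp

/-- `B = 2 κ² S / (r S_x τ)` -/
noncomputable def Bw (s : ℝ → ℝ) (r : ℝ) : ℝ :=
  2 * r * Mf s / ((chw s r + sgw s r) * omw s r ^ 2)

theorem B_pos (hE : Ext 0 0 s s1) (hr : 0 < r) : 0 < Bw s r := by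
  have hc := chw_pos hE hr
  have hs := sgw_pos hE hr
  have ho := om_pos hE hr
  have hM := Mf_pos hE
  unfold Bw
  positivity

theorem B_eq (hE : Ext 0 0 s s1) (hr : 0 < r) :
    2 * (r ^ 2 * Jf s r) ^ 2 * Sf s r = Bw s r * (r * Xw s r * tw s r) := by
  have hc := chw_pos hE hr
  have hs := sgw_pos hE hr
  have ho := om_pos hE hr
  have hM := Mf_pos hE
  have e1 : r ^ 2 * Jf s r = r * (tw s r / omw s r) := by rw [← rJ_eq hE hr]; ring
  rw [e1, Sf_eq hE hr, X_sg hE hr]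
  unfold Bw
  field_simp

theorem dB (hE : Ext 0 0 s s1) (hr : 0 < r) : HasDerivAt (Bw s)
    (Bw s r * (2 + 2 * Lw s s1 r + chw s r + sgw s r - 2 * omw s r) / r) r := by
  have hc := chw_pos hE hr
  have hs := sgw_pos hE hr
  have ho := om_pos hE hr
  have h := (((hasDerivAt_id' r).const_mul 2).mul_const (Mf s)).fun_div
    (((dch hE hr).fun_add (dsg hE hr)).fun_mul ((dom hE hr).fun_pow 2)) (by positivity)
  unfold Bw
  refine h.congr_deriv ?_
  push_cast
  field_simp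
  ring

theorem B_anti (hE : Ext 0 0 s s1) {a : ℝ} (ha : 0 < a)
    (h : ∀ r, a ≤ r → 2 + 2 * Lw s s1 r + chw s r + sgw s r ≤ 2 * omw s r) :
    AntitoneOn (Bw s) (Ici a) := by
  refine anti_of_der (fun r hr => dB hE (ha.trans_le hr)) fun r hr => ?_
  have hr0 : 0 < r := ha.trans_le hr
  have hB := B_pos hE hr0
  have := h r hr
  refine div_nonpos_of_nonpos_of_nonneg (mul_nonpos_of_nonneg_of_nonpos hB.le ?_) hr0.le
  linarith

/-- reduction of (W4) -/
theorem w4_of (hE : Ext 0 0 s s1) {w t : ℝ} (hr : 0 < r) (ht : 0 < t)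
    (h : Bw s t ≤ w / 3 * (omw s r * Bw s r)) :
    3 / 2 * Sx s r / (r ^ 2 * Sf s r) * (2 * t ^ 2 * Jf s t ^ 2 * Sf s t) ≤
      w * Jf s r * (4 * π * s t ^ 2 * (Mf s - Sf s t)) := by
  have hc := chw_pos hE hr
  have hs := sgw_pos hE hr
  have ho := om_pos hE hr
  have hM := Mf_pos hE
  have hS := Sf_pos hE hr
  have hX := Xw_pos hE ht
  have htw := tw_pos hE ht.le
  have e1 : 2 * t ^ 2 * Jf s t ^ 2 * Sf s t = Bw s t * (Xw s t * tw s t / t) := by
    have := B_eq hE ht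
    field_simp
    refine mul_left_cancel₀ ht.ne' ?_
    linarith
  have e2 : 4 * π * s t ^ 2 * (Mf s - Sf s t) = Xw s t * tw s t / t := by
    unfold Xw tw Aw
    field_simp
  have e3 : 3 / 2 * Sx s r / (r ^ 2 * Sf s r) = 3 / 2 * chw s r / r ^ 2 := by
    rw [show Sx s r = Xw s r from rfl, X_ch hE hr]
    field_simp
  have e4 : Jf s r = chw s r / r ^ 2 * (omw s r * Bw s r) / 2 := by
    have h1 : Jf s r = (tw s r / omw s r) / r := by
      rw [← rJ_eq hE hr]; field_simp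
    rw [h1, tw_eq hE hr]
    unfold Bw
    field_simp
  rw [e1, e2, e3, ← mul_assoc]
  refine mul_le_mul_of_nonneg_right ?_ (by positivity)
  rw [e4]
  have h5 := mul_le_mul_of_nonneg_left h (by positivity : 0 ≤ 3 / 2 * chw s r / r ^ 2)
  refine h5.trans (le_of_eq ?_)
  field_simp

/-- real inequality behind (W3) -/
theorem w3_real {P q om H o h g c R Un Ud Vn Vd : ℝ} (hq : 0 ≤ q) (ho : 0 < o) (hh : 0 < h)
    (hom : o ≤ om) (hH : h ≤ H) (hc : c ≤ g) (hR0 : 0 ≤ R) (hUd : 0 < Ud) (hVd : 0 < Vd)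
    (hR : R ≤ Un / Ud * (Vn / Vd)) (h1 : P ≤ 3 / 2 * o * h)
    (h2 : 0 ≤ (3 / 2 * o * h - P) * (Ud * Vd) - q * (3 / 2) * g * (Un * Vn)) :
    P ≤ 3 / 2 * om * H - q * (3 / 2 * R * c) := by
  have h3 : 3 / 2 * o * h ≤ 3 / 2 * om * H := by
    have := mul_le_mul hom hH hh.le (ho.le.trans hom)
    nlinarith
  rcases le_or_gt c 0 with hc0 | hc0
  · have : q * (3 / 2 * R * c) ≤ 0 := by
      have : R * c ≤ 0 := mul_nonpos_of_nonneg_of_nonpos hR0 hc0
      nlinarith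
    linarith
  · have hg : 0 < g := hc0.trans_le hc
    have hUV : 0 < Ud * Vd := mul_pos hUd hVd
    have e : Un / Ud * (Vn / Vd) = (Un * Vn) / (Ud * Vd) := by field_simp
    rw [e] at hR
    have h4 : R * c ≤ (Un * Vn) / (Ud * Vd) * g :=
      mul_le_mul hR hc hc0.le (hR0.trans hR)
    have h5 : q * (3 / 2) * ((Un * Vn) / (Ud * Vd) * g) ≤ 3 / 2 * o * h - P := by
      have e2 : q * (3 / 2) * ((Un * Vn) / (Ud * Vd) * g) =
          (q * (3 / 2) * g * (Un * Vn)) / (Ud * Vd) := by field_simp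
      rw [e2, div_le_iff₀ hUV]
      linarith
    have h6 := mul_le_mul_of_nonneg_left h4 (by positivity : 0 ≤ q * (3 / 2))
    nlinarith

/-- ratio of `S` at two points -/
theorem ratio_le (hE : Ext 0 0 s s1) {t : ℝ} (hr : 0 < r) (ht : 0 < t) {x y x' y' : ℝ}
    (hx : sgw s r ≤ x) (hy0 : 0 < y) (hy : y ≤ chw s r) (hx'0 : 0 < x') (hx' : x' ≤ sgw s t)
    (hy' : chw s t ≤ y') :
    0 ≤ Sf s r / Sf s t ∧ Sf s r / Sf s t ≤ x / (x + y) * ((x' + y') / x') := by
  have hc := chw_pos hE hr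
  have hs := sgw_pos hE hr
  have hc' := chw_pos hE ht
  have hs' := sgw_pos hE ht
  have hM := Mf_pos hE
  have e : Sf s r / Sf s t = (sgw s r / (chw s r + sgw s r)) * ((chw s t + sgw s t) / sgw s t) := by
    rw [Sf_eq hE hr, Sf_eq hE ht]
    field_simp
  have hx0 : 0 < x := hs.trans_le hx
  have a1 : sgw s r / (chw s r + sgw s r) ≤ x / (x + y) := by
    rw [div_le_div_iff₀ (by positivity) (by positivity)]
    nlinarith [mul_le_mul hx hy hy0.le hx0.le]
  have a2 : (chw s t + sgw s t) / sgw s t ≤ (x' + y') / x' := by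
    rw [div_le_div_iff₀ hs' hx'0]
    nlinarith [mul_le_mul hx' hy' hc'.le (hx'0.le.trans hx')]
  constructor
  · exact div_nonneg (Sf_pos hE hr).le (Sf_pos hE ht).le
  · rw [e]
    exact mul_le_mul a1 a2 (by positivity) (by positivity)

end

end Pool.Agent.H85.HN.WF
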