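import Pool.Agent.H85.HN.Wf

/-!
# Facts on the extremal function: numerical checks on `[5/2, 20]`
-/

namespace Pool.Agent.H85.HN.WF

open Pool.Agent.H99.HM Pool.Agent.H99.HN Pool.Agent.H99.PC Pool.Agent.H99.HN.Enc
open MeasureTheory Set Filter Topology Real

def eCl : List ℤ := [16 * 10 ^ 16]
def eSl : List ℤ := [7 * 10 ^ 16, 33 * 10 ^ 15, 6 * 10 ^ 14, 0, 0, 28 * 10 ^ 9]
def eOl : List ℤ := [9 * 10 ^ 16, 4 * 10 ^ 16, 14 * 10 ^ 14, 0, 0, 92 * 10 ^ 9]
def eLl : List ℤ := [8 * 10 ^ 16, 10 ^ 16, 2 * 10 ^ 14]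

def cLo : List ℤ := add Lc (smul (-1) eCl)
def cHi : List ℤ := add Lc eCl
def sLo : List ℤ := add Ls (smul (-1) eSl)
def sHi : List ℤ := add Ls eSl
def oLo : List ℤ := add Lo (smul (-1) eOl)
def oHi : List ℤ := add Lo eOl
def lLo : List ℤ := add Ll (smul (-1) eLl)
def lHi : List ℤ := add Ll eLl
def hLo : List ℤ := add sLo (add [2 * 10 ^ 20] (smul (-2) lHi))
def gHi : List ℤ := add cHi (add (smul 2 lHi) [-(2 * 10 ^ 20)])

section ev

variable (r : ℝ)

theorem ev_cLo : ev cLo r = 10 ^ 20 * (cf r - 16 / 10 ^ 4) := by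
  rw [cLo, ev_add, ev_smul]
  unfold cf
  simp only [eCl, ev]
  push_cast
  ring

theorem ev_cHi : ev cHi r = 10 ^ 20 * (cf r + 16 / 10 ^ 4) := by
  rw [cHi, ev_add]
  unfold cf
  simp only [eCl, ev]
  push_cast
  ring

theorem ev_sLo : ev sLo r = 10 ^ 20 * (sf r - ES' r) := by
  rw [sLo, ev_add, ev_smul]
  unfold sf ES'
  simp only [eSl, ev]
  push_cast
  ring

theorem ev_sHi : ev sHi r = 10 ^ 20 * (sf r + ES' r) := by
  rw [sHi, ev_add]
  unfold sf ES'
  simp only [eSl, ev]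
  push_cast
  ring

theorem ev_oLo : ev oLo r = 10 ^ 20 * (of r - EO' r) := by
  rw [oLo, ev_add, ev_smul]
  unfold of EO'
  simp only [eOl, ev]
  push_cast
  ring

theorem ev_oHi : ev oHi r = 10 ^ 20 * (of r + EO' r) := by
  rw [oHi, ev_add]
  unfold of EO'
  simp only [eOl, ev]
  push_cast
  ring

theorem ev_lLo : ev lLo r = 10 ^ 20 * (lf r - EL' r) := by
  rw [lLo, ev_add, ev_smul]
  unfold lf EL'
  simp only [eLl, ev]
  push_cast
  ring

theorem ev_lHi : ev lHi r = 10 ^ 20 * (lf r + EL' r) := by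
  rw [lHi, ev_add]
  unfold lf EL'
  simp only [eLl, ev]
  push_cast
  ring

theorem ev_hLo : ev hLo r = 10 ^ 20 * ((sf r - ES' r) + 2 - 2 * (lf r + EL' r)) := by
  rw [hLo, ev_add, ev_add, ev_smul, ev_sLo, ev_lHi]
  simp only [ev]
  push_cast
  ring

theorem ev_gHi : ev gHi r = 10 ^ 20 * ((cf r + 16 / 10 ^ 4) + 2 * (lf r + EL' r) - 2) := by
  rw [gHi, ev_add, ev_add, ev_smul, ev_cHi, ev_lHi]
  simp only [ev]
  push_cast
  ring

end ev

/-- `3^n l(2 r / 3)` -/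
def s23 : List ℤ → List ℤ × ℤ
  | [] => ([], 1)
  | c :: l =>
    let t := s23 l
    (add [3 * c * t.2] (0 :: smul 2 t.1), 3 * t.2)

theorem ev_s23 (l : List ℤ) (r : ℝ) :
    ((s23 l).2 : ℝ) = 3 ^ l.length ∧ ev (s23 l).1 r = 3 ^ l.length * ev l (2 / 3 * r) := by
  induction l with
  | nil => simp [s23, ev]
  | cons c l ih =>
    obtain ⟨h1, h2⟩ := ih
    simp only [s23, ev_add, ev, ev_smul, h2, List.length_cons, pow_succ]
    push_cast
    rw [h1]
    constructor <;> ring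

def kW2 : PE := .L (add [1999 * 10 ^ 17] (smul (-1) (add cHi (smul 2 lHi))))
def kOH : PE := .sub (.mul (.C 150) (.mul (.L oLo) (.L hLo))) (.C (726 * 10 ^ 40))
def kW3 (P : ℤ) : PE := .sub
  (.mul (.sub (.mul (.C 300) (.mul (.L oLo) (.L hLo))) (.C (2 * P * 10 ^ 40)))
    (.mul (.L (add sHi cLo)) (.L (s23 sLo).1)))
  (.mul (.C (600 * 10 ^ 20)) (.mul (.L gHi) (.mul (.L sHi) (.L (s23 (add sLo cHi)).1))))
def kB : PE := .sub (.mul (.C 9135) (.mul (.L (add cLo sLo)) (.mul (.L oLo) (.L oLo))))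
  (.L [0, 24180 * 10 ^ 60])
def kK7 : PE := .sub (.L [0, 98088 * 10 ^ 40]) (.mul (.C 91350) (.mul (.L (add cHi sHi)) (.L oHi)))
def kK8 : PE := .L (add (smul 2 oLo) (smul (-1) (add [2 * 10 ^ 20]
  (add (smul 2 lHi) (add cHi sHi)))))

theorem ckW2 : pchkL kW2 200 10 [25, 48] = true := by decide +kernel
theorem ckO : pchkL (.sub (.L oLo) (.C 1)) 200 2 [5, 40] = true := by decide +kernel
theorem ckH : pchkL (.sub (.L hLo) (.C 1)) 200 2 [5, 40] = true := by decide +kernel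
theorem ckC : pchkL (.sub (.L cLo) (.C 1)) 200 2 [5, 40] = true := by decide +kernel
theorem ckS : pchkL (.sub (.L sLo) (.C 1)) 200 2 [5, 40] = true := by decide +kernel
theorem ckOH : pchkL kOH 300 5 [24, 100] = true := by decide +kernel
theorem ckW31 : pchkL (kW3 726) 600 20 [96, 115] = true := by decide +kernel
theorem ckW32 : pchkL (kW3 700) 600 20 [115, 132] = true := by decide +kernel
theorem ckW33 : pchkL (kW3 682) 600 20 [132, 148] = true := by decide +kernel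
theorem ckW34 : pchkL (kW3 653) 600 20 [148, 180] = true := by decide +kernel
theorem ckW35 : pchkL (kW3 625) 600 20 [180, 230] = true := by decide +kernel
theorem ckW36 : pchkL (kW3 595) 600 20 [230, 300] = true := by decide +kernel
theorem ckW37 : pchkL (kW3 570) 600 20 [300, 400] = true := by decide +kernel
theorem ckB : pchkL kB 400 8 [20, 30, 46] = true := by decide +kernel
theorem ckK7 : pchkL kK7 300 20 [96, 115] = true := by decide +kernel
theorem ckK8 : pchkL kK8 200 4 [23, 80] = true := by decide +kernel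
theorem ckK9a : pchkL (.sub (.mul (.C 113) (.L oLo)) (.C (300 * 10 ^ 20))) 200 20 [115, 132]
    = true := by decide +kernel
theorem ckK9b : pchkL (.sub (.mul (.C 106) (.L oLo)) (.C (300 * 10 ^ 20))) 200 20 [132, 148]
    = true := by decide +kernel
theorem ckK9c : pchkL (.sub (.L oLo) (.C (3 * 10 ^ 20))) 200 5 [37, 100] = true := by
  decide +kernel

/-! values at points -/
theorem v16 : pchk (.L (add [-(1524 * 10 ^ 16)] cLo)) 200 16 16 1 = true ∧
    pchk (.L (add [1558 * 10 ^ 16] (smul (-1) cHi))) 200 16 16 1 = true ∧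
    pchk (.L (add [-(28004 * 10 ^ 16)] sLo)) 200 16 16 1 = true ∧
    pchk (.L (add [28163 * 10 ^ 16] (smul (-1) sHi))) 200 16 16 1 = true ∧
    pchk (.L (add [-(42285 * 10 ^ 16)] oLo)) 200 16 16 1 = true ∧
    pchk (.L (add [42526 * 10 ^ 16] (smul (-1) oHi))) 200 16 16 1 = true := by decide +kernel
theorem v10 : pchk (.L (add [3904 * 10 ^ 16] (smul (-1) cHi))) 200 10 10 1 = true ∧
    pchk (.L (add [-(20195 * 10 ^ 16)] sLo)) 200 10 10 1 = true := by decide +kernel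
theorem v20 : pchk (.L (add [-(18030 * 10 ^ 16)] lLo)) 200 20 20 1 = true ∧
    pchk (.L (add [902 * 10 ^ 16] (smul (-1) cHi))) 200 20 20 1 = true := by decide +kernel
theorem v52 : pchk (.L (add [-(16360 * 10 ^ 16)] cLo)) 200 5 5 2 = true ∧
    pchk (.L (add [4535 * 10 ^ 16] (smul (-1) sHi))) 200 5 5 2 = true := by decide +kernel

section

variable {s s1 : ℝ → ℝ} {r : ℝ}

theorem oLo_pos (h1 : 5 / 2 ≤ r) (h2 : r ≤ 20) : 0 < of r - EO' r := by
  have h := pchkL_sound (by norm_num) _ _ _ 40 ckO rfl r (by push_cast; linarith)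
    (by push_cast; linarith)
  simp only [PE.ev, ev_oLo] at h
  push_cast at h
  linarith

theorem hLo_pos (h1 : 5 / 2 ≤ r) (h2 : r ≤ 20) :
    0 < (sf r - ES' r) + 2 - 2 * (lf r + EL' r) := by
  have h := pchkL_sound (by norm_num) _ _ _ 40 ckH rfl r (by push_cast; linarith)
    (by push_cast; linarith)
  simp only [PE.ev, ev_hLo] at h
  push_cast at h
  linarith

theorem cLo_pos (h1 : 5 / 2 ≤ r) (h2 : r ≤ 20) : 0 < cf r - 16 / 10 ^ 4 := by
  have h := pchkL_sound (by norm_num) _ _ _ 40 ckC rfl r (by push_cast; linarith)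
    (by push_cast; linarith)
  simp only [PE.ev, ev_cLo] at h
  push_cast at h
  linarith

theorem sLo_pos (h1 : 5 / 2 ≤ r) (h2 : r ≤ 20) : 0 < sf r - ES' r := by
  have h := pchkL_sound (by norm_num) _ _ _ 40 ckS rfl r (by push_cast; linarith)
    (by push_cast; linarith)
  simp only [PE.ev, ev_sLo] at h
  push_cast at h
  linarith

theorem w2_num (h1 : 5 / 2 ≤ r) (h2 : r ≤ 24 / 5) :
    (cf r + 16 / 10 ^ 4) + 2 * (lf r + EL' r) ≤ 1999 / 1000 := by
  have h := pchkL_sound (by norm_num) _ _ _ 48 ckW2 rfl r (by push_cast; linarith)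
    (by push_cast; linarith)
  simp only [kW2, PE.ev, ev_add, ev_smul, ev_cHi, ev_lHi, ev] at h
  push_cast at h
  linarith

theorem oh_num (h1 : 24 / 5 ≤ r) (h2 : r ≤ 20) :
    726 / 100 ≤ 3 / 2 * (of r - EO' r) * ((sf r - ES' r) + 2 - 2 * (lf r + EL' r)) := by
  have h := pchkL_sound (by norm_num) _ _ _ 100 ckOH rfl r (by push_cast; linarith)
    (by push_cast; linarith)
  simp only [kOH, PE.ev, ev_oLo, ev_hLo] at h
  push_cast at h
  have h3 : 0 ≤ 10 ^ 42 * (3 / 2 * (of r - EO' r) * ((sf r - ES' r) + 2 - 2 * (lf r + EL' r))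
      - 726 / 100) := by
    refine h.trans (le_of_eq ?_)
    ring
  have := nonneg_of_mul_nonneg_right h3 (by norm_num)
  linarith

/-- the real form of the main check -/
theorem w3_num {P : ℤ} (h : 0 ≤ (kW3 P).ev r) :
    0 ≤ (3 / 2 * (of r - EO' r) * ((sf r - ES' r) + 2 - 2 * (lf r + EL' r)) - (P : ℝ) / 100) *
      (((sf r + ES' r) + (cf r - 16 / 10 ^ 4)) *
        (sf (2 / 3 * r) - ES' (2 / 3 * r))) -
      2 * (3 / 2) * ((cf r + 16 / 10 ^ 4) + 2 * (lf r + EL' r) - 2) *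
      ((sf r + ES' r) * ((sf (2 / 3 * r) - ES' (2 / 3 * r)) +
        (cf (2 / 3 * r) + 16 / 10 ^ 4))) := by
  have l1 : sLo.length = 11 := by decide
  have l2 : (add sLo cHi).length = 11 := by decide
  simp only [kW3, PE.ev, ev_oLo, ev_hLo, ev_add, ev_sHi, ev_cLo, ev_gHi, (ev_s23 _ r).2, l1, l2,
    ev_sLo, ev_cHi] at h
  push_cast at h
  have h3 : 0 ≤ (200 * 10 ^ 80 * 3 ^ 11) * ((3 / 2 * (of r - EO' r) *
      ((sf r - ES' r) + 2 - 2 * (lf r + EL' r)) - (P : ℝ) / 100) *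
      (((sf r + ES' r) + (cf r - 16 / 10 ^ 4)) *
        (sf (2 / 3 * r) - ES' (2 / 3 * r))) -
      2 * (3 / 2) * ((cf r + 16 / 10 ^ 4) + 2 * (lf r + EL' r) - 2) *
      ((sf r + ES' r) * ((sf (2 / 3 * r) - ES' (2 / 3 * r)) +
        (cf (2 / 3 * r) + 16 / 10 ^ 4)))) := by
    refine h.trans (le_of_eq ?_)
    ring
  exact nonneg_of_mul_nonneg_right h3 (by norm_num)

theorem b_num (h1 : 5 / 2 ≤ r) (h2 : r ≤ 23 / 4) :
    2 * r * (1209 / 1000) ≤ 9135 / 10 ^ 4 * (((cf r - 16 / 10 ^ 4) + (sf r - ES' r)) *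
      (of r - EO' r) ^ 2) := by
  have h := pchkL_sound (by norm_num) _ _ _ 46 ckB rfl r (by push_cast; linarith)
    (by push_cast; linarith)
  simp only [kB, PE.ev, ev_oLo, ev_add, ev_cLo, ev_sLo, ev] at h
  push_cast at h
  have h3 : 0 ≤ 10 ^ 64 * (9135 / 10 ^ 4 * (((cf r - 16 / 10 ^ 4) + (sf r - ES' r)) *
      (of r - EO' r) ^ 2) - 2 * r * (1209 / 1000)) := by
    refine h.trans (le_of_eq ?_)
    ring
  have := nonneg_of_mul_nonneg_right h3 (by norm_num)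
  linarith

theorem k7_num (h1 : 24 / 5 ≤ r) (h2 : r ≤ 23 / 4) :
    9135 / 10 ^ 4 * (((cf r + 16 / 10 ^ 4) + (sf r + ES' r)) * (of r + EO' r)) ≤
      122 / 100 / 3 * (2 * r * (1206 / 1000)) := by
  have h := pchkL_sound (by norm_num) _ _ _ 115 ckK7 rfl r (by push_cast; linarith)
    (by push_cast; linarith)
  simp only [kK7, PE.ev, ev_oHi, ev_add, ev_cHi, ev_sHi, ev] at h
  push_cast at h
  have h3 : 0 ≤ 10 ^ 45 * (122 / 100 / 3 * (2 * r * (1206 / 1000)) -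
      9135 / 10 ^ 4 * (((cf r + 16 / 10 ^ 4) + (sf r + ES' r)) * (of r + EO' r))) := by
    refine h.trans (le_of_eq ?_)
    ring
  have := nonneg_of_mul_nonneg_right h3 (by norm_num)
  linarith

theorem k8_num (h1 : 23 / 4 ≤ r) (h2 : r ≤ 20) :
    2 + 2 * (lf r + EL' r) + (cf r + 16 / 10 ^ 4) + (sf r + ES' r) ≤ 2 * (of r - EO' r) := by
  have h := pchkL_sound (by norm_num) _ _ _ 80 ckK8 rfl r (by push_cast; linarith)
    (by push_cast; linarith)
  simp only [kK8, PE.ev, ev_oLo, ev_add, ev_smul, ev_lHi, ev_cHi, ev_sHi, ev] at h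
  push_cast at h
  linarith

theorem k9a (h1 : 23 / 4 ≤ r) (h2 : r ≤ 33 / 5) : 300 / 113 ≤ of r - EO' r := by
  have h := pchkL_sound (by norm_num) _ _ _ 132 ckK9a rfl r (by push_cast; linarith)
    (by push_cast; linarith)
  simp only [PE.ev, ev_oLo] at h
  push_cast at h
  linarith

theorem k9b (h1 : 33 / 5 ≤ r) (h2 : r ≤ 37 / 5) : 300 / 106 ≤ of r - EO' r := by
  have h := pchkL_sound (by norm_num) _ _ _ 148 ckK9b rfl r (by push_cast; linarith)
    (by push_cast; linarith)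
  simp only [PE.ev, ev_oLo] at h
  push_cast at h
  linarith

theorem k9c (h1 : 37 / 5 ≤ r) (h2 : r ≤ 20) : 3 ≤ of r - EO' r := by
  have h := pchkL_sound (by norm_num) _ _ _ 100 ckK9c rfl r (by push_cast; linarith)
    (by push_cast; linarith)
  simp only [PE.ev, ev_oLo] at h
  push_cast at h
  linarith

theorem at16 : 1524 / 10 ^ 4 ≤ cf 16 - 16 / 10 ^ 4 ∧ cf 16 + 16 / 10 ^ 4 ≤ 1558 / 10 ^ 4 ∧
    28004 / 10 ^ 4 ≤ sf 16 - ES' 16 ∧ sf 16 + ES' 16 ≤ 28163 / 10 ^ 4 ∧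
    42285 / 10 ^ 4 ≤ of 16 - EO' 16 ∧ of 16 + EO' 16 ≤ 42526 / 10 ^ 4 := by
  obtain ⟨a1, a2, a3, a4, a5, a6⟩ := v16
  have b1 := pchk_sound (by norm_num) a1 (x := 16) (by norm_num) (by norm_num)
  have b2 := pchk_sound (by norm_num) a2 (x := 16) (by norm_num) (by norm_num)
  have b3 := pchk_sound (by norm_num) a3 (x := 16) (by norm_num) (by norm_num)
  have b4 := pchk_sound (by norm_num) a4 (x := 16) (by norm_num) (by norm_num)
  have b5 := pchk_sound (by norm_num) a5 (x := 16) (by norm_num) (by norm_num)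
  have b6 := pchk_sound (by norm_num) a6 (x := 16) (by norm_num) (by norm_num)
  simp only [PE.ev, ev_add, ev_smul, ev_cLo, ev_cHi, ev_sLo, ev_sHi, ev_oLo, ev_oHi, ev]
    at b1 b2 b3 b4 b5 b6
  push_cast at b1 b2 b3 b4 b5 b6
  refine ⟨?_, ?_, ?_, ?_, ?_, ?_⟩ <;> linarith

theorem at10 : cf 10 + 16 / 10 ^ 4 ≤ 3904 / 10 ^ 4 ∧ 20195 / 10 ^ 4 ≤ sf 10 - ES' 10 := by
  obtain ⟨a1, a2⟩ := v10
  have b1 := pchk_sound (by norm_num) a1 (x := 10) (by norm_num) (by norm_num)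
  have b2 := pchk_sound (by norm_num) a2 (x := 10) (by norm_num) (by norm_num)
  simp only [PE.ev, ev_add, ev_smul, ev_cHi, ev_sLo, ev] at b1 b2
  push_cast at b1 b2
  refine ⟨?_, ?_⟩ <;> linarith

theorem at20 : 18030 / 10 ^ 4 ≤ lf 20 - EL' 20 ∧ cf 20 + 16 / 10 ^ 4 ≤ 902 / 10 ^ 4 := by
  obtain ⟨a1, a2⟩ := v20
  have b1 := pchk_sound (by norm_num) a1 (x := 20) (by norm_num) (by norm_num)
  have b2 := pchk_sound (by norm_num) a2 (x := 20) (by norm_num) (by norm_num)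
  simp only [PE.ev, ev_add, ev_smul, ev_cHi, ev_lLo, ev] at b1 b2
  push_cast at b1 b2
  refine ⟨?_, ?_⟩ <;> linarith

theorem at52 : 16360 / 10 ^ 4 ≤ cf (5 / 2) - 16 / 10 ^ 4 ∧ sf (5 / 2) + ES' (5 / 2) ≤
    4535 / 10 ^ 4 := by
  obtain ⟨a1, a2⟩ := v52
  have b1 := pchk_sound (by norm_num) a1 (x := 5 / 2) (by norm_num) (by norm_num)
  have b2 := pchk_sound (by norm_num) a2 (x := 5 / 2) (by norm_num) (by norm_num)
  simp only [PE.ev, ev_add, ev_smul, ev_cLo, ev_sHi, ev] at b1 b2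
  push_cast at b1 b2
  refine ⟨?_, ?_⟩ <;> linarith

end

end Pool.Agent.H85.HN.WF
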